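import Pool.Agent.LibHG80.RowRad

set_option autoImplicit false

namespace Pool.Agent.LibHG80

open Module Polynomial

namespace Dat

variable {F κ A : Type*} [Field F] [Field κ] [Algebra F κ] [AddCommGroup A] {p s : ℕ}
  [hp : Fact p.Prime] [hc : CharP F p] (d : Dat F κ A p s)

/-! ### Row Min -/
theorem exists_minimal {y : F} (hy : y ∈ d.R) (h : y ∉ d.UU) : ∃ q : Ideal d.R, q.IsPrime ∧
    (∀ t ∈ d.UU, d.In q t) ∧ ¬ d.In q y ∧
    ∀ x, d.In q x → ∃ v ∈ d.R, ¬ d.In q v ∧ v * x ∈ d.UU := by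
  have hmem : ∀ x : d.R, x ∈ d.UI ↔ (x : F) ∈ d.UU := fun _ => Iff.rfl
  have hrad : ∀ (x : d.R) (m : ℕ), x ^ m ∈ d.UI → x ∈ d.UI := by
    intro x m hx
    rw [hmem] at hx ⊢
    exact d.UU_radical x.2 (m := m) (by simpa using hx)
  have hy' : (⟨y, hy⟩ : d.R) ∉ d.UI := h
  have h1 : (⟨y, hy⟩ : d.R) ∉ sInf (d.UI).minimalPrimes := by
    rw [Ideal.sInf_minimalPrimes]
    rintro ⟨m, hm⟩
    exact hy' (hrad _ m hm)
  obtain ⟨q, hq, hyq⟩ : ∃ q ∈ (d.UI).minimalPrimes, (⟨y, hy⟩ : d.R) ∉ q := by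
    by_contra hcon
    push Not at hcon
    exact h1 (Ideal.mem_sInf.2 fun {I} hI => hcon I hI)
  have hqp : q.IsPrime := hq.1.1
  have hqI : d.UI ≤ q := hq.1.2
  refine ⟨q, hqp, fun t ht => ⟨d.UU_le_R ht, hqI ht⟩, fun h2 => hyq h2.2, ?_⟩
  intro x hx
  by_contra hcon
  push Not at hcon
  obtain ⟨hxR, hxq⟩ := hx
  set x' : d.R := ⟨x, hxR⟩ with hx'
  set S : Submonoid d.R := q.primeCompl ⊔ Submonoid.powers x' with hS
  have hdisj : Disjoint (d.UI : Set d.R) (S : Set d.R) := by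
    rw [Set.disjoint_left]
    intro z hz hzS
    obtain ⟨a, ha, b, ⟨m, rfl⟩, rfl⟩ := Submonoid.mem_sup.1 hzS
    have haq : a ∉ q := ha
    rcases Nat.eq_zero_or_pos m with hm | hm
    · subst hm
      rw [SetLike.mem_coe] at hz
      apply haq
      apply hqI
      simpa using hz
    · have h3 : (a * x') ^ m ∈ d.UI := by
        obtain ⟨k, rfl⟩ : ∃ k, m = k + 1 := ⟨m - 1, by omega⟩
        have h4 : (a * x') ^ (k + 1) = a ^ k * (a * x' ^ (k + 1)) := by ring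
        rw [h4]
        exact Ideal.mul_mem_left _ _ hz
      have h5 := hrad _ _ h3
      exact hcon a a.2 (fun h6 => haq h6.2) h5
  obtain ⟨P, hP, hIP, hPS⟩ := Ideal.exists_le_prime_disjoint _ S hdisj
  have hPq : P ≤ q := by
    intro z hz
    by_contra hzq
    exact Set.disjoint_left.1 hPS hz (Submonoid.mem_sup_left (show z ∈ q.primeCompl from hzq))
  have hqP : q ≤ P := hq.2 ⟨hP, hIP⟩ hPq
  exact Set.disjoint_left.1 hPS (hqP hxq) (Submonoid.mem_sup_right (Submonoid.mem_powers x'))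

end Dat

end Pool.Agent.LibHG80
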