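import Pool.Agent.LibHG80.RowPrf

set_option autoImplicit false

namespace Pool.Agent.LibHG80

open Module Polynomial

namespace Dat

variable {F κ A : Type*} [Field F] [Field κ] [Algebra F κ] [AddCommGroup A] {p s : ℕ}
  [hp : Fact p.Prime] [hc : CharP F p] (d : Dat F κ A p s)

/-! ### Row Inf
R / q is an infinite domain: every element is an m-th power for all m >= 1 (hdiv, root_closed), so if
it is finite (of order N) every nonzero x = y ^ (N-1) = 1, R / q = {0,1}, and then every a_k ^ Q - a_k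
lies in q. A nonzero polynomial over an infinite domain has a non-root. -/
private lemma inf_in_iff {q : Ideal d.R} {x : F} (hx : x ∈ d.R) :
    d.In q x ↔ Ideal.Quotient.mk q ⟨x, hx⟩ = 0 := by
  rw [Ideal.Quotient.eq_zero_iff_mem]
  exact ⟨fun ⟨_, h⟩ => h, fun h => ⟨hx, h⟩⟩

include hp in
private lemma inf_infinite {q : Ideal d.R} (hq : q.IsPrime)
    (hk : ∃ k, ¬ d.In q (d.P.coeff k ^ p ^ s - d.P.coeff k)) : Infinite (d.R ⧸ q) := by
  by_contra hinf
  haveI : Finite (d.R ⧸ q) := not_infinite_iff_finite.1 hinf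
  haveI : IsDomain (d.R ⧸ q) := Ideal.Quotient.isDomain q
  haveI := Fintype.ofFinite (d.R ⧸ q)
  classical
  letI : Field (d.R ⧸ q) := Fintype.fieldOfDomain (d.R ⧸ q)
  have hN : 0 < Fintype.card (d.R ⧸ q) - 1 := Nat.sub_pos_of_lt Fintype.one_lt_card
  have key : ∀ x : d.R ⧸ q, x ^ p ^ s = x := by
    intro x
    obtain ⟨⟨x, hx⟩, rfl⟩ := Ideal.Quotient.mk_surjective x
    obtain ⟨y, hy⟩ := d.hdiv _ hN x
    have hyR : y ∈ d.R := d.root_closed hN (by rw [hy]; exact hx)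
    have e : (⟨x, hx⟩ : d.R) = (⟨y, hyR⟩ : d.R) ^ (Fintype.card (d.R ⧸ q) - 1) :=
      Subtype.ext hy.symm
    rcases eq_or_ne (Ideal.Quotient.mk q (⟨x, hx⟩ : d.R)) 0 with h0 | h0
    · rw [h0, zero_pow]
      exact pow_ne_zero _ hp.out.ne_zero
    · have h1 : Ideal.Quotient.mk q (⟨y, hyR⟩ : d.R) ≠ 0 := by
        intro h1
        apply h0
        rw [e, map_pow, h1, zero_pow hN.ne']
      have h2 : Ideal.Quotient.mk q (⟨x, hx⟩ : d.R) = 1 := by
        rw [e, map_pow]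
        exact FiniteField.pow_card_sub_one_eq_one _ h1
      rw [h2, one_pow]
  obtain ⟨k, hk⟩ := hk
  apply hk
  have hx := d.coeff_mem_R k
  refine (d.inf_in_iff (d.R.sub_mem (d.R.pow_mem hx _) hx)).2 ?_
  have e : (⟨d.P.coeff k ^ p ^ s - d.P.coeff k, d.R.sub_mem (d.R.pow_mem hx _) hx⟩ : d.R) =
      (⟨d.P.coeff k, hx⟩ : d.R) ^ p ^ s - ⟨d.P.coeff k, hx⟩ := rfl
  rw [e, map_sub, map_pow, key, sub_self]

theorem exists_eval_not_in {q : Ideal d.R} (hq : q.IsPrime)
    (hk : ∃ k, ¬ d.In q (d.P.coeff k ^ p ^ s - d.P.coeff k)) {h : F[X]}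
    (hR : ∀ i, h.coeff i ∈ d.R) (hh : ∃ i, ¬ d.In q (h.coeff i)) :
    ∃ r ∈ d.R, ¬ d.In q (h.eval r) := by
  haveI := d.inf_infinite hq hk
  haveI : IsDomain (d.R ⧸ q) := Ideal.Quotient.isDomain q
  have hsub : (↑h.coeffs : Set F) ⊆ d.R := by
    intro x hx
    obtain ⟨n, _, rfl⟩ := Polynomial.mem_coeffs_iff.1 (Finset.mem_coe.1 hx)
    exact hR n
  set g : (d.R)[X] := h.toSubring d.R hsub with hg
  have hmap : g.map d.R.subtype = h := by
    ext i
    rw [coeff_map]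
    exact Polynomial.coeff_toSubring _ _ _
  have hev : ∀ r : d.R, ((g.eval r : d.R) : F) = h.eval (r : F) := by
    intro r
    rw [← hmap, eval_map]
    exact (eval₂_at_apply d.R.subtype r).symm
  by_contra hcon
  push_neg at hcon
  have h0 : g.map (Ideal.Quotient.mk q) = 0 := by
    refine Polynomial.funext fun x => ?_
    obtain ⟨r, rfl⟩ := Ideal.Quotient.mk_surjective x
    rw [eval_map, eval₂_at_apply, eval_zero]
    obtain ⟨h1, h2⟩ := hcon r r.2
    rw [Ideal.Quotient.eq_zero_iff_mem]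
    have e : (⟨h.eval (r : F), h1⟩ : d.R) = g.eval r := Subtype.ext (hev r).symm
    rw [← e]
    exact h2
  obtain ⟨i, hi⟩ := hh
  apply hi
  refine (d.inf_in_iff (hR i)).2 ?_
  have h1 : (g.map (Ideal.Quotient.mk q)).coeff i = 0 := by rw [h0, coeff_zero]
  rw [coeff_map] at h1
  have e : (⟨h.coeff i, hR i⟩ : d.R) = g.coeff i :=
    Subtype.ext (Polynomial.coeff_toSubring _ _ _).symm
  rw [e, h1]

end Dat

end Pool.Agent.LibHG80
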