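import Pool.Agent.LibHG80.RowInv

set_option autoImplicit false

namespace Pool.Agent.LibHG80

open Module Polynomial

namespace Dat

variable {F κ A : Type*} [Field F] [Field κ] [Algebra F κ] [AddCommGroup A] {p s : ℕ}
  [hp : Fact p.Prime] [hc : CharP F p] (d : Dat F κ A p s)

/-! ### Row Irr
irr_aux: some coefficient of g (and of h) is not in q (otherwise all coefficients of u P are in q,
in particular u). content of the coefficients: g = γ g1, g1(ρ) primitive, γ in R (γ = sum u_i g_i),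
γ not in q. Same for h = δ h1. W = g1(ρ) h1(ρ) is primitive and γ δ W = g(ρ) h(ρ) = - (u P - g h)(ρ)
has all coordinates in q (the polynomial u P - g h has coefficients in q, OO_aeval / In_mul_OO), so
γ δ = sum u_i co i (γ δ W) in q: contradiction.
irreducible_mod: Polynomial.Monic.irreducible_iff..., clear denominators. -/

omit hp hc in
/-- the coordinates of the powers of the generator -/
theorem irr_co_pow (i : Fin d.n) {k : ℕ} (hk : k < d.n) :
    d.co i (d.ρ ^ k) = if (i : ℕ) = k then 1 else 0 := by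
  have h1 : d.ρ ^ k = d.B.basis ⟨k, hk⟩ := by
    rw [d.B.basis_eq_pow]
  rw [h1, co, Basis.coord_apply, Basis.repr_self, Finsupp.single_apply]
  by_cases h : (i : ℕ) = k
  · have h' : (⟨k, hk⟩ : Fin d.n) = i := Fin.ext h.symm
    rw [if_pos h', if_pos h]
  · have h' : (⟨k, hk⟩ : Fin d.n) ≠ i := fun e => h (by rw [← e])
    rw [if_neg h', if_neg h]

omit hp hc in
/-- the coordinates of the value of a polynomial of small degree -/
theorem irr_co_aeval {g : F[X]} (hg : g.natDegree < d.n) (i : Fin d.n) :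
    d.co i (aeval d.ρ g) = g.coeff i := by
  rw [aeval_eq_sum_range' hg, map_sum]
  rw [Finset.sum_eq_single (i : ℕ)]
  · rw [map_smul, d.irr_co_pow i i.2, if_pos rfl, smul_eq_mul, mul_one]
  · intro k hk hki
    rw [map_smul, d.irr_co_pow i (Finset.mem_range.1 hk), if_neg (fun e => hki e.symm), smul_zero]
  · intro h
    exact absurd (Finset.mem_range.2 i.2) h

omit hp hc in
theorem irr_P_natDegree : d.P.natDegree = d.n := d.B.natDegree_minpoly

omit hp hc in
theorem irr_P_monic : d.P.Monic := minpoly.monic d.B.isIntegral_gen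

omit hp hc in
/-- some coefficient is not in `q` -/
theorem irr_coeff {q : Ideal d.R} {g h : F[X]} (hhR : ∀ k, h.coeff k ∈ d.R) {u : F}
    (huq : ¬ d.In q u)
    (H : ∀ k, d.In q ((C u * d.P - g * h).coeff k)) : ∃ k, ¬ d.In q (g.coeff k) := by
  by_contra hcon
  push Not at hcon
  apply huq
  have h1 : d.In q ((g * h).coeff d.n) := by
    rw [coeff_mul]
    exact In.sum fun x _ => (hcon x.1).mul_right (hhR x.2)
  have h2 := (H d.n).add h1
  rw [← coeff_add, sub_add_cancel, coeff_C_mul] at h2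
  have h3 : d.P.coeff d.n = 1 := by
    have := d.irr_P_monic.coeff_natDegree
    rwa [d.irr_P_natDegree] at this
  rwa [h3, mul_one] at h2

/-- content of the polynomial -/
theorem irr_content {q : Ideal d.R} {g : F[X]} (hgR : ∀ k, g.coeff k ∈ d.R)
    (hg : g.natDegree < d.n) (hk : ∃ k, ¬ d.In q (g.coeff k)) :
    ∃ (γ : F) (G : κ), γ ∈ d.R ∧ ¬ d.In q γ ∧ d.Prim G ∧ aeval d.ρ g = γ • G := by
  obtain ⟨k, hk⟩ := hk
  have hk0 : g.coeff k ≠ 0 := by
    intro h
    rw [h] at hk
    exact hk in_zero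
  have hkn : k < d.n := lt_of_le_of_lt (le_natDegree_of_ne_zero hk0) hg
  obtain ⟨γ, x', u, hγ, hi, hs⟩ := d.content Finset.univ (fun i : Fin d.n => g.coeff i)
    ⟨⟨k, hkn⟩, Finset.mem_univ _, hk0⟩
  have hγR : γ ∈ d.R := by
    have e : γ = ∑ i, u i * g.coeff i := by
      have : ∀ i ∈ (Finset.univ : Finset (Fin d.n)), u i * g.coeff i = γ * (u i * x' i) := by
        intro i hi'
        rw [(hi i hi').1]
        ring
      rw [Finset.sum_congr rfl this, ← Finset.mul_sum, hs, mul_one]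
    rw [e]
    exact d.R.sum_mem fun i hi' => d.R.mul_mem (hi i hi').2.2 (hgR i)
  have hco : ∀ i, d.co i (γ⁻¹ • aeval d.ρ g) = x' i := by
    intro i
    rw [map_smul, d.irr_co_aeval hg, (hi i (Finset.mem_univ i)).1, smul_eq_mul,
      inv_mul_cancel_left₀ hγ]
  refine ⟨γ, γ⁻¹ • aeval d.ρ g, hγR, ?_, ⟨?_, u, fun i => (hi i (Finset.mem_univ i)).2.2, ?_⟩, ?_⟩
  · intro h
    apply hk
    have h1 := (hi ⟨k, hkn⟩ (Finset.mem_univ _))
    have h2 : g.coeff k = γ * x' ⟨k, hkn⟩ := h1.1
    rw [h2]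
    exact h.mul_right h1.2.1
  · intro i
    rw [hco]
    exact (hi i (Finset.mem_univ i)).2.1
  · rw [← hs]
    exact Finset.sum_congr rfl fun i _ => by rw [hco]
  · rw [smul_smul, mul_inv_cancel₀ hγ, one_smul]

/-- the coordinates of the value of a polynomial with coefficients in `q` -/
theorem irr_In_aeval {q : Ideal d.R} {E : F[X]} (hE : ∀ k, d.In q (E.coeff k)) (i : Fin d.n) :
    d.In q (d.co i (aeval d.ρ E)) := by
  rw [aeval_eq_sum_range, map_sum]
  refine In.sum fun k _ => ?_
  rw [map_smul, smul_eq_mul]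
  refine (hE k).mul_right ?_
  have h1 : aeval d.ρ ((X : F[X]) ^ k) = d.ρ ^ k := by simp
  rw [← h1]
  refine d.OO_aeval (fun j => ?_) i
  rw [coeff_X_pow]
  split_ifs
  · exact d.R.one_mem
  · exact d.R.zero_mem

theorem irr_aux {q : Ideal d.R} (hq : q.IsPrime) {g h : F[X]} (hgR : ∀ k, g.coeff k ∈ d.R)
    (hhR : ∀ k, h.coeff k ∈ d.R) {u : F} (hu : u ∈ d.R) (huq : ¬ d.In q u)
    (hg : g.natDegree < d.n) (hh : h.natDegree < d.n)
    (H : ∀ k, d.In q ((C u * d.P - g * h).coeff k)) : False := by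
  obtain ⟨γ, G, hγR, hγq, hG, hgG⟩ := d.irr_content hgR hg (d.irr_coeff hhR huq H)
  obtain ⟨δ, L, hδR, hδq, hL, hhL⟩ := d.irr_content hhR hh
    (d.irr_coeff (g := h) (h := g) hgR huq (by rwa [mul_comm h g]))
  obtain ⟨hW, w, hw, hws⟩ := Prim.mul d hG hL
  have h1 : aeval d.ρ (C u * d.P - g * h) = -((γ * δ) • (G * L)) := by
    rw [map_sub, map_mul, map_mul]
    have h2 : aeval d.ρ d.P = 0 := minpoly.aeval F d.ρ
    rw [h2, mul_zero, zero_sub, hgG, hhL, smul_mul_smul_comm]
  have h3 : ∀ i, d.In q (γ * δ * d.co i (G * L)) := by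
    intro i
    have h4 := (d.irr_In_aeval H i).neg
    rw [h1, map_neg, neg_neg, map_smul, smul_eq_mul] at h4
    exact h4
  have h5 : d.In q (γ * δ) := by
    have e : γ * δ = ∑ i, w i * (γ * δ * d.co i (G * L)) := by
      have : ∀ i ∈ (Finset.univ : Finset (Fin d.n)), w i * (γ * δ * d.co i (G * L)) =
          γ * δ * (w i * d.co i (G * L)) := fun i _ => by ring
      rw [Finset.sum_congr rfl this, ← Finset.mul_sum, hws, mul_one]
    rw [e]
    exact In.sum fun i _ => (h3 i).mul_left (hw i)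
  exact in_prime_not hq hγR hδR hγq hδq h5

theorem irr_PR_coeff (k : ℕ) : ((d.PR.coeff k : d.R) : F) = d.P.coeff k := by
  rw [PR, finsetSum_coeff]
  simp only [coeff_monomial]
  rw [Finset.sum_ite_eq']
  split_ifs with h
  · rfl
  · rw [Finset.mem_range, not_lt] at h
    have h1 : d.P.coeff k = 0 := by
      apply coeff_eq_zero_of_natDegree_lt
      rw [d.irr_P_natDegree]
      omega
    rw [h1]
    rfl

theorem irr_PR_map : d.PR.map d.R.subtype = d.P := by
  ext k
  rw [coeff_map]
  exact d.irr_PR_coeff k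

theorem irr_PR_monic : d.PR.Monic := by
  have h : (d.PR.map d.R.subtype).Monic := by
    rw [d.irr_PR_map]
    exact d.irr_P_monic
  exact monic_of_injective Subtype.val_injective h

theorem irr_PR_natDegree : d.PR.natDegree = d.n := by
  rw [← d.irr_P_natDegree, ← d.irr_PR_map]
  exact (natDegree_map_eq_of_injective Subtype.val_injective _).symm

/-- no factorisation of a multiple modulo `q` -/
theorem irr_aux' {q : Ideal d.R} (hq : q.IsPrime) {f g : (d.R)[X]} {u : d.R} (hu : u ∉ q)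
    (hf : f.natDegree < d.n) (hg : g.natDegree < d.n)
    (H : (C u * d.PR - f * g).map (Ideal.Quotient.mk q) = 0) : False := by
  refine d.irr_aux hq (g := f.map d.R.subtype) (h := g.map d.R.subtype) (u := u) (fun k => ?_)
    (fun k => ?_) u.2 ?_ ?_ ?_ ?_
  · rw [coeff_map]
    exact (f.coeff k).2
  · rw [coeff_map]
    exact (g.coeff k).2
  · rintro ⟨h1, h2⟩
    exact hu h2
  · exact lt_of_le_of_lt natDegree_map_le hf
  · exact lt_of_le_of_lt natDegree_map_le hg
  · intro k
    have h1 : C (u : F) * d.P - f.map d.R.subtype * g.map d.R.subtype =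
        (C u * d.PR - f * g).map d.R.subtype := by
      rw [Polynomial.map_sub, Polynomial.map_mul, Polynomial.map_mul, map_C, d.irr_PR_map]
      rfl
    have h2 : (C u * d.PR - f * g).coeff k ∈ q := by
      rw [← Ideal.Quotient.eq_zero_iff_mem, ← coeff_map, H, coeff_zero]
    rw [h1, coeff_map]
    exact ⟨((C u * d.PR - f * g).coeff k).2, h2⟩

theorem irreducible_mod {q : Ideal d.R} (hq : q.IsPrime) :
    Irreducible ((d.PR).map (algebraMap d.R (FractionRing (d.R ⧸ q)))) := by
  have := hq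
  have hn : 3 ≤ d.n := d.hdim
  have hmonic := d.irr_PR_monic.map (algebraMap d.R (FractionRing (d.R ⧸ q)))
  have hdeg : (d.PR.map (algebraMap d.R (FractionRing (d.R ⧸ q)))).natDegree = d.n := by
    rw [d.irr_PR_monic.natDegree_map, d.irr_PR_natDegree]
  rw [hmonic.irreducible_iff_natDegree]
  refine ⟨fun h => ?_, fun f g hf hg hfg => ?_⟩
  · rw [h, natDegree_one] at hdeg
    omega
  · by_contra hcon
    push Not at hcon
    obtain ⟨hf0, hg0⟩ := hcon
    have hsum : f.natDegree + g.natDegree = d.n := by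
      rw [← hdeg, ← hfg, hf.natDegree_mul hg]
    obtain ⟨a, ha, f₁, hf₁, hf₁d⟩ : ∃ a ∈ nonZeroDivisors (d.R ⧸ q), ∃ f₁ : (d.R ⧸ q)[X],
        f₁.map (algebraMap (d.R ⧸ q) (FractionRing (d.R ⧸ q))) = a • f ∧
          f₁.natDegree ≤ f.natDegree := by
      obtain ⟨a, ha, h⟩ := IsLocalization.integerNormalization_spec (nonZeroDivisors (d.R ⧸ q)) f
      refine ⟨a, ha, _, h, ?_⟩
      rw [← natDegree_map_eq_of_injective (IsFractionRing.injective (d.R ⧸ q)
        (FractionRing (d.R ⧸ q))), h]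
      exact natDegree_smul_le a f
    obtain ⟨b, hb, g₁, hg₁, hg₁d⟩ : ∃ a ∈ nonZeroDivisors (d.R ⧸ q), ∃ f₁ : (d.R ⧸ q)[X],
        f₁.map (algebraMap (d.R ⧸ q) (FractionRing (d.R ⧸ q))) = a • g ∧
          f₁.natDegree ≤ g.natDegree := by
      obtain ⟨a, ha, h⟩ := IsLocalization.integerNormalization_spec (nonZeroDivisors (d.R ⧸ q)) g
      refine ⟨a, ha, _, h, ?_⟩
      rw [← natDegree_map_eq_of_injective (IsFractionRing.injective (d.R ⧸ q)
        (FractionRing (d.R ⧸ q))), h]
      exact natDegree_smul_le a g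
    have hsur : Function.Surjective (Ideal.Quotient.mk q) := Ideal.Quotient.mk_surjective
    obtain ⟨f₂, hf₂, hf₂d⟩ := exists_natDegree_eq_of_mem_lifts (mem_lifts_of_surjective hsur f₁)
    obtain ⟨g₂, hg₂, hg₂d⟩ := exists_natDegree_eq_of_mem_lifts (mem_lifts_of_surjective hsur g₁)
    obtain ⟨u, hu⟩ := hsur (a * b)
    have huq : u ∉ q := by
      intro h
      rw [Ideal.Quotient.eq_zero_iff_mem.2 h] at hu
      exact nonZeroDivisors.ne_zero (mul_mem ha hb) hu.symm
    refine d.irr_aux' hq huq (f := f₂) (g := g₂) (by omega) (by omega) ?_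
    rw [Polynomial.map_sub, Polynomial.map_mul, Polynomial.map_mul, hf₂, hg₂, map_C, hu]
    apply map_injective _ (IsFractionRing.injective (d.R ⧸ q) (FractionRing (d.R ⧸ q)))
    rw [Polynomial.map_zero, Polynomial.map_sub, Polynomial.map_mul, Polynomial.map_mul, hf₁, hg₁,
      Polynomial.map_map, map_C]
    have h1 : (algebraMap (d.R ⧸ q) (FractionRing (d.R ⧸ q))).comp (Ideal.Quotient.mk q) =
        algebraMap d.R (FractionRing (d.R ⧸ q)) := rfl
    rw [h1, ← hfg, smul_mul_smul_comm, sub_eq_zero,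
      ← algebraMap_smul (FractionRing (d.R ⧸ q)) (a * b) (f * g), smul_eq_C_mul]

end Dat

end Pool.Agent.LibHG80
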