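import Pool.Agent.LibHG80.RowRF
import Pool.Agent.LibHG80.RowIrr
import Pool.Agent.LibHG80.RowInf

set_option autoImplicit false

namespace Pool.Agent.LibHG80

open Module Polynomial

/-- Clearing the denominators in the value of a polynomial. -/
lemma S3b_clear {L : Type*} [Field L] (n : ℕ) (a : ℕ → L) (r t : L) (ht : t ≠ 0) :
    t ^ n * ∑ k ∈ Finset.range (n + 1), a k * (r / t) ^ k =
      ∑ k ∈ Finset.range (n + 1), a k * (r ^ k * t ^ (n - k)) := by
  rw [Finset.mul_sum]
  refine Finset.sum_congr rfl fun k hk => ?_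
  have hk' : k ≤ n := Nat.lt_succ_iff.1 (Finset.mem_range.1 hk)
  have e : t ^ n = t ^ (n - k) * t ^ k := by rw [← pow_add, Nat.sub_add_cancel hk']
  rw [e, div_pow]
  field_simp

namespace Dat

variable {F κ A : Type*} [Field F] [Field κ] [Algebra F κ] [AddCommGroup A] {p s : ℕ}
  [hp : Fact p.Prime] [hc : CharP F p] (d : Dat F κ A p s)

omit hp hc in
lemma S3b_natDegree : d.P.natDegree = d.n := d.B.natDegree_minpoly

omit hp hc in
lemma S3b_monic : d.P.Monic := minpoly.monic (d.B.isIntegral_gen)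

lemma S3b_coeff (k : ℕ) : ((d.PR).coeff k : F) = d.P.coeff k := by
  rw [PR, finsetSum_coeff]
  simp only [coeff_monomial]
  rw [Finset.sum_ite_eq' (Finset.range (d.n + 1)) k]
  split_ifs with h
  · rfl
  · rw [coeff_eq_zero_of_natDegree_lt]
    · rfl
    · rw [S3b_natDegree]
      simpa using h

lemma S3b_map : (d.PR).map d.R.subtype = d.P := by
  ext k
  rw [coeff_map]
  exact d.S3b_coeff k

lemma S3b_natDegree' : (d.PR).natDegree = d.n := by
  rw [← d.S3b_natDegree, ← d.S3b_map, natDegree_map_eq_of_injective]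
  exact Subtype.val_injective

lemma S3b_monic' : (d.PR).Monic := by
  rw [Monic, leadingCoeff, d.S3b_natDegree']
  apply Subtype.ext
  rw [d.S3b_coeff, ← d.S3b_natDegree]
  exact d.S3b_monic

/-! ### Row S3b
k = FractionRing (R / q), K' = Subfield.closure of the image of Al; RF with f = P' mod q, g = P mod q
(irreducible_mod; f /= g; r, t in R, t not in q: f(r/t) in Al, f(r/t) * t^n P(r/t) = t^n P'(r/t)). -/
theorem exists_Al {q : Ideal d.R} (hq : q.IsPrime)
    (hk : ∃ k, ¬ d.In q (d.P.coeff k ^ p ^ s - d.P.coeff k)) {x : F} (hx : x ∈ d.R) :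
    ∃ a ∈ d.Al, ∃ a' ∈ d.Al, ¬ d.In q a ∧ d.In q (a * x - a') := by
  classical
  let K := FractionRing (d.R ⧸ q)
  let φ : d.R →+* K := (algebraMap (d.R ⧸ q) K).comp (Ideal.Quotient.mk q)
  have hφ : ∀ y : d.R, φ y = 0 ↔ y ∈ q := by
    intro y
    have h1 : φ y = algebraMap (d.R ⧸ q) K (Ideal.Quotient.mk q y) := rfl
    rw [h1, map_eq_zero_iff _ (IsFractionRing.injective (d.R ⧸ q) K), Ideal.Quotient.eq_zero_iff_mem]
  have hIn : ∀ y : d.R, d.In q (y : F) ↔ φ y = 0 := by
    intro y
    rw [hφ]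
    exact ⟨fun h => h.2, fun h => ⟨y.2, h⟩⟩
  have hcR : (p : d.R) = 0 := by
    apply Subtype.ext
    push_cast
    exact CharP.cast_eq_zero F p
  have hcK : (p : K) = 0 := by
    rw [← map_natCast φ p, hcR, map_zero]
  have : CharP K p := (CharP.charP_iff_prime_eq_zero hp.1).2 hcK
  -- the field is infinite
  have hinf : Infinite K := by
    rw [← not_finite_iff_infinite]
    intro hfin
    have : Finite (d.R ⧸ q) := Finite.of_injective _ (IsFractionRing.injective (d.R ⧸ q) K)
    have := Fintype.ofFinite (d.R ⧸ q)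
    let rep : (d.R ⧸ q) → d.R := fun y => (Ideal.Quotient.mk_surjective y).choose
    have hrep : ∀ y, Ideal.Quotient.mk q (rep y) = y := fun y =>
      (Ideal.Quotient.mk_surjective y).choose_spec
    let h : (d.R)[X] := ∏ y : (d.R ⧸ q), (X - C (rep y))
    have hmon : h.Monic := monic_prod_of_monic _ _ fun y _ => monic_X_sub_C _
    obtain ⟨r, hr, hr2⟩ := d.exists_eval_not_in hq hk (h := h.map d.R.subtype)
      (fun i => by rw [coeff_map]; exact (h.coeff i).2)
      ⟨h.natDegree, by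
        rw [coeff_map, hmon.coeff_natDegree, map_one]
        exact d.not_in_one hq⟩
    apply hr2
    have e1 : (h.map d.R.subtype).eval r = ((h.eval ⟨r, hr⟩ : d.R) : F) := by
      exact eval_map_apply d.R.subtype (⟨r, hr⟩ : d.R)
    rw [e1, hIn, hφ]
    have e2 : h.eval ⟨r, hr⟩ = ∏ y : (d.R ⧸ q), ((⟨r, hr⟩ : d.R) - rep y) := by
      rw [eval_prod]
      simp
    rw [e2]
    refine Ideal.mem_of_dvd q (Finset.dvd_prod_of_mem _ (Finset.mem_univ
      (Ideal.Quotient.mk q (⟨r, hr⟩ : d.R)))) ?_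
    rw [← Ideal.Quotient.eq_zero_iff_mem, map_sub, hrep, sub_self]
  -- the image of `Al`
  let AlR : Subring d.R := d.Al.comap d.R.subtype
  let T : Subring K := AlR.map φ
  let K' : Subfield K := Subfield.closure (T : Set K)
  have hT : ∀ a : d.R, (a : F) ∈ d.Al → φ a ∈ T := fun a ha => ⟨a, ha, rfl⟩
  have hTK : ∀ y ∈ T, y ∈ K' := fun y hy => Subfield.subset_closure hy
  have hfrac : ∀ y ∈ K', ∃ a a' : d.R, (a : F) ∈ d.Al ∧ (a' : F) ∈ d.Al ∧ φ a ≠ 0 ∧
      y = φ a' / φ a := by
    intro y hy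
    obtain ⟨u, hu, v, hv, e⟩ := (Subfield.mem_closure_iff).1 hy
    rw [Subring.closure_eq] at hu hv
    obtain ⟨a', ha', rfl⟩ := hu
    obtain ⟨a, ha, rfl⟩ := hv
    by_cases h0 : φ a = 0
    · refine ⟨1, 0, d.Al.one_mem, d.Al.zero_mem, ?_, ?_⟩
      · rw [map_one]
        exact one_ne_zero
      · rw [← e, h0, div_zero, map_zero, zero_div]
    · exact ⟨a, a', ha, ha', h0, e.symm⟩
  let g : K[X] := (d.PR).map φ
  let f : K[X] := g.map (iterateFrobenius K p s)
  have hg : g.Monic := d.S3b_monic'.map φ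
  have hf : f.Monic := hg.map _
  have hgd : g.natDegree = d.n := by
    rw [← d.S3b_natDegree']
    exact d.S3b_monic'.natDegree_map φ
  have hfd : f.natDegree = g.natDegree := hg.natDegree_map _
  have h1 : 1 ≤ g.natDegree := by
    rw [hgd]
    exact le_trans (by norm_num) d.hdim
  have hirr : Irreducible g := d.irreducible_mod hq
  have hroot : ∀ y, g.eval y ≠ 0 := by
    intro y hy
    have := degree_eq_one_of_irreducible_of_root hirr (x := y) hy
    have h2 : g.natDegree = 1 := natDegree_eq_of_degree_eq_some this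
    have := d.hdim
    rw [hgd] at h2
    simp only [Dat.n] at h2
    omega
  have hcop : IsCoprime f g := by
    rw [isCoprime_comm]
    refine (EuclideanDomain.dvd_or_coprime g f hirr).resolve_left ?_
    intro hdvd
    have hfg : f = g := eq_of_monic_of_dvd_of_natDegree_le hg hf hdvd hfd.le
    obtain ⟨k, hk⟩ := hk
    apply hk
    have e : d.P.coeff k ^ p ^ s - d.P.coeff k =
        (((d.PR).coeff k ^ p ^ s - (d.PR).coeff k : d.R) : F) := by
      push_cast
      rw [d.S3b_coeff]
    rw [e, hIn, map_sub, map_pow]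
    have e2 : f.coeff k = g.coeff k := by rw [hfg]
    rw [coeff_map, iterateFrobenius_def, coeff_map] at e2
    rw [e2, sub_self]
  have hclear : ∀ (r t : d.R), φ t ≠ 0 → f.eval (φ r / φ t) / g.eval (φ r / φ t) ∈ K' := by
    intro r t ht
    have ht0 : (t : F) ≠ 0 := by
      intro h
      apply ht
      have : t = 0 := Subtype.ext h
      rw [this, map_zero]
    -- in `F`
    have hα : d.f ((r : F) / t) ∈ d.Al := d.f_mem_Al _
    have hP0 : d.P.eval ((r : F) / t) ≠ 0 := d.P_eval_ne _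
    let α : d.R := ⟨d.f ((r : F) / t), d.Al_le_R hα⟩
    let c : ℕ → d.R := fun k => (d.PR).coeff k
    let e1 : d.R := ∑ k ∈ Finset.range (d.n + 1), c k * (r ^ k * t ^ (d.n - k))
    let e2 : d.R := ∑ k ∈ Finset.range (d.n + 1), c k ^ p ^ s * (r ^ k * t ^ (d.n - k))
    have h1' : (e1 : F) = (t : F) ^ d.n * d.P.eval ((r : F) / t) := by
      rw [eval_eq_sum_range' (n := d.n + 1) (by rw [d.S3b_natDegree]; exact Nat.lt_succ_self _),
        S3b_clear _ _ _ _ ht0]
      simp only [e1, c]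
      push_cast
      refine Finset.sum_congr rfl fun k _ => ?_
      rw [d.S3b_coeff]
    have hP'd : d.P'.natDegree < d.n + 1 := by
      refine Nat.lt_succ_of_le ((natDegree_map_le).trans ?_)
      rw [d.S3b_natDegree]
    have h2' : (e2 : F) = (t : F) ^ d.n * d.P'.eval ((r : F) / t) := by
      rw [eval_eq_sum_range' (n := d.n + 1) hP'd, S3b_clear _ _ _ _ ht0]
      simp only [e2, c]
      push_cast
      refine Finset.sum_congr rfl fun k _ => ?_
      rw [d.S3b_coeff, P', coeff_map, iterateFrobenius_def]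
    have h3' : α * e1 = e2 := by
      apply Subtype.ext
      change d.f ((r : F) / t) * (e1 : F) = (e2 : F)
      rw [h1', h2', Dat.f]
      field_simp
    -- in `K`
    have hgc : φ e1 = φ t ^ d.n * g.eval (φ r / φ t) := by
      rw [eval_eq_sum_range' (n := d.n + 1) (by rw [hgd]; exact Nat.lt_succ_self _),
        S3b_clear _ _ _ _ ht]
      simp only [e1, c, map_sum, map_mul, map_pow]
      refine Finset.sum_congr rfl fun k _ => ?_
      rw [coeff_map]
    have hfc : φ e2 = φ t ^ d.n * f.eval (φ r / φ t) := by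
      rw [eval_eq_sum_range' (n := d.n + 1) (by rw [hfd, hgd]; exact Nat.lt_succ_self _),
        S3b_clear _ _ _ _ ht]
      simp only [e2, c, map_sum, map_mul, map_pow]
      refine Finset.sum_congr rfl fun k _ => ?_
      rw [coeff_map, iterateFrobenius_def, coeff_map]
    have h4 : φ α * φ e1 = φ e2 := by rw [← map_mul, h3']
    rw [hgc, hfc] at h4
    have h5 : φ α * g.eval (φ r / φ t) = f.eval (φ r / φ t) := by
      have h6 : φ t ^ d.n ≠ 0 := pow_ne_zero _ ht
      apply mul_left_cancel₀ h6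
      rw [← h4]
      ring
    have h7 : f.eval (φ r / φ t) / g.eval (φ r / φ t) = φ α := by
      rw [← h5, mul_div_cancel_right₀ _ (hroot _)]
    rw [h7]
    exact hTK _ (hT _ hα)
  have H : ∀ y, f.eval y / g.eval y ∈ K' := by
    intro y
    obtain ⟨u, v, hv, e⟩ := IsFractionRing.div_surjective (A := d.R ⧸ q) y
    obtain ⟨r, rfl⟩ := Ideal.Quotient.mk_surjective u
    obtain ⟨t, rfl⟩ := Ideal.Quotient.mk_surjective v
    rw [← e]
    refine hclear r t ?_
    have := IsFractionRing.to_map_ne_zero_of_mem_nonZeroDivisors (K := K) hv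
    exact this
  have hroots : ∀ y : K, y ^ p ^ s ∈ K' → y ∈ K' := by
    intro y hy
    obtain ⟨a, a', ha, ha', h0, e⟩ := hfrac _ hy
    have hpos : 0 < p ^ s := pow_pos hp.1.pos s
    obtain ⟨b, hb⟩ := d.hdiv (p ^ s) hpos (a : F)
    obtain ⟨b', hb'⟩ := d.hdiv (p ^ s) hpos (a' : F)
    have hbA : b ∈ d.Al := d.pow_mem_Al_iff.1 (by rw [hb]; exact ha)
    have hbA' : b' ∈ d.Al := d.pow_mem_Al_iff.1 (by rw [hb']; exact ha')
    have hbR : b ∈ d.R := d.Al_le_R hbA
    have hbR' : b' ∈ d.R := d.Al_le_R hbA'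
    have e1 : φ ⟨b, hbR⟩ ^ p ^ s = φ a := by
      rw [← map_pow]
      congr 1
      exact Subtype.ext hb
    have e2 : φ ⟨b', hbR'⟩ ^ p ^ s = φ a' := by
      rw [← map_pow]
      congr 1
      exact Subtype.ext hb'
    have e3 : y = φ ⟨b', hbR'⟩ / φ ⟨b, hbR⟩ := by
      apply iterateFrobenius_inj K p s
      rw [iterateFrobenius_def, iterateFrobenius_def, div_pow, e1, e2, e]
    rw [e3]
    exact K'.div_mem (hTK _ (hT _ hbA')) (hTK _ (hT _ hbA))
  have htop := RF d.hs K' hroots hf hg hfd h1 hcop hroot H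
  obtain ⟨a, a', ha, ha', h0, e⟩ := hfrac (φ ⟨x, hx⟩) (by rw [htop]; trivial)
  refine ⟨a, ha, a', ha', fun h => h0 ((hIn a).1 h), ?_⟩
  have e2 : (a : F) * x - a' = ((a * ⟨x, hx⟩ - a' : d.R) : F) := rfl
  rw [e2, hIn, map_sub, map_mul, e, mul_comm, div_mul_cancel₀ _ h0, sub_self]

end Dat

end Pool.Agent.LibHG80
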