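import Pool.Agent.LibHG80.RowPrf

/-!
Stable range one, and the values of the minimal polynomial are units.
-/

set_option autoImplicit false

namespace Pool.Agent.LibHG80

open Module Polynomial

namespace Dat

variable {F κ A : Type*} [Field F] [Field κ] [Algebra F κ] [AddCommGroup A] {p s : ℕ}
  [hp : Fact p.Prime] [hc : CharP F p] (d : Dat F κ A p s)

theorem stable_range {x y u v : F} (hx : x ∈ d.R) (hy : y ∈ d.R) (hu : u ∈ d.R) (hv : v ∈ d.R)
    (h : u * x + v * y = 1) : ∃ t ∈ d.R, d.IsU (x + y * t) := by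
  obtain ⟨t, ht, h1, h2⟩ := d.nr.sr d.hdiv' hx hy hu hv h
  refine ⟨t, ht, ?_, ?_, ?_⟩
  · rw [mul_comm y t]; exact h1
  · exact d.R.add_mem hx (d.R.mul_mem hy ht)
  · rw [mul_comm y t]; exact h2

/-- polynomials with coefficients in `R` take values in `R` at elements of `R` -/
theorem eval_mem_R {g : F[X]} (hg : ∀ k, g.coeff k ∈ d.R) {r : F} (hr : r ∈ d.R) :
    g.eval r ∈ d.R := by
  rw [eval_eq_sum_range]
  exact d.R.sum_mem fun k _ => d.R.mul_mem (hg k) (d.R.pow_mem hr k)

/-- `P(r)` is a unit of `R` for `r ∈ R` -/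
theorem P_eval_unit {r : F} (hr : r ∈ d.R) : d.IsU (d.P.eval r) := by
  refine ⟨d.P_eval_ne r, d.eval_mem_R d.coeff_mem_R hr, ?_⟩
  have h := d.pow_div_mem_R r (Nat.zero_le _)
  rwa [pow_zero, one_div] at h

end Dat

end Pool.Agent.LibHG80
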