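import Pool.Agent.LibHG80.RowInf
import Pool.Agent.LibHG80.RowSr

set_option autoImplicit false

namespace Pool.Agent.LibHG80

open Module Polynomial

namespace Dat

variable {F κ A : Type*} [Field F] [Field κ] [Algebra F κ] [AddCommGroup A] {p s : ℕ}
  [hp : Fact p.Prime] [hc : CharP F p] (d : Dat F κ A p s)

/-! ### Row S3c
v' = f(v r) - f(0), r in R: v' = H2(v r) / (P(v r) P(0)), H2 = P'(X) P(0) - P'(0) P(X) = X H3. -/
theorem exists_Al_mul {q : Ideal d.R} (hq : q.IsPrime)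
    (hk : ∃ k, ¬ d.In q (d.P.coeff k ^ p ^ s - d.P.coeff k)) {v : F} (hv : v ∈ d.R)
    (hvq : ¬ d.In q v) : ∃ v' ∈ d.Al, ¬ d.In q v' ∧ ∃ r ∈ d.R, v' = v * r := by
  classical
  have hP'c : ∀ k, d.P'.coeff k = d.P.coeff k ^ p ^ s := by
    intro k
    rw [P', Polynomial.coeff_map, iterateFrobenius_def]
  have hPR : ∀ k, d.P.coeff k ∈ d.R := d.coeff_mem_R
  have hPn : d.P.coeff d.n = 1 := by
    have h1 : d.P.Monic := minpoly.monic d.B.isIntegral_gen
    have h2 : d.P.natDegree = d.n := d.B.natDegree_minpoly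
    rw [← h2]
    exact h1.coeff_natDegree
  set a0 := d.P.coeff 0 with ha0
  have hPe0 : d.P.eval 0 = a0 := by rw [ha0, coeff_zero_eq_eval_zero]
  have hP'e0 : d.P'.eval 0 = a0 ^ p ^ s := by rw [← coeff_zero_eq_eval_zero, hP'c]
  set H2 : F[X] := C a0 * d.P' - C (a0 ^ p ^ s) * d.P with hH2
  have hH2c : ∀ k, H2.coeff k = a0 * d.P.coeff k ^ p ^ s - a0 ^ p ^ s * d.P.coeff k := by
    intro k
    rw [hH2, coeff_sub, coeff_C_mul, coeff_C_mul, hP'c]
  have hH2R : ∀ k, H2.coeff k ∈ d.R := by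
    intro k
    rw [hH2c]
    exact d.R.sub_mem (d.R.mul_mem (hPR 0) (d.R.pow_mem (hPR k) _))
      (d.R.mul_mem (d.R.pow_mem (hPR 0) _) (hPR k))
  have hU0 : d.IsU a0 := by
    have h := d.P_eval_unit d.R.zero_mem
    rwa [hPe0] at h
  have hex : ∃ k, ¬ d.In q (H2.coeff k) := by
    by_contra hcon
    push Not at hcon
    obtain ⟨k, hk⟩ := hk
    apply hk
    have h1 := hcon d.n
    have h2 := hcon k
    rw [hH2c, hPn] at h1
    rw [hH2c] at h2
    have h3 : d.In q (a0 * (d.P.coeff k ^ p ^ s - d.P.coeff k)) := by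
      have h4 := h2.sub (h1.mul_right (hPR k))
      have e : a0 * (d.P.coeff k ^ p ^ s - d.P.coeff k) =
          a0 * d.P.coeff k ^ p ^ s - a0 ^ p ^ s * d.P.coeff k -
            (a0 * 1 ^ p ^ s - a0 ^ p ^ s * 1) * d.P.coeff k := by
        rw [one_pow]
        ring
      rw [e]
      exact h4
    have h5 := h3.mul_left hU0.2.2
    rwa [inv_mul_cancel_left₀ hU0.1] at h5
  obtain ⟨r0, hr0, hr0q⟩ : ∃ r ∈ d.R, ¬ d.In q ((H2.comp (C v * X)).eval r) := by
    refine d.exists_eval_not_in hq hk ?_ ?_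
    · intro i
      rw [comp_C_mul_X_coeff]
      exact d.R.mul_mem (hH2R i) (d.R.pow_mem hv i)
    · obtain ⟨k, hk'⟩ := hex
      refine ⟨k, ?_⟩
      rw [comp_C_mul_X_coeff]
      refine in_prime_not hq (hH2R k) (d.R.pow_mem hv k) hk' ?_
      clear hk'
      induction k with
      | zero => rw [pow_zero]; exact not_in_one hq
      | succ m ih => rw [pow_succ]; exact in_prime_not hq (d.R.pow_mem hv m) hv ih hvq
  have hcomp : (H2.comp (C v * X)).eval r0 = H2.eval (v * r0) := by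
    rw [eval_comp, eval_mul, eval_C, eval_X]
  rw [hcomp] at hr0q
  have hxR : v * r0 ∈ d.R := d.R.mul_mem hv hr0
  have hUx := d.P_eval_unit hxR
  have hval : d.f (v * r0) - d.f 0 = H2.eval (v * r0) * ((d.P.eval (v * r0))⁻¹ * a0⁻¹) := by
    have h1 := hUx.1
    have h2 := hU0.1
    rw [f, f, hPe0, hP'e0, hH2, eval_sub, eval_mul, eval_mul, eval_C, eval_C]
    field_simp
  have hH3 : H2.eval (v * r0) = H2.divX.eval (v * r0) * (v * r0) := by
    have h1 := congrArg (eval (v * r0)) (divX_mul_X_add H2)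
    have h2 : H2.coeff 0 = 0 := by
      rw [hH2c]
      ring
    rw [eval_add, eval_mul, eval_X, eval_C, h2, add_zero] at h1
    exact h1.symm
  have hH3R : H2.divX.eval (v * r0) ∈ d.R := by
    rw [eval_eq_sum_range]
    refine d.R.sum_mem fun i _ => d.R.mul_mem ?_ (d.R.pow_mem hxR i)
    rw [coeff_divX]
    exact hH2R _
  refine ⟨d.f (v * r0) - d.f 0, d.Al.sub_mem (d.f_mem_Al _) (d.f_mem_Al _), ?_, ?_⟩
  · intro hin
    apply hr0q
    have h1 := (hin.mul_right hUx.2.1).mul_right hU0.2.1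
    have e : (d.f (v * r0) - d.f 0) * eval (v * r0) d.P * a0 = H2.eval (v * r0) := by
      have h2 := hUx.1
      have h3 := hU0.1
      rw [hval]
      field_simp
    rwa [e] at h1
  · refine ⟨r0 * H2.divX.eval (v * r0) * ((d.P.eval (v * r0))⁻¹ * a0⁻¹),
      d.R.mul_mem (d.R.mul_mem hr0 hH3R) (d.R.mul_mem hUx.2.2 hU0.2.2), ?_⟩
    rw [hval, hH3]
    ring

end Dat

end Pool.Agent.LibHG80
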