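import Pool.Agent.LibHG80.RowS3a
import Pool.Agent.LibHG80.RowS3b
import Pool.Agent.LibHG80.RowS3c
import Pool.Agent.LibHG80.RowMin

set_option autoImplicit false

namespace Pool.Agent.LibHG80

open Module Polynomial

namespace Dat

variable {F κ A : Type*} [Field F] [Field κ] [Algebra F κ] [AddCommGroup A] {p s : ℕ}
  [hp : Fact p.Prime] [hc : CharP F p] (d : Dat F κ A p s)

/-! ### Row S3d
Suppose a_k^Q - a_k not in UU, q from exists_minimal. For j /= k': u from exists_u, a, a' from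
exists_Al (x = u), y = a u - a' in q, v y in UU, v' = v r from exists_Al_mul: v' y in UU,
v' a' = a v' u - v' y in U j k' and in Al, not in q. The product over all pairs (j, k'), j /= k', is in
every U j k' (Al_mul_U) so in UU, but not in q: contradiction. -/
theorem coeff_sub_mem_UU (k : ℕ) : d.P.coeff k ^ p ^ s - d.P.coeff k ∈ d.UU := by
  classical
  by_contra hcon
  have hR : d.P.coeff k ^ p ^ s - d.P.coeff k ∈ d.R :=
    d.R.sub_mem (d.R.pow_mem (d.coeff_mem_R k) _) (d.coeff_mem_R k)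
  obtain ⟨q, hq, hUq, hkq, hmin⟩ := d.exists_minimal hR hcon
  have hk : ∃ k, ¬ d.In q (d.P.coeff k ^ p ^ s - d.P.coeff k) := ⟨k, hkq⟩
  have key : ∀ j k' : Fin d.n, ∃ t ∈ d.Al, ¬ d.In q t ∧ t ∈ d.U j k' := by
    intro j k'
    by_cases hjk : j = k'
    · exact ⟨1, d.Al.one_mem, not_in_one hq, Or.inl hjk⟩
    obtain ⟨u, hu, huq⟩ := d.exists_u hq hk hjk
    have huR : u ∈ d.R := d.U_le_R hjk hu
    obtain ⟨a, ha, a', ha', haq, hy⟩ := d.exists_Al hq hk huR
    obtain ⟨v, hv, hvq, hvy⟩ := hmin _ hy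
    obtain ⟨v', hv', hv'q, r, hr, hvr⟩ := d.exists_Al_mul hq hk hv hvq
    have ha'q : ¬ d.In q a' := by
      intro h
      have h1 := hy.add h
      rw [sub_add_cancel] at h1
      exact in_prime_not hq (d.Al_le_R ha) huR haq huq h1
    have hv'y : v' * (a * u - a') ∈ d.UU := by
      have h1 := d.mem_R.1 hr _ hvy
      have e : r * (v * (a * u - a')) = v' * (a * u - a') := by rw [hvr]; ring
      rwa [e] at h1
    refine ⟨v' * a', d.Al.mul_mem hv' ha',
      in_prime_not hq (d.Al_le_R hv') (d.Al_le_R ha') hv'q ha'q, ?_⟩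
    have e : v' * a' = (v' * a) * u - v' * (a * u - a') := by ring
    rw [e]
    exact (d.U j k').sub_mem (d.Al_mul_U (d.Al.mul_mem hv' ha) hu) (d.mem_UU.1 hv'y j k')
  choose t htA htq htU using key
  have hprodA : ∀ S : Finset (Fin d.n × Fin d.n), ∏ x ∈ S, t x.1 x.2 ∈ d.Al := fun S =>
    d.Al.prod_mem fun x _ => htA x.1 x.2
  have hprodq : ∀ S : Finset (Fin d.n × Fin d.n), ¬ d.In q (∏ x ∈ S, t x.1 x.2) := by
    intro S
    induction S using Finset.induction_on with
    | empty => rw [Finset.prod_empty]; exact not_in_one hq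
    | insert x S hx ih =>
      rw [Finset.prod_insert hx]
      exact in_prime_not hq (d.Al_le_R (htA x.1 x.2)) (d.Al_le_R (hprodA S)) (htq x.1 x.2) ih
  have hT : ∏ x : Fin d.n × Fin d.n, t x.1 x.2 ∈ d.UU := by
    rw [d.mem_UU]
    intro j k'
    rw [← Finset.prod_erase_mul Finset.univ (fun x : Fin d.n × Fin d.n => t x.1 x.2)
      (Finset.mem_univ (j, k'))]
    exact d.Al_mul_U (hprodA _) (htU j k')
  exact hprodq Finset.univ (hUq _ hT)

end Dat

end Pool.Agent.LibHG80
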