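import Pool.Agent.LibHG80.RowVal
import Pool.Agent.LibHG80.RowS3d
import Pool.Agent.LibG64.Defs

/-!
The function `c` on `F[T]/y` is supported at the places of `y`.
-/

set_option autoImplicit false

namespace Pool.Agent.LibHG80

open Module Polynomial Pool.Agent.LibG64

section norm

variable {F : Type*} [Field F] {Γ : Type*} [LinearOrderedCommGroupWithZero Γ]

lemma nrm_le_iff {v : Valuation F Γ} {g : F[X]} {a : Γ} :
    nrm v g ≤ a ↔ ∀ k, v (g.coeff k) ≤ a := by
  constructor
  · intro h k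
    by_cases hk : g.coeff k = 0
    · rw [hk, map_zero]; exact zero_le
    · exact (Finset.le_sup (f := fun k => v (g.coeff k)) (mem_support_iff.2 hk)).trans h
  · intro h
    exact Finset.sup_le fun k _ => h k

lemma le_nrm (v : Valuation F Γ) (g : F[X]) (k : ℕ) : v (g.coeff k) ≤ nrm v g :=
  nrm_le_iff.1 le_rfl k

lemma exists_nrm_eq (v : Valuation F Γ) (g : F[X]) : ∃ k, v (g.coeff k) = nrm v g := by
  by_cases hg : g = 0
  · refine ⟨0, ?_⟩
    subst hg
    rw [coeff_zero, map_zero, nrm, support_zero, Finset.sup_empty]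
    exact bot_eq_zero.symm
  · obtain ⟨k, _, hk⟩ := Finset.exists_mem_eq_sup g.support
      (Polynomial.nonempty_support_iff.2 hg) (fun k => v (g.coeff k))
    exact ⟨k, hk.symm⟩

lemma nrm_lt_iff {v : Valuation F Γ} {g : F[X]} {a : Γ} :
    nrm v g < a ↔ ∀ k, v (g.coeff k) < a := by
  constructor
  · intro h k
    exact (le_nrm v g k).trans_lt h
  · intro h
    obtain ⟨k, hk⟩ := exists_nrm_eq v g
    rw [← hk]; exact h k

end norm

section adjoin

variable {F : Type*} [Field F] {y : F[X]}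

lemma mbm_degree_lt (hy : y.Monic) (x : AdjoinRoot y) :
    (AdjoinRoot.modByMonicHom hy x).degree < y.degree := by
  obtain ⟨f, rfl⟩ := AdjoinRoot.mk_surjective x
  rw [AdjoinRoot.modByMonicHom_mk]
  exact degree_modByMonic_lt _ hy

lemma coord_pb (hy : y.Monic) (i : Fin (AdjoinRoot.powerBasis' hy).dim) (x : AdjoinRoot y) :
    (AdjoinRoot.powerBasis' hy).basis.coord i x = (AdjoinRoot.modByMonicHom hy x).coeff i := rfl

lemma mbm_eq_zero (hy : y.Monic) {x : AdjoinRoot y} :
    AdjoinRoot.modByMonicHom hy x = 0 ↔ x = 0 := by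
  constructor
  · intro h
    rw [← AdjoinRoot.mk_leftInverse hy x, h, map_zero]
  · rintro rfl
    exact map_zero _

lemma mbm_ext (hy : y.Monic) {f : F[X]} {x : AdjoinRoot y} (hf : f.degree < y.degree)
    (h : AdjoinRoot.mk y f = x) : AdjoinRoot.modByMonicHom hy x = f := by
  rw [← h, AdjoinRoot.modByMonicHom_mk, (modByMonic_eq_self_iff hy).2 hf]

lemma mbm_fr [Fact (Irreducible y)] (hy : y.Monic) {σ : F →+* F} {q : ℕ} (hσ : ∀ x, σ x = x ^ q) (x : AdjoinRoot y) :
    AdjoinRoot.modByMonicHom hy (fr (AdjoinRoot.powerBasis' hy) q x) =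
      (AdjoinRoot.modByMonicHom hy x).map σ := by
  refine mbm_ext hy ((degree_map_le).trans_lt (mbm_degree_lt hy x)) ?_
  have h1 : (AdjoinRoot.modByMonicHom hy x).map σ =
      ∑ i : Fin y.natDegree, C ((AdjoinRoot.modByMonicHom hy x).coeff i ^ q) * X ^ (i : ℕ) := by
    ext k
    rw [coeff_map, hσ]
    simp only [finsetSum_coeff, coeff_C_mul, coeff_X_pow]
    by_cases hk : k < y.natDegree
    · rw [Finset.sum_eq_single ⟨k, hk⟩]
      · simp
      · intro b _ hb
        rw [if_neg, mul_zero]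
        intro h
        exact hb (Fin.ext h.symm)
      · intro h
        exact absurd (Finset.mem_univ _) h
    · rw [Finset.sum_eq_zero]
      · rw [coeff_eq_zero_of_degree_lt, ← hσ, map_zero]
        refine (mbm_degree_lt hy x).trans_le ?_
        rw [degree_eq_natDegree hy.ne_zero]
        exact_mod_cast not_lt.1 hk
      · intro i _
        rw [if_neg, mul_zero]
        intro h
        exact hk (h ▸ i.2)
  rw [h1, map_sum]
  unfold fr
  refine Finset.sum_congr rfl fun i _ => ?_
  change _ = ((AdjoinRoot.modByMonicHom hy x).coeff i ^ q) • AdjoinRoot.root y ^ (i : ℕ)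
  rw [map_mul, AdjoinRoot.mk_C, map_pow (AdjoinRoot.mk y) X, AdjoinRoot.mk_X, Algebra.smul_def]
  rfl

end adjoin

/-- The data attached to a multiplicative function on the polynomials modulo `y`. -/
noncomputable def datOf {F : Type*} [Field F] {A : Type*} [AddCommGroup A] {p m : ℕ}
    [Fact p.Prime] [CharP F p] (hm : m ≠ 0) (hdiv : LibG64.Div F) {σ : F →+* F}
    (hσ : ∀ x, σ x = x ^ p ^ m) {y : F[X]} [Fact (Irreducible y)] (hy : y.Monic)
    (hn : 3 ≤ y.natDegree) (hne : y.map σ ≠ y) (hA : ∀ a : A, p ^ m • a = 0 → a = 0)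
    (c : F[X] → A)
    (hmul : ∀ f ∈ W F y.natDegree, ∀ g ∈ W F y.natDegree, c ((f * g) %ₘ y) = c f + c g)
    (hconst : ∀ a : F, a ≠ 0 → c (C a) = 0)
    (hfrob : ∀ f ∈ W F y.natDegree, c (f.map σ) = p ^ m • c f) :
    Dat F (AdjoinRoot y) A p m where
  B := AdjoinRoot.powerBasis' hy
  hs := hm
  hdim := hn
  hdiv := fun k hk a => hdiv k hk a
  c := fun x => c (AdjoinRoot.modByMonicHom hy x)
  c_mul := by
    intro x x' hx hx'
    have hw : ∀ x : AdjoinRoot y, x ≠ 0 → AdjoinRoot.modByMonicHom hy x ∈ W F y.natDegree := by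
      intro x hx
      refine ⟨fun h => hx ((mbm_eq_zero hy).1 h), ?_⟩
      rw [← degree_eq_natDegree hy.ne_zero]
      exact mbm_degree_lt hy x
    rw [← hmul _ (hw x hx) _ (hw x' hx')]
    congr 1
    refine mbm_ext hy (degree_modByMonic_lt _ hy) ?_
    have : AdjoinRoot.mk y ((AdjoinRoot.modByMonicHom hy x * AdjoinRoot.modByMonicHom hy x') %ₘ y)
        = AdjoinRoot.mk y (AdjoinRoot.modByMonicHom hy x * AdjoinRoot.modByMonicHom hy x') := by
      rw [← AdjoinRoot.modByMonicHom_mk hy]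
      exact AdjoinRoot.mk_leftInverse hy _
    rw [this, map_mul, AdjoinRoot.mk_leftInverse hy, AdjoinRoot.mk_leftInverse hy]
  c_alg := by
    intro a ha
    rw [← hconst a ha]
    congr 1
    refine mbm_ext hy ?_ rfl
    rw [degree_C ha, degree_eq_natDegree hy.ne_zero]
    exact_mod_cast (by omega : 0 < y.natDegree)
  u := AddMonoidHom.mk' (fun a => p ^ m • a) fun a b => smul_add _ _ _
  hu := by
    rw [injective_iff_map_eq_zero]
    exact hA
  c_fr := by
    intro x hx
    rw [mbm_fr hy hσ]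
    refine hfrob _ ⟨fun h => hx ((mbm_eq_zero hy).1 h), ?_⟩
    rw [← degree_eq_natDegree hy.ne_zero]
    exact mbm_degree_lt hy x
  hnc := by
    have h : minpoly F (AdjoinRoot.powerBasis' hy).gen = y := by
      change minpoly F (AdjoinRoot.root y) = y
      rw [AdjoinRoot.minpoly_root hy.ne_zero, hy.leadingCoeff, inv_one, C_1, mul_one]
    rw [h]
    by_contra hcon
    push Not at hcon
    refine hne ?_
    ext k
    rw [coeff_map, hσ]
    exact hcon k

section final

variable {F : Type*} [Field F] {A : Type*} [AddCommGroup A] {p m : ℕ} [Fact p.Prime] [CharP F p]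

/-- HG for polynomials. -/
theorem supp_of (hm : m ≠ 0) (hdiv : LibG64.Div F) {σ : F →+* F} (hσ : ∀ x, σ x = x ^ p ^ m)
    {n : ℕ} (hn : 3 ≤ n) {y : F[X]} (hy : Mon n y) (hirr : Irreducible y) (hne : y.map σ ≠ y)
    (hA : ∀ a : A, p ^ m • a = 0 → a = 0) (c : F[X] → A)
    (hmul : ∀ f ∈ W F n, ∀ g ∈ W F n, c ((f * g) %ₘ y) = c f + c g)
    (hconst : ∀ a : F, a ≠ 0 → c (C a) = 0)
    (hfrob : ∀ f ∈ W F n, c (f.map σ) = p ^ m • c f) : Supp (Pl σ y) n c := by
  obtain ⟨hy1, hy2⟩ := hy
  subst hy2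
  have : Fact (Irreducible y) := ⟨hirr⟩
  set d := datOf hm hdiv hσ hy1 hn hne hA c hmul hconst hfrob with hd
  have hdeg : ((y.natDegree : ℕ) : WithBot ℕ) = y.degree := (degree_eq_natDegree hy1.ne_zero).symm
  have hP : d.P = y := by
    change minpoly F (AdjoinRoot.root y) = y
    rw [AdjoinRoot.minpoly_root hy1.ne_zero, hy1.leadingCoeff, inv_one, C_1, mul_one]
  have hco : ∀ (f : F[X]), f.degree < y.degree → ∀ k : Fin d.n,
      d.co k (AdjoinRoot.mk y f) = f.coeff k := by
    intro f hf k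
    change (AdjoinRoot.modByMonicHom hy1 (AdjoinRoot.mk y f)).coeff k = _
    rw [mbm_ext hy1 hf rfl]
  have hc0 : ∀ (f : F[X]), f.degree < y.degree → d.c (AdjoinRoot.mk y f) = c f := by
    intro f hf
    change c (AdjoinRoot.modByMonicHom hy1 (AdjoinRoot.mk y f)) = _
    rw [mbm_ext hy1 hf rfl]
  have hmk : ∀ (f : F[X]), f ≠ 0 → f.degree < y.degree → AdjoinRoot.mk y f ≠ 0 := by
    intro f hf hf' h
    rw [← mbm_eq_zero hy1, mbm_ext hy1 hf' rfl] at h
    exact hf h
  have hnrm : ∀ (O : ValuationSubring F) (f : F[X]), f.degree < y.degree →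
      nrm O.valuation f = d.nm O (AdjoinRoot.mk y f) := by
    intro O f hf
    refine le_antisymm ?_ ?_
    · rw [nrm_le_iff]
      intro k
      by_cases hk : k < y.natDegree
      · have := d.le_nm O (AdjoinRoot.mk y f) ⟨k, hk⟩
        rwa [hco f hf] at this
      · rw [coeff_eq_zero_of_degree_lt, map_zero]
        · exact zero_le
        · refine hf.trans_le ?_
          rw [← hdeg]
          exact_mod_cast not_lt.1 hk
    · rw [d.nm_le_iff]
      intro k
      rw [hco f hf]
      exact le_nrm _ _ _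
  -- a place over `R` and `UU` is a place of `y`
  have key : ∀ O : ValuationSubring F, (∀ x ∈ d.R, x ∈ O) → (∀ t ∈ d.UU, O.valuation t < 1) →
      O ∈ Pl σ y := by
    intro O hR hU
    refine ⟨?_, ?_, ?_⟩
    · rw [nrm_le_iff]
      intro k
      rw [← hP]
      exact (O.valuation_le_one_iff _).2 (hR _ (d.coeff_mem_R k))
    · rw [nrm_lt_iff]
      intro k
      rw [coeff_sub, coeff_map, hσ, ← neg_sub, Valuation.map_neg]
      have := hU _ (d.coeff_sub_mem_UU k)
      rwa [hP] at this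
    · intro f g hf hg
      have hfg : AdjoinRoot.mk y ((f * g) %ₘ y) = AdjoinRoot.mk y f * AdjoinRoot.mk y g := by
        rw [← map_mul, ← AdjoinRoot.modByMonicHom_mk hy1]
        exact AdjoinRoot.mk_leftInverse hy1 _
      rw [hnrm O f hf, hnrm O g hg, hnrm O _ (degree_modByMonic_lt _ hy1), hfg,
        d.nm_mul O hR]
  intro f hf g hg hfg
  have hfd : f.degree < y.degree := hdeg ▸ hf.2
  have hgd : g.degree < y.degree := hdeg ▸ hg.2
  rw [← hc0 f hfd, ← hc0 g hgd]
  refine (d.hgR (hmk g hg.1 hgd) (hmk f hf.1 hfd) fun O hR hU => ?_).symm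
  obtain ⟨a, ha⟩ := hfg O (key O hR hU)
  refine ⟨a, ?_⟩
  have h3 : AdjoinRoot.mk y f - a • AdjoinRoot.mk y g = AdjoinRoot.mk y (f - C a * g) := by
    rw [map_sub, map_mul, AdjoinRoot.mk_C, Algebra.smul_def]
    rfl
  have h4 : (f - C a * g).degree < y.degree := by
    refine (degree_sub_le _ _).trans_lt (max_lt hfd ?_)
    refine (degree_mul_le _ _).trans_lt ?_
    by_cases ha0 : a = 0
    · rw [ha0, C_0, degree_zero, WithBot.bot_add]
      exact bot_lt_of_lt hgd
    · rw [degree_C ha0, zero_add]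
      exact hgd
  rw [h3, ← hnrm O _ h4, ← hnrm O _ hfd]
  exact ha

end final

end Pool.Agent.LibHG80
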