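import Mathlib

/-!
Functions on a vector space which are preserved by rank one perturbations of the identity.
-/

set_option autoImplicit false

namespace Pool.Agent.LibHG80

open Module

variable {F V A : Type*} [Field F] [AddCommGroup V] [Module F V]

/-- The rank one perturbation `x ↦ x + φ x • w` of the identity is invertible and preserves `c`. -/
def Pr (c : V → A) (w : V) (φ : V →ₗ[F] F) : Prop :=
  1 + φ w ≠ 0 ∧ ∀ x, x ≠ 0 → c (x + φ x • w) = c x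

/-- The transvection `x ↦ x + φ x • w`, `φ w = 0`, preserves `c`. -/
def Tv (c : V → A) (w : V) (φ : V →ₗ[F] F) : Prop :=
  φ w = 0 ∧ ∀ x, x ≠ 0 → c (x + φ x • w) = c x

variable {c : V → A}

lemma Tv.pr {w : V} {φ : V →ₗ[F] F} (h : Tv c w φ) : Pr c w φ :=
  ⟨by rw [h.1, add_zero]; exact one_ne_zero, h.2⟩

lemma ne_zero_of_inv {w : V} {φ : V →ₗ[F] F} (h : 1 + φ w ≠ 0) {x : V} (hx : x ≠ 0) :
    x + φ x • w ≠ 0 := by
  intro h0
  have h1 : φ (x + φ x • w) = 0 := by rw [h0, map_zero]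
  have h2 : φ x * (1 + φ w) = 0 := by
    rw [map_add, map_smul, smul_eq_mul] at h1
    rw [← h1]; ring
  have h3 : φ x = 0 := (mul_eq_zero.1 h2).resolve_right h
  rw [h3, zero_smul, add_zero] at h0
  exact hx h0

lemma Tv.zero (w : V) : Tv c w (0 : V →ₗ[F] F) := by
  refine ⟨rfl, fun x _ => ?_⟩
  simp

lemma Tv.add {w : V} {φ ψ : V →ₗ[F] F} (h : Tv c w φ) (h' : Tv c w ψ) : Tv c w (φ + ψ) := by
  refine ⟨by simp [h.1, h'.1], fun x hx => ?_⟩
  have h1 := h.2 (x + ψ x • w) (ne_zero_of_inv h'.pr.1 hx)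
  rw [h'.2 x hx] at h1
  rw [← h1, map_add, map_smul, h.1, smul_zero, add_zero, LinearMap.add_apply, add_smul]
  congr 1
  abel

lemma Tv.neg {w : V} {φ : V →ₗ[F] F} (h : Tv c w φ) : Tv c w (-φ) := by
  refine ⟨by simp [h.1], fun x hx => ?_⟩
  have hne : x + (-φ) x • w ≠ 0 := ne_zero_of_inv (by simp [h.1]) hx
  have h1 := h.2 (x + (-φ) x • w) hne
  rw [← h1]
  simp [h.1]

lemma Tv.add_left {w w' : V} {φ : V →ₗ[F] F} (h : Tv c w φ) (h' : Tv c w' φ) :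
    Tv c (w + w') φ := by
  refine ⟨by simp [h.1, h'.1], fun x hx => ?_⟩
  have h1 := h.2 (x + φ x • w') (ne_zero_of_inv h'.pr.1 hx)
  rw [h'.2 x hx] at h1
  rw [← h1, map_add, map_smul, h'.1, smul_zero, add_zero, smul_add]
  congr 1
  abel

/-- The scalar may be moved from one side to the other. -/
lemma Tv.smul_iff {w : V} {φ : V →ₗ[F] F} {a : F} (ha : a ≠ 0) :
    Tv c (a • w) φ ↔ Tv c w (a • φ) := by
  constructor
  · rintro ⟨h1, h2⟩
    refine ⟨?_, fun x hx => ?_⟩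
    · rw [map_smul, smul_eq_mul] at h1
      simpa [ha] using h1
    · rw [← h2 x hx, LinearMap.smul_apply, smul_eq_mul, smul_smul, mul_comm]
  · rintro ⟨h1, h2⟩
    refine ⟨?_, fun x hx => ?_⟩
    · rw [LinearMap.smul_apply, smul_eq_mul] at h1
      rw [map_smul, smul_eq_mul, h1]
    · rw [← h2 x hx, LinearMap.smul_apply, smul_eq_mul, smul_smul, mul_comm]

lemma Pr.inv {w : V} {φ : V →ₗ[F] F} (h : Pr c w φ) :
    Pr c w (-(1 + φ w)⁻¹ • φ) := by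
  have hw := h.1
  have e1 : 1 + (-(1 + φ w)⁻¹ • φ) w = (1 + φ w)⁻¹ := by
    rw [LinearMap.smul_apply, smul_eq_mul]
    field_simp
    ring
  have hne : 1 + (-(1 + φ w)⁻¹ • φ) w ≠ 0 := by
    rw [e1]; exact inv_ne_zero hw
  refine ⟨hne, fun x hx => ?_⟩
  have h1 := h.2 (x + (-(1 + φ w)⁻¹ • φ) x • w) (ne_zero_of_inv hne hx)
  rw [← h1]
  congr 1
  rw [map_add, map_smul, LinearMap.smul_apply, smul_eq_mul, smul_eq_mul, add_assoc, ← add_smul]
  have : -(1 + φ w)⁻¹ * φ x + (φ x + -(1 + φ w)⁻¹ * φ x * φ w) = 0 := by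
    field_simp
    ring
  rw [this, zero_smul, add_zero]

/-- The commutator of two perturbations. -/
lemma comm_rel {w₁ w₂ : V} {φ₁ φ₂ : V →ₗ[F] F} (h₁ : Pr c w₁ φ₁) (h₂ : Pr c w₂ φ₂)
    (h : φ₁ w₂ = 0) : Tv c w₂ ((-((1 + φ₁ w₁)⁻¹ * φ₂ w₁)) • φ₁) := by
  refine ⟨by simp [h], fun x hx => ?_⟩
  -- `x = g₂ y`, `y = g₁ z`, ...
  set μ := (1 + φ₁ w₁)⁻¹ with hμ
  set ν := (1 + φ₂ w₂)⁻¹ with hν
  have hw₁ := h₁.1
  have hw₂ := h₂.1
  -- g₂⁻¹ x
  set y : V := x + (-ν • φ₂) x • w₂ with hy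
  have hy0 : y ≠ 0 := ne_zero_of_inv h₂.inv.1 hx
  have cy : c y = c x := h₂.inv.2 x hx
  -- g₁⁻¹ y
  set z : V := y + (-μ • φ₁) y • w₁ with hz
  have hz0 : z ≠ 0 := ne_zero_of_inv h₁.inv.1 hy0
  have cz : c z = c y := h₁.inv.2 y hy0
  -- g₂ z
  set t : V := z + φ₂ z • w₂ with ht
  have ht0 : t ≠ 0 := ne_zero_of_inv h₂.1 hz0
  have ct : c t = c z := h₂.2 z hz0
  have cs : c (t + φ₁ t • w₁) = c t := h₁.2 t ht0
  rw [← cy, ← cz, ← ct, ← cs]
  congr 1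
  have e1 : φ₁ y = φ₁ x := by
    rw [hy, map_add, map_smul, h, smul_zero, add_zero]
  have e2 : φ₁ z = μ * φ₁ x := by
    rw [hz, map_add, map_smul, LinearMap.smul_apply, e1, smul_eq_mul, smul_eq_mul]
    rw [hμ]; field_simp; ring
  have e3 : φ₁ t = μ * φ₁ x := by
    rw [ht, map_add, map_smul, h, smul_zero, add_zero, e2]
  have e4 : φ₂ y = ν * φ₂ x := by
    rw [hy, map_add, map_smul, LinearMap.smul_apply, smul_eq_mul, smul_eq_mul]
    rw [hν]; field_simp; ring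
  have e5 : φ₂ z = ν * φ₂ x - μ * φ₁ x * φ₂ w₁ := by
    rw [hz, map_add, map_smul, LinearMap.smul_apply, e1, e4, smul_eq_mul, smul_eq_mul]
    ring
  rw [e3, ht, e5, hz, LinearMap.smul_apply, LinearMap.smul_apply, e1, hy, LinearMap.smul_apply]
  simp only [smul_eq_mul]
  module

/-- Conjugation by a map which changes `c` by a constant. -/
lemma Pr.conj [AddCommGroup A] {w : V} {φ : V →ₗ[F] F} (h : Pr c w φ) (e : V ≃ₗ[F] V) (a : A)
    (he : ∀ x, x ≠ 0 → c (e x) = c x + a) : Pr c (e w) (φ ∘ₗ e.symm.toLinearMap) := by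
  refine ⟨by simpa using h.1, fun x hx => ?_⟩
  have hx' : e.symm x ≠ 0 := by simpa using hx
  have h1 := h.2 _ hx'
  have h2 := he _ hx'
  rw [LinearEquiv.apply_symm_apply] at h2
  rw [h2, ← h1, ← he _ (ne_zero_of_inv h.1 hx')]
  congr 1
  simp

lemma Tv.conj [AddCommGroup A] {w : V} {φ : V →ₗ[F] F} (h : Tv c w φ) (e : V ≃ₗ[F] V) (a : A)
    (he : ∀ x, x ≠ 0 → c (e x) = c x + a) : Tv c (e w) (φ ∘ₗ e.symm.toLinearMap) :=
  ⟨by simpa using h.1, (h.pr.conj e a he).2⟩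

end Pool.Agent.LibHG80
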