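import Pool.Agent.LibHG80.Iface57

/-!
Integral and primitive vectors, membership in ideals of the multiplier ring.
-/

set_option autoImplicit false

namespace Pool.Agent.LibHG80

open Module Polynomial

namespace Dat

variable {F κ A : Type*} [Field F] [Field κ] [Algebra F κ] [AddCommGroup A] {p s : ℕ}
  [hp : Fact p.Prime] [hc : CharP F p] (d : Dat F κ A p s)

/-- Units of the ring `R`. -/
def IsU (x : F) : Prop := x ≠ 0 ∧ x ∈ d.R ∧ x⁻¹ ∈ d.R

/-- Elements of `κ` with coordinates in `R`. -/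
def OO (x : κ) : Prop := ∀ i, d.co i x ∈ d.R

/-- Primitive vectors: the coordinates lie in `R` and generate the unit ideal. -/
def Prim (x : κ) : Prop := d.OO x ∧ ∃ u : Fin d.n → F, (∀ i, u i ∈ d.R) ∧ ∑ i, u i * d.co i x = 1

/-- An element of `F` lies in the ideal `q` of `R`. -/
def In (q : Ideal d.R) (x : F) : Prop := ∃ h : x ∈ d.R, (⟨x, h⟩ : d.R) ∈ q

/-- The ideal `UU` of `R`. -/
def UI : Ideal d.R where
  carrier := {x | (x : F) ∈ d.UU}
  add_mem' := fun {a b} ha hb => d.UU.add_mem ha hb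
  zero_mem' := d.UU.zero_mem
  smul_mem' := fun r x hx => r.2 x hx

/-- The minimal polynomial has coefficients in `R`. -/
noncomputable def PR : (d.R)[X] := ∑ k ∈ Finset.range (d.n + 1),
  monomial k (⟨d.P.coeff k, d.coeff_mem_R k⟩ : d.R)

section

variable {d} {q : Ideal d.R} {x y : F}

omit hp hc in
lemma In.mem (h : d.In q x) : x ∈ d.R := h.1

omit hp hc in
lemma in_zero : d.In q 0 := ⟨d.R.zero_mem, q.zero_mem⟩

omit hp hc in
lemma In.add (hx : d.In q x) (hy : d.In q y) : d.In q (x + y) :=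
  ⟨d.R.add_mem hx.1 hy.1, q.add_mem hx.2 hy.2⟩

omit hp hc in
lemma In.neg (hx : d.In q x) : d.In q (-x) :=
  ⟨d.R.neg_mem hx.1, q.neg_mem hx.2⟩

omit hp hc in
lemma In.sub (hx : d.In q x) (hy : d.In q y) : d.In q (x - y) := by
  rw [sub_eq_add_neg]
  exact hx.add hy.neg

omit hp hc in
lemma In.mul_left (hy : y ∈ d.R) (hx : d.In q x) : d.In q (y * x) :=
  ⟨d.R.mul_mem hy hx.1, q.mul_mem_left ⟨y, hy⟩ hx.2⟩

omit hp hc in
lemma In.mul_right (hx : d.In q x) (hy : y ∈ d.R) : d.In q (x * y) := by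
  rw [mul_comm]
  exact hx.mul_left hy

omit hp hc in
lemma In.sum {ι : Type*} {S : Finset ι} {f : ι → F} (h : ∀ i ∈ S, d.In q (f i)) :
    d.In q (∑ i ∈ S, f i) := by
  classical
  induction S using Finset.induction_on with
  | empty => simpa using in_zero
  | insert a S ha ih =>
    rw [Finset.sum_insert ha]
    exact (h a (Finset.mem_insert_self a S)).add (ih fun i hi => h i (Finset.mem_insert_of_mem hi))

omit hp hc in
lemma not_in_one (hq : q.IsPrime) : ¬ d.In q 1 := by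
  rintro ⟨h, h1⟩
  exact hq.ne_top ((Ideal.eq_top_iff_one q).2 h1)

omit hp hc in
lemma in_prime (hq : q.IsPrime) (hx : x ∈ d.R) (hy : y ∈ d.R) (h : d.In q (x * y)) :
    d.In q x ∨ d.In q y := by
  obtain ⟨h1, h2⟩ := h
  have h3 : (⟨x, hx⟩ : d.R) * ⟨y, hy⟩ ∈ q := h2
  rcases hq.mem_or_mem h3 with h4 | h4
  · exact Or.inl ⟨hx, h4⟩
  · exact Or.inr ⟨hy, h4⟩

omit hp hc in
lemma in_prime_not (hq : q.IsPrime) (hx : x ∈ d.R) (hy : y ∈ d.R) (h1 : ¬ d.In q x)
    (h2 : ¬ d.In q y) : ¬ d.In q (x * y) := fun h => (in_prime hq hx hy h).elim h1 h2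

end

end Dat

end Pool.Agent.LibHG80
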