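import Pool.Agent.LibHG80.Fra

/-!
ROW X0. Extraction with a zero. ROW CO. The coefficients of `P`.
-/

set_option autoImplicit false

namespace Pool.Agent.LibHG80.Dat

open Module Polynomial

variable {F κ A : Type*} [Field F] [Field κ] [Algebra F κ] [AddCommGroup A] {p s : ℕ}
  [hp : Fact p.Prime] [hc : CharP F p] (d : Dat F κ A p s)

/-- (X0). For `e ≠ a`: `comm_tv` for `(w, t φ)` and `(b a, t co c)` gives `(b a, t t (co c w) φ)`;
then `comm_tv` for `(b e, t co k)`, `k ≠ a, e`, and this gives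
`t ^ 3 * (co c w) * φ (b e) ∈ U a k`; `mem_R_of`. -/
theorem X0 {w : κ} {φ : κ →ₗ[F] F} (h : ∀ t ∈ d.UU, Tv d.c w (t • φ)) {a c : Fin d.n}
    (ha : φ (d.b a) = 0) (hca : c ≠ a) (e : Fin d.n) : d.co c w * φ (d.b e) ∈ d.R := by
  by_cases hea : e = a
  · rw [hea, ha, mul_zero]
    exact zero_mem _
  -- the third index
  obtain ⟨k, hka, hke⟩ : ∃ k : Fin d.n, k ≠ a ∧ k ≠ e := by
    by_contra hcon
    push Not at hcon
    have h1 : (Finset.univ : Finset (Fin d.n)) ⊆ {a, e} := by
      intro k _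
      by_cases hk : k = a
      · simp [hk]
      · simp [hcon k hk]
    have h2 := Finset.card_le_card h1
    have h3 : ({a, e} : Finset (Fin d.n)).card ≤ 2 := Finset.card_le_two
    rw [Finset.card_univ, Fintype.card_fin] at h2
    have h4 := d.hdim
    change 3 ≤ d.n at h4
    omega
  refine d.mem_R_of hka.symm 3 fun t ht => ?_
  have h1 : Tv d.c (d.b a) (t • d.co c) := (d.mem_UU'.1 ht) a c hca.symm
  have h2 : Tv d.c (d.b a) ((t • d.co c) w • (t • φ)) :=
    d.comm_tv (h t ht) h1 (by rw [LinearMap.smul_apply, ha, smul_zero])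
  have h3 : Tv d.c (d.b e) (t • d.co k) := (d.mem_UU'.1 ht) e k hke.symm
  have h4 := d.comm_tv h3 h2 (by rw [LinearMap.smul_apply, d.co_b, if_neg hka, smul_zero])
  rw [d.mem_U hka.symm]
  convert h4 using 1
  rw [smul_smul]
  congr 1
  simp only [LinearMap.smul_apply, smul_eq_mul]
  ring

/-- (X0) for `z⁻¹ * b j` and `co k ∘ z`. -/
lemma X0' {j k : Fin d.n} (hjk : j ≠ k) {y : κ} (hy : y ≠ 0) {a c : Fin d.n}
    (ha : d.co k (y * d.b a) = 0) (hca : c ≠ a) (e : Fin d.n) :
    d.co c (y⁻¹ * d.b j) * d.co k (y * d.b e) ∈ d.R := by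
  have h := d.X0 (w := y⁻¹ * d.b j) (φ := tw (d.co k) y)
    (fun t ht => d.conj_U hjk (d.mem_UU.1 ht j k) hy) (a := a) (c := c)
    (by rw [tw_apply]; exact ha) hca e
  rwa [tw_apply] at h

omit hp hc in
/-- The coordinates of `ρ * b i`. -/
lemma co_rho_b (i k : Fin d.n) : d.co k (d.ρ * d.b i) =
    if i = d.last then -(d.P.coeff k) else if (k : ℕ) = i + 1 then 1 else 0 := by
  have hn : 3 ≤ d.n := d.hdim
  have hb : d.ρ * d.b i = d.ρ ^ ((i : ℕ) + 1) := by
    rw [pow_succ, mul_comm]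
  by_cases hi : i = d.last
  · rw [if_pos hi, hb]
    have hi' : (i : ℕ) + 1 = d.n := by
      rw [hi]
      change d.n - 1 + 1 = d.n
      omega
    have hdeg : (X ^ d.n - d.P).natDegree < d.n := by
      have h0 : (X ^ d.n - d.P) = X ^ d.n - d.P := rfl
      by_cases hz : (X ^ d.n - d.P) = 0
      · rw [hz, natDegree_zero]
        omega
      · have hdd : (X ^ d.n - d.P).degree < (X ^ d.n : F[X]).degree := by
          apply degree_sub_lt_left
          · rw [degree_X_pow, degree_eq_natDegree d.P_monic.ne_zero, d.P_natDegree]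
          · exact pow_ne_zero _ X_ne_zero
          · rw [d.P_monic.leadingCoeff, leadingCoeff_X_pow]
        rw [degree_X_pow, degree_eq_natDegree hz] at hdd
        exact_mod_cast hdd
    have he : d.ρ ^ ((i : ℕ) + 1) = aeval d.ρ (X ^ d.n - d.P) := by
      rw [map_sub, d.P_aeval, sub_zero, map_pow, aeval_X, hi']
    rw [he, d.co_aeval _ hdeg, coeff_sub, coeff_X_pow, if_neg (by have := k.2; omega), zero_sub]
  · rw [if_neg hi, hb]
    have hi' : (i : ℕ) + 1 < d.n := by
      have h1 := i.2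
      have h2 : (i : ℕ) ≠ d.n - 1 := fun h => hi (Fin.ext h)
      omega
    have he : d.ρ ^ ((i : ℕ) + 1) = aeval d.ρ (X ^ ((i : ℕ) + 1) : F[X]) := by
      rw [map_pow, aeval_X]
    rw [he, d.co_aeval _ (by rw [natDegree_X_pow]; exact hi'), coeff_X_pow]

/-- `0`, `1` as indices. -/
private def i0 : Fin d.n := ⟨0, Nat.lt_of_lt_of_le (by norm_num) d.hdim⟩

private def i1 : Fin d.n := ⟨1, Nat.lt_of_lt_of_le (by norm_num) d.hdim⟩

omit hp hc in
private lemma i0_ne_i1 : d.i0 ≠ d.i1 := by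
  intro h
  have := congrArg Fin.val h
  simp [i0, i1] at this

omit hp hc in
private lemma i0_ne_last : d.i0 ≠ d.last := by
  intro h
  have h1 := congrArg Fin.val h
  have h2 := d.hdim
  change 0 = d.B.dim - 1 at h1
  omega

omit hp hc in
private lemma i1_ne_last : d.i1 ≠ d.last := by
  intro h
  have h1 := congrArg Fin.val h
  have h2 := d.hdim
  change 1 = d.B.dim - 1 at h1
  omega

omit hp hc in
private lemma b_i0 : d.b d.i0 = 1 := by
  change d.ρ ^ 0 = 1
  exact pow_zero _

omit hp hc in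
private lemma coeff_n : d.P.coeff d.n = 1 := by
  have h := d.P_monic.coeff_natDegree
  rwa [d.P_natDegree] at h

omit hp hc in
private lemma co_last_inv : d.co d.last (d.ρ⁻¹ * d.b d.i0) = -(d.P.coeff 0)⁻¹ := by
  rw [b_i0, mul_one, d.rho_inv, map_smul, d.co_z, smul_eq_mul]
  have h : ((d.last : Fin d.n) : ℕ) + ((d.first : Fin d.n) : ℕ) + 1 = d.n := by
    have h2 := d.hdim
    change d.B.dim - 1 + 0 + 1 = d.B.dim
    omega
  rw [h, coeff_n, mul_one]

lemma inv_coeff_zero_mem_R : (d.P.coeff 0)⁻¹ ∈ d.R := by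
  have hn : 3 ≤ d.n := d.hdim
  have h := d.X0' d.i0_ne_i1 d.rho_ne_zero (a := d.i1) (c := d.last)
    (by
      rw [d.co_rho_b, if_neg d.i1_ne_last, if_neg]
      simp) d.i1_ne_last.symm d.i0
  rw [d.co_last_inv, d.co_rho_b, if_neg d.i0_ne_last, if_pos (by simp [i0, i1]), mul_one] at h
  have h2 := neg_mem h
  rwa [neg_neg] at h2

private lemma a0_mem_R : d.P.coeff 0 ∈ d.R := by
  have h := d.X0' d.i0_ne_i1.symm d.rho_ne_zero (a := d.i1) (c := d.i0)
    (by
      rw [d.co_rho_b, if_neg d.i1_ne_last, if_neg]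
      simp [i0]) d.i0_ne_i1 d.last
  have e1 : d.ρ⁻¹ * d.b d.i1 = d.b d.i0 := by
    change d.ρ⁻¹ * d.ρ ^ 1 = d.ρ ^ 0
    rw [pow_one, pow_zero, inv_mul_cancel₀ d.rho_ne_zero]
  rw [e1, d.co_b, if_pos rfl, one_mul, d.co_rho_b, if_pos rfl] at h
  have h2 := neg_mem h
  rw [neg_neg] at h2
  exact h2

lemma coeff_mem_R (k : ℕ) : d.P.coeff k ∈ d.R := by
  have hn : 3 ≤ d.n := d.hdim
  rcases Nat.lt_trichotomy k d.n with hk | hk | hk
  · rcases Nat.eq_zero_or_pos k with rfl | hk0
    · exact d.a0_mem_R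
    · have hne : d.i0 ≠ (⟨k, hk⟩ : Fin d.n) := by
        intro h
        have := congrArg Fin.val h
        simp only [i0] at this
        omega
      obtain ⟨a, hal, hak⟩ : ∃ a : Fin d.n, a ≠ d.last ∧ k ≠ (a : ℕ) + 1 := by
        by_cases hk1 : k = 1
        · exact ⟨d.i1, d.i1_ne_last, by simp [i1, hk1]⟩
        · exact ⟨d.i0, d.i0_ne_last, by simp [i0, hk1]⟩
      have h := d.X0' hne d.rho_ne_zero (a := a) (c := d.last)
        (by
          rw [d.co_rho_b, if_neg hal, if_neg]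
          exact hak) hal.symm d.last
      rw [d.co_last_inv, d.co_rho_b, if_pos rfl] at h
      have h2 := mul_mem h d.a0_mem_R
      have h3 : -(d.P.coeff 0)⁻¹ * -(d.P.coeff k) * d.P.coeff 0 = d.P.coeff k := by
        have := d.a0_ne
        field_simp
      have h4 : -(d.P.coeff 0)⁻¹ * -(d.P.coeff ((⟨k, hk⟩ : Fin d.n) : ℕ)) * d.P.coeff 0
          = d.P.coeff k := h3
      rwa [h4] at h2
  · rw [hk, coeff_n]
    exact one_mem _
  · rw [coeff_eq_zero_of_natDegree_lt (by rw [d.P_natDegree]; exact hk)]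
    exact zero_mem _

omit hp hc in
private lemma co_sub (r : F) (k e : Fin d.n) : d.co k ((d.ρ - algebraMap F κ r) * d.b e) =
    (if e = d.last then -(d.P.coeff k) else if (k : ℕ) = e + 1 then 1 else 0)
      - r * (if k = e then 1 else 0) := by
  rw [sub_mul, map_sub, d.co_rho_b, ← Algebra.smul_def, map_smul, d.co_b, smul_eq_mul]

omit hp hc in
private lemma co_last_div (r : F) (j : Fin d.n) :
    d.co d.last ((d.ρ - algebraMap F κ r)⁻¹ * d.b j) = -(r ^ (j : ℕ) / d.P.eval r) := by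
  have h := d.theta_div' (X ^ (j : ℕ)) (by rw [natDegree_X_pow]; exact j.2) r
  rw [eval_pow, eval_X, map_pow, aeval_X, div_eq_inv_mul] at h
  exact h

/-- `r ^ j / P(r) ∈ R`, `j ≤ n`. -/
theorem pow_div_mem_R' (r : F) (j : ℕ) (hj : j ≤ d.n) : r ^ j / d.P.eval r ∈ d.R := by
  have hn : 3 ≤ d.n := d.hdim
  have hy := d.rho_ne r
  -- `j ≤ n - 2`
  have hsmall : ∀ j : ℕ, j + 2 ≤ d.n → r ^ j / d.P.eval r ∈ d.R ∧
      r ^ j / d.P.eval r * (d.P.coeff (d.n - 1) + r) ∈ d.R := by
    intro j hj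
    have hjl : (⟨j, by omega⟩ : Fin d.n) ≠ d.last := by
      intro h
      have h1 := congrArg Fin.val h
      change j = d.n - 1 at h1
      omega
    have ha : d.co d.last ((d.ρ - algebraMap F κ r) * d.b d.i0) = 0 := by
      rw [d.co_sub, if_neg d.i0_ne_last, if_neg, if_neg d.i0_ne_last.symm]
      · ring
      · change ¬ (d.n - 1 = 0 + 1)
        omega
    constructor
    · have h := d.X0' hjl hy (a := d.i0) (c := d.last) ha d.i0_ne_last.symm
        (⟨d.n - 2, by omega⟩ : Fin d.n)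
      rw [d.co_last_div, d.co_sub, if_neg, if_pos, if_neg, mul_zero, sub_zero, mul_one] at h
      · have h2 := neg_mem h
        rwa [neg_neg] at h2
      · intro h
        have h1 := congrArg Fin.val h
        change d.n - 1 = d.n - 2 at h1
        omega
      · change d.n - 1 = d.n - 2 + 1
        omega
      · intro h
        have h1 := congrArg Fin.val h
        change d.n - 2 = d.n - 1 at h1
        omega
    · have h := d.X0' hjl hy (a := d.i0) (c := d.last) ha d.i0_ne_last.symm d.last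
      rw [d.co_last_div, d.co_sub, if_pos rfl, if_pos rfl] at h
      have e : -(r ^ ((⟨j, by omega⟩ : Fin d.n) : ℕ) / d.P.eval r) *
          (-(d.P.coeff ((d.last : Fin d.n) : ℕ)) - r * 1) =
          r ^ j / d.P.eval r * (d.P.coeff (d.n - 1) + r) := by
        change -(r ^ j / d.P.eval r) * (-(d.P.coeff (d.n - 1)) - r * 1) = _
        ring
      rwa [e] at h
  rcases Nat.lt_trichotomy (j + 1) d.n with h1 | h1 | h1
  · exact (hsmall j (by omega)).1
  · -- `j = n - 1`
    have h2 := hsmall (d.n - 2) (by omega)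
    have h3 := sub_mem h2.2 (mul_mem h2.1 (d.coeff_mem_R (d.n - 1)))
    have e : r ^ (d.n - 2) / d.P.eval r * (d.P.coeff (d.n - 1) + r) -
        r ^ (d.n - 2) / d.P.eval r * d.P.coeff (d.n - 1) = r ^ j / d.P.eval r := by
      have hj' : j = (d.n - 2) + 1 := by omega
      rw [hj', pow_succ]
      ring
    rwa [e] at h3
  · -- `j = n`
    have hj' : j = d.n := by omega
    have ha : d.co d.i0 ((d.ρ - algebraMap F κ r) * d.b d.i1) = 0 := by
      rw [d.co_sub, if_neg d.i1_ne_last, if_neg, if_neg d.i0_ne_i1]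
      · ring
      · simp [i0]
    have h := d.X0' d.i0_ne_last.symm hy (a := d.i1) (c := d.last) ha d.i1_ne_last.symm d.i0
    rw [d.co_last_div, d.co_sub, if_neg d.i0_ne_last, if_neg (by simp [i0]), if_pos rfl] at h
    have e : -(r ^ ((d.last : Fin d.n) : ℕ) / d.P.eval r) * (0 - r * 1) =
        r ^ j / d.P.eval r := by
      change -(r ^ (d.n - 1) / d.P.eval r) * (0 - r * 1) = _
      have hj2 : j = (d.n - 1) + 1 := by omega
      rw [hj2, pow_succ]
      ring
    rwa [e] at h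

lemma coeff'_mem_R (k : ℕ) : d.P'.coeff k ∈ d.R := by
  rw [d.P'_coeff]
  exact pow_mem (d.coeff_mem_R k) _

end Pool.Agent.LibHG80.Dat
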