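import Pool.Agent.LibHG80.Setting

/-!
ROW FR. The operation which raises all coordinates to the power `q = p ^ s`.
-/

set_option autoImplicit false

namespace Pool.Agent.LibHG80.Dat

open Module Polynomial

variable {F κ A : Type*} [Field F] [Field κ] [Algebra F κ] [AddCommGroup A] {p s : ℕ}
  [hp : Fact p.Prime] [hc : CharP F p] (d : Dat F κ A p s)

omit hp hc in
lemma b_eq (k : Fin d.n) : d.b k = d.B.basis k := (d.B.basis_eq_pow k).symm

omit hp hc in
lemma co_b (j k : Fin d.n) : d.co j (d.b k) = if j = k then 1 else 0 := by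
  rw [b_eq, co, Basis.coord_apply, Basis.repr_self, Finsupp.single_apply]
  by_cases h : j = k
  · rw [if_pos h, if_pos h.symm]
  · rw [if_neg h, if_neg (Ne.symm h)]

omit hp hc in
lemma sum_co (x : κ) : ∑ k, d.co k x • d.b k = x := by
  simp only [b_eq]
  exact d.B.basis.sum_repr x

omit hp hc in
lemma ext_co {x y : κ} (h : ∀ k, d.co k x = d.co k y) : x = y := by
  rw [← d.sum_co x, ← d.sum_co y]
  simp only [h]

omit hp hc in
lemma co_sum_b (a : Fin d.n → F) (j : Fin d.n) : d.co j (∑ k, a k • d.b k) = a j := by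
  rw [map_sum, Finset.sum_eq_single j]
  · rw [map_smul, co_b, if_pos rfl, smul_eq_mul, mul_one]
  · intro k _ hk
    rw [map_smul, co_b, if_neg (Ne.symm hk), smul_zero]
  · intro h
    exact absurd (Finset.mem_univ j) h

omit hc in
/-- Every element of `F` is a `q`-th power. -/
lemma exists_root (d : Dat F κ A p s) (a : F) : ∃ b : F, b ^ p ^ s = a :=
  d.hdiv (p ^ s) (pow_pos hp.out.pos s) a

omit hp hc in
lemma co_Fr (k : Fin d.n) (x : κ) : d.co k (d.Fr x) = d.co k x ^ p ^ s :=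
  d.co_sum_b (fun k => d.co k x ^ p ^ s) k

lemma Fr_add (x y : κ) : d.Fr (x + y) = d.Fr x + d.Fr y := by
  refine d.ext_co fun k => ?_
  rw [map_add, co_Fr, co_Fr, co_Fr, map_add, add_pow_char_pow]

lemma Fr_sub (x y : κ) : d.Fr (x - y) = d.Fr x - d.Fr y := by
  refine d.ext_co fun k => ?_
  rw [map_sub, co_Fr, co_Fr, co_Fr, map_sub, sub_pow_char_pow]

omit hc in
lemma Fr_zero : d.Fr 0 = 0 := by
  refine d.ext_co fun k => ?_
  rw [co_Fr, map_zero, zero_pow (pow_pos hp.out.pos s).ne']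

omit hp hc in
lemma Fr_smul (a : F) (x : κ) : d.Fr (a • x) = a ^ p ^ s • d.Fr x := by
  refine d.ext_co fun k => ?_
  rw [co_Fr, map_smul, map_smul, co_Fr, smul_eq_mul, smul_eq_mul, mul_pow]

lemma Fr_inj : Function.Injective d.Fr := by
  intro x y h
  refine d.ext_co fun k => ?_
  have h1 := congrArg (d.co k) h
  rw [co_Fr, co_Fr] at h1
  have h2 : (d.co k x - d.co k y) ^ p ^ s = 0 := by
    rw [sub_pow_char_pow, h1, sub_self]
  exact sub_eq_zero.1 (pow_eq_zero_iff (pow_pos hp.out.pos s).ne' |>.1 h2)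

lemma Fr_surj : Function.Surjective d.Fr := by
  intro x
  choose r hr using fun k => d.exists_root (d.co k x)
  refine ⟨∑ k, r k • d.b k, d.ext_co fun k => ?_⟩
  rw [co_Fr, co_sum_b, hr]

lemma Fr_ne_zero {x : κ} (hx : x ≠ 0) : d.Fr x ≠ 0 := by
  intro h
  exact hx (d.Fr_inj (by rw [h, d.Fr_zero]))

omit hc in
lemma Fr_b (k : Fin d.n) : d.Fr (d.b k) = d.b k := by
  refine d.ext_co fun j => ?_
  rw [co_Fr, co_b]
  split_ifs
  · exact one_pow _
  · exact zero_pow (pow_pos hp.out.pos s).ne'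

omit hp hc in
lemma pow_n_eq : d.ρ ^ d.n = -∑ i : Fin d.n, d.P.coeff (i : ℕ) • d.b i := by
  have h1 : aeval d.ρ d.P = 0 := minpoly.aeval F d.ρ
  have h2 : d.P.natDegree = d.n := d.B.natDegree_minpoly
  have h3 : d.P.Monic := minpoly.monic d.B.isIntegral_gen
  rw [aeval_eq_sum_range, h2, Finset.sum_range_succ] at h1
  have h4 : d.P.coeff d.n = 1 := by
    rw [← h2]
    exact h3
  rw [h4, one_smul, Finset.sum_range] at h1
  rw [eq_neg_iff_add_eq_zero, add_comm]
  exact h1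

omit hp hc in
lemma aeval_monic (Q : F[X]) (hQ : Q.Monic) (hn : Q.natDegree = d.n) :
    aeval d.ρ Q = (∑ i : Fin d.n, Q.coeff (i : ℕ) • d.b i) + d.ρ ^ d.n := by
  rw [aeval_eq_sum_range, hn, Finset.sum_range_succ]
  have h4 : Q.coeff d.n = 1 := by
    rw [← hn]
    exact hQ
  rw [h4, one_smul, Finset.sum_range]

/-- The multiplication by `ρ`: in coordinates
`(ρ x)_k = x_{k-1} - x_{n-1} a_k`, where `P = X ^ n + a_{n-1} X ^ (n-1) + ... + a_0`. -/
lemma Fr_rho_mul (x : κ) :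
    d.Fr (d.ρ * x) = d.ρ * d.Fr x - (d.θ x) ^ p ^ s • aeval d.ρ d.P' := by
  have hq : p ^ s ≠ 0 := (pow_pos hp.out.pos s).ne'
  have h3 : d.P.Monic := minpoly.monic d.B.isIntegral_gen
  have h2 : d.P.natDegree = d.n := d.B.natDegree_minpoly
  let f1 : κ →+ κ := AddMonoidHom.mk' (fun x => d.Fr (d.ρ * x)) fun x y => by
    rw [mul_add, Fr_add]
  let f2 : κ →+ κ := AddMonoidHom.mk'
    (fun x => d.ρ * d.Fr x - (d.θ x) ^ p ^ s • aeval d.ρ d.P') fun x y => by
      rw [Fr_add, map_add, add_pow_char_pow, add_smul, mul_add]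
      ring
  have key : ∀ (a : F) (k : Fin d.n), f1 (a • d.b k) = f2 (a • d.b k) := by
    intro a k
    show d.Fr (d.ρ * (a • d.b k)) = d.ρ * d.Fr (a • d.b k) -
      (d.θ (a • d.b k)) ^ p ^ s • aeval d.ρ d.P'
    rw [mul_smul_comm, Fr_smul, Fr_smul, Fr_b, map_smul, smul_eq_mul, mul_pow, θ, co_b]
    by_cases hk : d.last = k
    · subst hk
      have e1 : d.ρ * d.b d.last = d.ρ ^ d.n := by
        show d.ρ * d.ρ ^ (d.n - 1) = _
        rw [← pow_succ', Nat.sub_add_cancel (Nat.le_trans (by norm_num) d.hdim)]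
      have e2 : d.Fr (d.ρ ^ d.n) = d.ρ ^ d.n - aeval d.ρ d.P' := by
        rw [d.aeval_monic d.P' (h3.map _) (by rw [P', natDegree_map, h2])]
        have e3 : d.Fr (d.ρ ^ d.n) = -∑ i : Fin d.n, d.P'.coeff (i : ℕ) • d.b i := by
          refine d.ext_co fun j => ?_
          rw [co_Fr, pow_n_eq, map_neg, map_neg, co_sum_b, co_sum_b, P', coeff_map,
            iterateFrobenius_def]
          have h5 := sub_pow_char_pow (R := F) (p := p) (n := s) (0 : F) (d.P.coeff (j : ℕ))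
          rw [zero_sub, zero_pow hq, zero_sub] at h5
          exact h5
        rw [e3]
        ring
      rw [if_pos rfl, one_pow, mul_one, e1, e2, mul_smul_comm, e1, smul_sub]
    · have hk' : (k : ℕ) + 1 < d.n := by
        have h5 := k.2
        have h6 : (k : ℕ) ≠ d.n - 1 := fun h => hk (Fin.ext h.symm)
        omega
      have e1 : d.ρ * d.b k = d.b ⟨(k : ℕ) + 1, hk'⟩ := (pow_succ' d.ρ (k : ℕ)).symm
      rw [if_neg hk, zero_pow hq, mul_zero, zero_smul, sub_zero, e1, Fr_b, mul_smul_comm, e1]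
  have h5 : f1 x = f2 x := by
    rw [← d.sum_co x, map_sum, map_sum]
    exact Finset.sum_congr rfl fun k _ => key _ k
  exact h5

omit hp hc in
lemma frf_apply (φ : κ →ₗ[F] F) (x : κ) : d.frf φ x = ∑ k, φ (d.b k) ^ p ^ s * d.co k x := by
  rw [frf, LinearMap.sum_apply]
  rfl

omit hp hc in
lemma apply_eq (φ : κ →ₗ[F] F) (x : κ) : φ x = ∑ k, φ (d.b k) * d.co k x := by
  conv_lhs => rw [← d.sum_co x, map_sum]
  exact Finset.sum_congr rfl fun k _ => by rw [map_smul, smul_eq_mul, mul_comm]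

lemma frf_Fr (φ : κ →ₗ[F] F) (x : κ) : d.frf φ (d.Fr x) = φ x ^ p ^ s := by
  rw [frf_apply, d.apply_eq φ x, sum_pow_char_pow]
  exact Finset.sum_congr rfl fun k _ => by rw [co_Fr, mul_pow]

omit hp hc in
lemma frf_smul (a : F) (φ : κ →ₗ[F] F) : d.frf (a • φ) = a ^ p ^ s • d.frf φ := by
  refine LinearMap.ext fun x => ?_
  rw [LinearMap.smul_apply, frf_apply, frf_apply, smul_eq_mul, Finset.mul_sum]
  exact Finset.sum_congr rfl fun k _ => by
    rw [LinearMap.smul_apply, smul_eq_mul, mul_pow, mul_assoc]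

omit hc in
lemma frf_co (k : Fin d.n) : d.frf (d.co k) = d.co k := by
  refine LinearMap.ext fun x => ?_
  rw [frf_apply, Finset.sum_eq_single k]
  · rw [co_b, if_pos rfl, one_pow, one_mul]
  · intro j _ hj
    rw [co_b, if_neg (Ne.symm hj), zero_pow (pow_pos hp.out.pos s).ne', zero_mul]
  · intro h
    exact absurd (Finset.mem_univ k) h

lemma frf_surj : Function.Surjective d.frf := by
  intro ψ
  choose r hr using fun k => d.exists_root (ψ (d.b k))
  refine ⟨∑ k, r k • d.co k, LinearMap.ext fun x => ?_⟩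
  rw [frf_apply, d.apply_eq ψ x]
  refine Finset.sum_congr rfl fun k _ => ?_
  have h1 : (∑ j, r j • d.co j) (d.b k) = r k := by
    rw [LinearMap.sum_apply, Finset.sum_eq_single k]
    · rw [LinearMap.smul_apply, co_b, if_pos rfl, smul_eq_mul, mul_one]
    · intro j _ hj
      rw [LinearMap.smul_apply, co_b, if_neg hj, smul_zero]
    · intro h
      exact absurd (Finset.mem_univ k) h
  rw [h1, hr]

lemma pr_aux {w : κ} {φ : κ →ₗ[F] F} (h1 : 1 + φ w ≠ 0) :
    (∀ x, x ≠ 0 → d.c (x + φ x • w) = d.c x) ↔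
      ∀ x, x ≠ 0 → d.c (x + d.frf φ x • d.Fr w) = d.c x := by
  have e1 : ∀ x, d.Fr (x + φ x • w) = d.Fr x + d.frf φ (d.Fr x) • d.Fr w := by
    intro x
    rw [Fr_add, Fr_smul, frf_Fr]
  constructor
  · intro h x hx
    obtain ⟨y, rfl⟩ := d.Fr_surj x
    have hy : y ≠ 0 := by
      rintro rfl
      exact hx d.Fr_zero
    rw [← e1, d.c_fr _ (ne_zero_of_inv h1 hy), d.c_fr _ hy, h y hy]
  · intro h x hx
    have h2 := h _ (d.Fr_ne_zero hx)
    rw [← e1, d.c_fr _ (ne_zero_of_inv h1 hx), d.c_fr _ hx] at h2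
    exact d.hu h2

/-- `Fr` normalises the group of the perturbations which preserve `c`
(`c (Fr x) = u (c x)`, `u` injective). -/
lemma Pr_fr {w : κ} {φ : κ →ₗ[F] F} : Pr d.c w φ ↔ Pr d.c (d.Fr w) (d.frf φ) := by
  have hq : p ^ s ≠ 0 := (pow_pos hp.out.pos s).ne'
  have e1 : 1 + d.frf φ (d.Fr w) = (1 + φ w) ^ p ^ s := by
    rw [frf_Fr, add_pow_char_pow, one_pow]
  constructor
  · rintro ⟨h1, h2⟩
    exact ⟨by rw [e1]; exact pow_ne_zero _ h1, (d.pr_aux h1).1 h2⟩
  · rintro ⟨h1, h2⟩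
    have h3 : 1 + φ w ≠ 0 := by
      intro h
      rw [e1, h, zero_pow hq] at h1
      exact h1 rfl
    exact ⟨h3, (d.pr_aux h3).2 h2⟩

lemma Tv_fr {w : κ} {φ : κ →ₗ[F] F} : Tv d.c w φ ↔ Tv d.c (d.Fr w) (d.frf φ) := by
  have hq : p ^ s ≠ 0 := (pow_pos hp.out.pos s).ne'
  constructor
  · intro h
    have h1 := d.Pr_fr.1 h.pr
    exact ⟨by rw [frf_Fr, h.1, zero_pow hq], h1.2⟩
  · intro h
    have h1 := d.Pr_fr.2 h.pr
    have h2 := h.1
    rw [frf_Fr] at h2
    exact ⟨(pow_eq_zero_iff hq).1 h2, h1.2⟩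

end Pool.Agent.LibHG80.Dat
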