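import Pool.Agent.LibHG80.Uj

/-!
ROW FA. The group `UU`, the ring `R`.
-/

set_option autoImplicit false

namespace Pool.Agent.LibHG80.Dat

open Module Polynomial

variable {F κ A : Type*} [Field F] [Field κ] [Algebra F κ] [AddCommGroup A] {p s : ℕ}
  [hp : Fact p.Prime] [hc : CharP F p] (d : Dat F κ A p s)

/-- The elements of `Al` have `q`-th roots in `Al`. -/
lemma exists_root_Al {a : F} (ha : a ∈ d.Al) : ∃ b ∈ d.Al, b ^ p ^ s = a := by
  obtain ⟨b, hb⟩ := d.hdiv (p ^ s) (pow_pos hp.out.pos s) a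
  refine ⟨b, ?_, hb⟩
  rw [d.mem_Al] at ha ⊢
  intro w φ h
  rw [d.Tv_fr, d.frf_smul, hb]
  exact ha _ _ (d.Tv_fr.1 h)

omit hp hc in
private lemma fa_third (j k : Fin d.n) : ∃ i : Fin d.n, i ≠ j ∧ i ≠ k := by
  have h1 : ({j, k} : Finset (Fin d.n)).card < (Finset.univ : Finset (Fin d.n)).card := by
    refine lt_of_le_of_lt Finset.card_le_two ?_
    rw [Finset.card_univ, Fintype.card_fin]
    exact d.hdim
  obtain ⟨i, _, hi⟩ := Finset.exists_mem_notMem_of_card_lt_card h1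
  simp only [Finset.mem_insert, Finset.mem_singleton, not_or] at hi
  exact ⟨i, hi.1, hi.2⟩

omit hp hc in
lemma prod_mem_UU (a : Fin d.n → Fin d.n → F) (h : ∀ j k, a j k ∈ d.Al)
    (h' : ∀ j k, j ≠ k → a j k ∈ d.U j k) : (∏ j, ∏ k, a j k) ∈ d.UU := by
  classical
  rw [d.mem_UU]
  intro j k
  by_cases hjk : j = k
  · exact Or.inl hjk
  · have e1 : ∏ j', ∏ k', a j' k' =
        ((∏ j' ∈ Finset.univ.erase j, ∏ k', a j' k') *
          (∏ k' ∈ Finset.univ.erase k, a j k')) * a j k := by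
      rw [← Finset.mul_prod_erase Finset.univ (fun j' => ∏ k', a j' k') (Finset.mem_univ j),
        ← Finset.mul_prod_erase Finset.univ (fun k' => a j k') (Finset.mem_univ k)]
      ring
    rw [e1]
    refine d.Al_mul_U ?_ (h' j k hjk)
    refine mul_mem ?_ ?_
    · exact prod_mem fun j' _ => prod_mem fun k' _ => h j' k'
    · exact prod_mem fun k' _ => h j k'

omit hp hc in
lemma Al_mul_UU {a t : F} (ha : a ∈ d.Al) (ht : t ∈ d.UU) : a * t ∈ d.UU := by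
  rw [d.mem_UU] at ht ⊢
  exact fun j k => d.Al_mul_U ha (ht j k)

lemma pow_mem_UU_iff {t : F} : t ^ p ^ s ∈ d.UU ↔ t ∈ d.UU := by
  rw [d.mem_UU, d.mem_UU]
  exact ⟨fun h j k => d.pow_mem_U.1 (h j k), fun h j k => d.pow_mem_U.2 (h j k)⟩

lemma exists_root_UU {t : F} (ht : t ∈ d.UU) : ∃ t' ∈ d.UU, t' ^ p ^ s = t := by
  obtain ⟨b, hb⟩ := d.hdiv (p ^ s) (pow_pos hp.out.pos s) t
  refine ⟨b, ?_, hb⟩
  rw [← hb] at ht
  exact d.pow_mem_UU_iff.1 ht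

omit hp hc in
/-- `n ≥ 3`. -/
lemma UU_mul_UU {t t' : F} (ht : t ∈ d.UU) (ht' : t' ∈ d.UU) : t * t' ∈ d.UU := by
  rw [d.mem_UU] at ht ht' ⊢
  intro j k
  by_cases hjk : j = k
  · exact Or.inl hjk
  · obtain ⟨i, hij, hik⟩ := d.fa_third j k
    exact d.U_mul_U (Ne.symm hij) hik (ht j i) (ht' i k)

omit hp hc in
private lemma fa_pow_mem {t : F} (ht : t ∈ d.UU) {m : ℕ} (hm : 0 < m) : t ^ m ∈ d.UU := by
  induction m with
  | zero => exact absurd hm (lt_irrefl 0)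
  | succ m ih =>
    rcases Nat.eq_zero_or_pos m with h0 | h0
    · rw [h0, zero_add, pow_one]
      exact ht
    · rw [pow_succ]
      exact d.UU_mul_UU (ih h0) ht

omit hc in
include d in
private lemma fa_two_le : 2 ≤ p ^ s := by
  calc 2 ≤ p := hp.out.two_le
    _ = p ^ 1 := (pow_one p).symm
    _ ≤ p ^ s := Nat.pow_le_pow_right hp.out.pos (Nat.one_le_iff_ne_zero.2 d.hs)

/-- `UU` multiplies `U j k` into itself: `t t' u` for `t ∈ U j i`, `t' ∈ U i j`... : go from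
`(j, k)` to `(i, k)` and back; and every `t ∈ UU` is a product of two elements of `UU`. -/
lemma UU_mul_U_mem {j k : Fin d.n} {t u : F} (ht : t ∈ d.UU) (hu : u ∈ d.U j k) :
    t * u ∈ d.U j k := by
  by_cases hjk : j = k
  · exact Or.inl hjk
  · obtain ⟨i, hij, hik⟩ := d.fa_third j k
    obtain ⟨t', ht', he⟩ := d.exists_root_UU ht
    have hq := d.fa_two_le
    have h1 : t' ^ (p ^ s - 1) ∈ d.UU := d.fa_pow_mem ht' (by omega)
    have h2 : t = t' ^ (p ^ s - 1) * t' := by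
      rw [← pow_succ, ← he]
      congr 1
      omega
    have h3 : t' * u ∈ d.U i k := d.U_mul_U hij hjk ((d.mem_UU.1 ht') i j) hu
    have h4 : t' ^ (p ^ s - 1) * (t' * u) ∈ d.U j k :=
      d.U_mul_U (Ne.symm hij) hik ((d.mem_UU.1 h1) j i) h3
    rw [h2, mul_assoc]
    exact h4

omit hp hc in
lemma Al_le_R : d.Al ≤ d.R := fun _ ha _ ht => d.Al_mul_UU ha ht

omit hp hc in
lemma UU_le_R {t : F} (ht : t ∈ d.UU) : t ∈ d.R := fun _ ht' => d.UU_mul_UU ht ht'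

lemma pow_mem_R {x : F} : x ^ p ^ s ∈ d.R ↔ x ∈ d.R := by
  constructor
  · intro h
    rw [d.mem_R] at h ⊢
    intro t ht
    rw [← d.pow_mem_UU_iff, mul_pow]
    exact h _ (d.pow_mem_UU_iff.2 ht)
  · intro h
    exact pow_mem h _

private lemma fa_roots {t : F} (ht : t ∈ d.UU) (N : ℕ) : ∃ t' ∈ d.UU, t' ^ (p ^ s) ^ N = t := by
  induction N with
  | zero => exact ⟨t, ht, by rw [pow_zero, pow_one]⟩
  | succ N ih =>
    obtain ⟨t', ht', he⟩ := ih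
    obtain ⟨t'', ht'', he'⟩ := d.exists_root_UU ht'
    refine ⟨t'', ht'', ?_⟩
    rw [pow_succ', pow_mul, he', he]

/-- `t = t' ^ M` with `M` large: `t' ∈ UU`. -/
lemma exists_big_root {t : F} (ht : t ∈ d.UU) (m : ℕ) : ∃ t' ∈ d.UU, ∃ M, m ≤ M ∧ t' ^ M = t := by
  obtain ⟨t', ht', he⟩ := d.fa_roots ht m
  exact ⟨t', ht', (p ^ s) ^ m, (Nat.lt_pow_self (by have := d.fa_two_le; omega)).le, he⟩

omit hp hc in
private lemma fa_left {x : F} {a l j : Fin d.n} (hal : a ≠ l)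
    (h : ∃ m : ℕ, ∀ t ∈ d.UU, t ^ m * x ∈ d.U a l) :
    ∃ m : ℕ, ∀ t ∈ d.UU, t ^ m * x ∈ d.U j l := by
  by_cases hja : j = a
  · rw [hja]; exact h
  · obtain ⟨m, hm⟩ := h
    refine ⟨m + 1, fun t ht => ?_⟩
    rw [pow_succ', mul_assoc]
    exact d.U_mul_U hja hal ((d.mem_UU.1 ht) j a) (hm t ht)

omit hp hc in
private lemma fa_right {x : F} {a l k : Fin d.n} (hal : a ≠ l)
    (h : ∃ m : ℕ, ∀ t ∈ d.UU, t ^ m * x ∈ d.U a l) :
    ∃ m : ℕ, ∀ t ∈ d.UU, t ^ m * x ∈ d.U a k := by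
  by_cases hlk : l = k
  · rw [← hlk]; exact h
  · obtain ⟨m, hm⟩ := h
    refine ⟨m + 1, fun t ht => ?_⟩
    have e1 : t ^ (m + 1) * x = (t ^ m * x) * t := by ring
    rw [e1]
    exact d.U_mul_U hal hlk (hm t ht) ((d.mem_UU.1 ht) l k)

/-- `(K)`. From `(a, l)` one reaches every pair `(j, k)` by changing one index at a time
(`n ≥ 3`): `∀ j ≠ k, ∃ m, ∀ t ∈ UU, t ^ m * x ∈ U j k`. -/
theorem mem_R_of {x : F} {a l : Fin d.n} (hal : a ≠ l) (m : ℕ)
    (h : ∀ t ∈ d.UU, t ^ m * x ∈ d.U a l) : x ∈ d.R := by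
  have h0 : ∃ m : ℕ, ∀ t ∈ d.UU, t ^ m * x ∈ d.U a l := ⟨m, h⟩
  have key : ∀ j k : Fin d.n, j ≠ k → ∃ m : ℕ, ∀ t ∈ d.UU, t ^ m * x ∈ d.U j k := by
    intro j k hjk
    by_cases hjl : j = l
    · obtain ⟨i, hia, hil⟩ := d.fa_third a l
      have h1 : ∃ m : ℕ, ∀ t ∈ d.UU, t ^ m * x ∈ d.U a i := d.fa_right hal h0
      have h2 : ∃ m : ℕ, ∀ t ∈ d.UU, t ^ m * x ∈ d.U j i := d.fa_left (Ne.symm hia) h1
      have hji : j ≠ i := by rw [hjl]; exact Ne.symm hil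
      exact d.fa_right hji h2
    · have h1 : ∃ m : ℕ, ∀ t ∈ d.UU, t ^ m * x ∈ d.U j l := d.fa_left hal h0
      exact d.fa_right hjl h1
  rw [d.mem_R]
  intro t ht
  rw [d.mem_UU]
  intro j k
  by_cases hjk : j = k
  · exact Or.inl hjk
  · obtain ⟨m', hm'⟩ := key j k hjk
    obtain ⟨t', ht', M, hM, he⟩ := d.exists_big_root ht (m' + 1)
    have e1 : x * t = t' ^ (M - m') * (t' ^ m' * x) := by
      have e2 : t = t' ^ (M - m') * t' ^ m' := by
        rw [← pow_add, ← he]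
        congr 1
        omega
      rw [e2]
      ring
    rw [e1]
    exact d.UU_mul_U_mem (d.fa_pow_mem ht' (by omega)) (hm' t' ht')

lemma U_le_R {j k : Fin d.n} (hjk : j ≠ k) {u : F} (hu : u ∈ d.U j k) : u ∈ d.R :=
  d.mem_R_of hjk 0 fun t _ => by rwa [pow_zero, one_mul]

omit hp hc in
lemma R_mul_UU {x t : F} (hx : x ∈ d.R) (ht : t ∈ d.UU) : x * t ∈ d.UU := hx t ht

private lemma fa_down {x : F} (N : ℕ) (h : x ^ (p ^ s) ^ N ∈ d.UU) : x ∈ d.UU := by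
  induction N with
  | zero => rwa [pow_zero, pow_one] at h
  | succ N ih =>
    apply ih
    rw [← d.pow_mem_UU_iff, ← pow_mul, ← pow_succ]
    exact h

/-- `UU` is a radical ideal of `R`. -/
lemma UU_radical {x : F} (hx : x ∈ d.R) {m : ℕ} (h : x ^ m ∈ d.UU) : x ∈ d.UU := by
  have h1 : m ≤ (p ^ s) ^ m := (Nat.lt_pow_self (by have := d.fa_two_le; omega)).le
  apply d.fa_down m
  have e1 : x ^ (p ^ s) ^ m = x ^ ((p ^ s) ^ m - m) * x ^ m := by
    rw [← pow_add]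
    congr 1
    omega
  rw [e1]
  exact d.R_mul_UU (pow_mem hx _) h

lemma UU_mul_U {j k : Fin d.n} (hjk : j ≠ k) {t u : F} (ht : t ∈ d.UU) (hu : u ∈ d.U j k) :
    t * u ∈ d.UU := by
  rw [mul_comm]
  exact d.R_mul_UU (d.U_le_R hjk hu) ht

end Pool.Agent.LibHG80.Dat
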