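import Pool.Agent.LibHG80.Theta

/-!
ROW HO. The homologies. ROW AL. The ring of multipliers.
-/

set_option autoImplicit false

namespace Pool.Agent.LibHG80.Dat

open Module Polynomial

variable {F κ A : Type*} [Field F] [Field κ] [Algebra F κ] [AddCommGroup A] {p s : ℕ}
  [hp : Fact p.Prime] [hc : CharP F p] (d : Dat F κ A p s)

/-- The multiplication by `y⁻¹` as a linear equivalence. -/
noncomputable def mulE {y : κ} (hy : y ≠ 0) : κ ≃ₗ[F] κ where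
  toFun x := y⁻¹ * x
  map_add' := mul_add _
  map_smul' a x := by rw [mul_smul_comm, RingHom.id_apply]
  invFun x := y * x
  left_inv x := mul_inv_cancel_left₀ hy x
  right_inv x := inv_mul_cancel_left₀ hy x

omit hp hc in
lemma Pr_mul_aux {y : κ} (hy : y ≠ 0) {w : κ} {φ : κ →ₗ[F] F} (h : Pr d.c w φ) :
    Pr d.c (y⁻¹ * w) (tw φ y) :=
  h.conj (mulE hy) (d.c y⁻¹) fun x hx => by
    show d.c (y⁻¹ * x) = _
    rw [d.c_mul _ _ (inv_ne_zero hy) hx, add_comm]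

omit hp hc in
/-- Conjugation by the multiplication by `y⁻¹`. -/
lemma Pr_mul {y : κ} (hy : y ≠ 0) {w : κ} {φ : κ →ₗ[F] F} :
    Pr d.c (y⁻¹ * w) (tw φ y) ↔ Pr d.c w φ := by
  refine ⟨fun h => ?_, d.Pr_mul_aux hy⟩
  have h1 := d.Pr_mul_aux (inv_ne_zero hy) h
  have e1 : y⁻¹⁻¹ * (y⁻¹ * w) = w := by rw [inv_inv, mul_inv_cancel_left₀ hy]
  have e2 : tw (tw φ y) y⁻¹ = φ := LinearMap.ext fun x => by
    rw [tw_apply, tw_apply, mul_inv_cancel_left₀ hy]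
  rwa [e1, e2] at h1

omit hp hc in
lemma tw_mul_inv {y : κ} (hy : y ≠ 0) {w : κ} {φ : κ →ₗ[F] F} :
    tw φ y (y⁻¹ * w) = φ w := by
  rw [tw_apply, mul_inv_cancel_left₀ hy]

omit hp hc in
lemma Tv_mul {y : κ} (hy : y ≠ 0) {w : κ} {φ : κ →ₗ[F] F} :
    Tv d.c (y⁻¹ * w) (tw φ y) ↔ Tv d.c w φ := by
  constructor
  · intro h
    have h1 := (d.Pr_mul hy).1 h.pr
    have h2 := h.1
    rw [tw_mul_inv hy] at h2
    exact ⟨h2, h1.2⟩
  · intro h
    have h1 := (d.Pr_mul hy).2 h.pr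
    exact ⟨by rw [tw_mul_inv hy]; exact h.1, h1.2⟩

lemma w_ne (r : F) : d.w r ≠ 0 :=
  div_ne_zero (neg_ne_zero.2 d.P'_aeval_ne) (d.rho_ne r)

/-- `1 + θ (w r) = P'(r) / P(r)`: formula (F) for `P' - P`. -/
lemma one_add_theta_w (r : F) : 1 + d.θ (d.w r) = d.f r := by
  have hn' : 3 ≤ d.n := d.hdim
  have hP := d.P_eval_ne r
  have h1 : (d.P' - d.P).natDegree < d.n := by
    by_cases h0 : d.P' - d.P = 0
    · rw [h0, natDegree_zero]; omega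
    · have h2 : (d.P' - d.P).degree < d.P'.degree := by
        refine degree_sub_lt_left ?_ d.P'_monic.ne_zero ?_
        · rw [degree_eq_natDegree d.P'_monic.ne_zero, degree_eq_natDegree d.P_monic.ne_zero,
            P'_natDegree, P_natDegree]
        · rw [d.P'_monic, d.P_monic]
      rw [← d.P'_natDegree]
      exact natDegree_lt_natDegree h0 h2
  have h3 : d.w r = -(aeval d.ρ (d.P' - d.P) / (d.ρ - algebraMap F κ r)) := by
    rw [w, map_sub, P_aeval, sub_zero, neg_div]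
  rw [h3, map_neg, d.theta_div' _ h1, neg_neg, eval_sub, f]
  field_simp
  ring

lemma f_ne (r : F) : d.f r ≠ 0 := div_ne_zero (d.P'_eval_ne r) (d.P_eval_ne r)

lemma Fr_rho_sub (r : F) (y : κ) : d.Fr ((d.ρ - algebraMap F κ r) * y) =
    (d.ρ - algebraMap F κ (r ^ p ^ s)) * (d.Fr y + d.θ (d.Fr y) • d.w (r ^ p ^ s)) := by
  have h1 := d.rho_ne (r ^ p ^ s)
  have e1 : (d.ρ - algebraMap F κ r) * y = d.ρ * y - r • y := by
    rw [sub_mul, Algebra.smul_def]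
  have e2 : d.θ (d.Fr y) = (d.θ y) ^ p ^ s := d.co_Fr d.last y
  have e3 : (d.ρ - algebraMap F κ (r ^ p ^ s)) * d.w (r ^ p ^ s) = -(aeval d.ρ d.P') := by
    rw [w, mul_div_cancel₀ _ h1]
  rw [e1, Fr_sub, Fr_rho_mul, Fr_smul, e2, mul_add, mul_smul_comm, e3, sub_mul,
    ← Algebra.smul_def, smul_neg]
  ring

lemma c_rho_sub (r : F) : d.c (d.ρ - algebraMap F κ (r ^ p ^ s)) =
    d.u (d.c (d.ρ - algebraMap F κ r)) := by
  have hn' : 3 ≤ d.n := d.hdim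
  rw [← d.c_fr _ (d.rho_ne r)]
  congr 1
  have e1 : d.ρ = d.b ⟨1, by omega⟩ := (pow_one d.ρ).symm
  have e2 : algebraMap F κ r = r • d.b d.first := by
    rw [Algebra.algebraMap_eq_smul_one]
    exact congrArg (r • ·) (pow_zero d.ρ).symm
  have e3 : algebraMap F κ (r ^ p ^ s) = r ^ p ^ s • d.b d.first := by
    rw [Algebra.algebraMap_eq_smul_one]
    exact congrArg (r ^ p ^ s • ·) (pow_zero d.ρ).symm
  have h1 : d.Fr (d.ρ - algebraMap F κ r) = d.ρ - algebraMap F κ (r ^ p ^ s) := by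
    rw [Fr_sub, e2, Fr_smul, Fr_b, e3]
    congr 1
    have h2 := d.Fr_b ⟨1, by omega⟩
    rw [← e1] at h2
    exact h2
  exact h1.symm

/-- The homology: for `x = Fr y`, `r = r' ^ q`,
`Fr ((ρ - r') y) = (ρ - r) (x + θ x • w r)`, and `Fr (ρ - r') = ρ - r`. -/
lemma Pr_w (r : F) : Pr d.c (d.w r) d.θ := by
  have h0 : 1 + d.θ (d.w r) ≠ 0 := by
    rw [one_add_theta_w]
    exact d.f_ne r
  refine ⟨h0, fun x hx => ?_⟩
  obtain ⟨r', rfl⟩ := d.exists_root r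
  obtain ⟨y, rfl⟩ := d.Fr_surj x
  have hy : y ≠ 0 := by
    rintro rfl
    exact hx d.Fr_zero
  have h1 := congrArg d.c (d.Fr_rho_sub r' y)
  rw [d.c_fr _ (mul_ne_zero (d.rho_ne r') hy), d.c_mul _ _ (d.rho_ne r') hy, map_add,
    d.c_mul _ _ (d.rho_ne _) (ne_zero_of_inv h0 hx), c_rho_sub, ← d.c_fr _ hy] at h1
  exact (add_left_cancel h1).symm

/-- The homology conjugated by a multiplication. -/
lemma Pr_w_mul (r : F) {y : κ} (hy : y ≠ 0) : Pr d.c (y⁻¹ * d.w r) (tw d.θ y) :=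
  (d.Pr_mul hy).2 (d.Pr_w r)

lemma exists_hom (r : F) {v : κ} (hv : v ≠ 0) :
    ∃ φ : κ →ₗ[F] F, Pr d.c v φ ∧ 1 + φ v = d.f r := by
  refine ⟨tw d.θ (d.w r / v), ?_, ?_⟩
  · have h1 := d.Pr_w_mul r (div_ne_zero (d.w_ne r) hv)
    have e1 : (d.w r / v)⁻¹ * d.w r = v := by
      rw [inv_div, div_mul_cancel₀ _ (d.w_ne r)]
    rwa [e1] at h1
  · rw [tw_apply, div_mul_cancel₀ _ hv, one_add_theta_w]

omit hp hc in
lemma mem_Al_aux {a : F} {v : κ} {ψ φ : κ →ₗ[F] F} (h : Tv d.c v ψ) (hφ : Pr d.c v φ)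
    (ha : 1 + φ v = a) : Tv d.c v (a • ψ) := by
  have h1 := comm_rel h.pr hφ h.1
  rw [h.1, add_zero, inv_one, one_mul] at h1
  have h2 := h.add h1.neg
  have e : ψ + -((-φ v) • ψ) = a • ψ := LinearMap.ext fun x => by
    rw [← ha, LinearMap.add_apply, LinearMap.neg_apply, LinearMap.smul_apply,
      LinearMap.smul_apply, smul_eq_mul, smul_eq_mul]
    ring
  rwa [e] at h2

omit hp hc in
lemma Tv_zero_left (ψ : κ →ₗ[F] F) : Tv d.c 0 ψ := by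
  refine ⟨map_zero ψ, fun x _ => ?_⟩
  rw [smul_zero, add_zero]

/-- `(v, ψ)` with `ψ v = 0`; the homology `(v, φ)`, `φ = tw θ (w r / v)`; use `comm_rel` for
`(v, ψ)` and `(v, φ)`: the transvection `(v, (1 - f r) ψ)` preserves `c`. -/
lemma f_mem_Al (r : F) : d.f r ∈ d.Al := by
  intro v ψ h
  by_cases hv : v = 0
  · rw [hv]
    exact d.Tv_zero_left _
  obtain ⟨φ, hφ, h1⟩ := d.exists_hom r hv
  exact d.mem_Al_aux h hφ h1

lemma f_inv_mem_Al (r : F) : (d.f r)⁻¹ ∈ d.Al := by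
  intro v ψ h
  by_cases hv : v = 0
  · rw [hv]
    exact d.Tv_zero_left _
  obtain ⟨φ, hφ, h1⟩ := d.exists_hom r hv
  refine d.mem_Al_aux h hφ.inv ?_
  have h2 := hφ.1
  rw [LinearMap.smul_apply, smul_eq_mul, ← h1]
  field_simp
  ring

lemma pow_mem_Al_iff {a : F} : a ^ p ^ s ∈ d.Al ↔ a ∈ d.Al := by
  constructor
  · intro ha w φ h
    rw [d.Tv_fr, frf_smul]
    exact ha _ _ (d.Tv_fr.1 h)
  · intro ha w φ h
    obtain ⟨w', rfl⟩ := d.Fr_surj w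
    obtain ⟨φ', rfl⟩ := d.frf_surj φ
    rw [← frf_smul, ← d.Tv_fr]
    exact ha _ _ (d.Tv_fr.2 h)

/-- The commutator relation without the unit, for the homologies `(y⁻¹ w r, tw θ y)`. -/
lemma comm_hom (r : F) {y : κ} (hy : y ≠ 0) {w₂ : κ} {φ₂ : κ →ₗ[F] F} (h₂ : Pr d.c w₂ φ₂)
    (h : d.θ (y * w₂) = 0) : Tv d.c w₂ (φ₂ (y⁻¹ * d.w r) • tw d.θ y) := by
  have h1 := comm_rel (d.Pr_w_mul r hy) h₂ h
  have e1 : tw d.θ y (y⁻¹ * d.w r) = d.θ (d.w r) := tw_mul_inv hy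
  rw [e1, one_add_theta_w] at h1
  have h2 := (d.f_mem_Al r _ _ h1).neg
  have e : -(d.f r • -((d.f r)⁻¹ * φ₂ (y⁻¹ * d.w r)) • tw d.θ y) =
      φ₂ (y⁻¹ * d.w r) • tw d.θ y := LinearMap.ext fun x => by
    rw [smul_smul, mul_neg, mul_inv_cancel_left₀ (d.f_ne r), LinearMap.neg_apply,
      LinearMap.smul_apply, LinearMap.smul_apply, smul_eq_mul, smul_eq_mul]
    ring
  rwa [e] at h2

omit hp hc in
/-- The commutator relation for two transvections. -/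
lemma comm_tv {w₁ w₂ : κ} {φ₁ φ₂ : κ →ₗ[F] F} (h₁ : Tv d.c w₁ φ₁) (h₂ : Tv d.c w₂ φ₂)
    (h : φ₁ w₂ = 0) : Tv d.c w₂ (φ₂ w₁ • φ₁) := by
  have h1 := (comm_rel h₁.pr h₂.pr h).neg
  rw [h₁.1, add_zero, inv_one, one_mul] at h1
  have e : -((-φ₂ w₁) • φ₁) = φ₂ w₁ • φ₁ := LinearMap.ext fun x => by
    rw [LinearMap.neg_apply, LinearMap.smul_apply, LinearMap.smul_apply, smul_eq_mul, smul_eq_mul]
    ring
  rwa [e] at h1

end Pool.Agent.LibHG80.Dat
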