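import Pool.Agent.LibHG80.Ext0

/-! The statements of the first part in the form used by the second part. -/

set_option autoImplicit false

namespace Pool.Agent.LibHG80

open Module Polynomial

namespace Dat

variable {F κ A : Type*} [Field F] [Field κ] [Algebra F κ] [AddCommGroup A] {p s : ℕ}
  [hp : Fact p.Prime] [hc : CharP F p] (d : Dat F κ A p s)

theorem key_K {a l : Fin d.n} (h : a ≠ l) (m : ℕ) (x : F)
    (hx : ∀ t : Fin m → F, (∀ i, t i ∈ d.UU) → (∏ i, t i) * x ∈ d.U a l) : x ∈ d.R := by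
  refine d.mem_R_of h m fun t ht => ?_
  have := hx (fun _ => t) fun _ => ht
  simpa using this

theorem pow_div_mem_R (r : F) {j : ℕ} (hj : j ≤ d.n) : r ^ j / d.P.eval r ∈ d.R :=
  d.pow_div_mem_R' r j hj

theorem u_mem_U {j k : Fin d.n} (h : j ≠ k) {r s' : F} (_hr : r ≠ s') :
    d.θ (d.w r * d.w s' / (d.z k * d.b j)) ∈ d.U j k := d.u_mem_U' h r s'

omit hp hc in
theorem theta_div {g : F[X]} (hg : g.natDegree < d.n) (r : F) :
    d.θ (aeval d.ρ g / (d.ρ - algebraMap F κ r)) = -(g.eval r / d.P.eval r) := d.theta_div' g hg r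

end Dat

end Pool.Agent.LibHG80
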