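import Mathlib

/-!
ROW RF. A rational function over an infinite field `k` whose values lie in a subfield closed under
`q`-th roots is constant, unless the subfield is `k`.
-/

set_option autoImplicit false

namespace Pool.Agent.LibHG80

open Polynomial

/-- The version of `coeff_mem_of_values` with an infinite set of points. -/
private lemma rf_aux {k : Type*} [Field k] (K : Subfield k) (S : Set k) (hS : S.Infinite)
    (hSK : ∀ x ∈ S, x ∈ K) (f g : k[X]) (hg : g.Monic) (hfg : IsCoprime f g)
    (hv : ∀ x ∈ S, g.eval x ≠ 0 → f.eval x / g.eval x ∈ K) :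
    (∀ i, f.coeff i ∈ K) ∧ ∀ i, g.coeff i ∈ K := by
  classical
  obtain ⟨l, hl⟩ := LinearMap.exists_leftInverse_of_injective (Algebra.linearMap K k)
    (LinearMap.ker_eq_bot.2 (algebraMap K k).injective)
  have hl1 : l 1 = 1 := by
    have h := LinearMap.congr_fun hl (1 : K)
    rw [LinearMap.comp_apply, Algebra.linearMap_apply, map_one] at h
    exact h
  have hL : ∀ h : k[X], ∃ H : k[X], (∀ i, H.coeff i = (l (h.coeff i) : k)) ∧
      ∀ x ∈ K, H.eval x = (l (h.eval x) : k) := by
    intro h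
    obtain ⟨H, hH⟩ : ∃ H : k[X], ∀ i, H.coeff i = (l (h.coeff i) : k) := by
      refine ⟨∑ i ∈ Finset.range (h.natDegree + 1), C ((l (h.coeff i) : K) : k) * X ^ i,
        fun i => ?_⟩
      rw [finsetSum_coeff]
      simp only [coeff_C_mul, coeff_X_pow, mul_ite, mul_one, mul_zero]
      rw [Finset.sum_ite_eq]
      by_cases hi : i ∈ Finset.range (h.natDegree + 1)
      · rw [if_pos hi]
      · rw [if_neg hi]
        rw [Finset.mem_range, not_lt] at hi
        rw [coeff_eq_zero_of_natDegree_lt (by omega), map_zero, ZeroMemClass.coe_zero]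
    refine ⟨H, hH, fun x hx => ?_⟩
    have hdeg : H.natDegree < h.natDegree + 1 := by
      rw [Nat.lt_succ_iff, natDegree_le_iff_coeff_eq_zero]
      intro i hi
      rw [hH, coeff_eq_zero_of_natDegree_lt hi, map_zero, ZeroMemClass.coe_zero]
    rw [eval_eq_sum_range' hdeg, eval_eq_sum_range' (Nat.lt_succ_self h.natDegree), map_sum,
      AddSubmonoidClass.coe_finsetSum]
    refine Finset.sum_congr rfl fun i _ => ?_
    have h1 : h.coeff i * x ^ i = (⟨x, hx⟩ : K) ^ i • h.coeff i := by
      rw [Subfield.smul_def, smul_eq_mul, mul_comm]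
      rfl
    rw [h1, map_smul, smul_eq_mul, hH, mul_comm]
    rfl
  obtain ⟨F, hF, hFe⟩ := hL f
  obtain ⟨G, hG, hGe⟩ := hL g
  have hfin : ({x : k | g.eval x = 0} : Set k).Finite := by
    have h := g.roots.toFinset.finite_toSet
    refine h.subset fun x hx => ?_
    rw [Finset.mem_coe, Multiset.mem_toFinset, mem_roots hg.ne_zero]
    exact hx
  have hFG : F * g = G * f := by
    refine eq_of_infinite_eval_eq _ _ ((hS.sdiff hfin).mono fun x hx => ?_)
    have hxK := hSK x hx.1
    have hgx : g.eval x ≠ 0 := hx.2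
    have hq := hv x hx.1 hgx
    change (F * g).eval x = (G * f).eval x
    rw [eval_mul, eval_mul, hFe x hxK, hGe x hxK]
    have h1 : f.eval x = (⟨f.eval x / g.eval x, hq⟩ : K) • g.eval x := by
      rw [Subfield.smul_def, smul_eq_mul]
      exact (div_mul_cancel₀ _ hgx).symm
    have h2 : (l (f.eval x) : k) = f.eval x / g.eval x * (l (g.eval x) : k) := by
      rw [h1, map_smul, smul_eq_mul, MulMemClass.coe_mul]
      congr 1
      change f.eval x / g.eval x = (f.eval x / g.eval x) * g.eval x / g.eval x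
      rw [div_mul_cancel₀ _ hgx]
    rw [h2]
    field_simp
  have hGm : G.Monic := by
    refine monic_of_natDegree_le_of_coeff_eq_one g.natDegree ?_ ?_
    · rw [natDegree_le_iff_coeff_eq_zero]
      intro i hi
      rw [hG, coeff_eq_zero_of_natDegree_lt hi, map_zero, ZeroMemClass.coe_zero]
    · rw [hG, hg.coeff_natDegree, hl1]
      rfl
  have hGd : G.natDegree ≤ g.natDegree := by
    rw [natDegree_le_iff_coeff_eq_zero]
    intro i hi
    rw [hG, coeff_eq_zero_of_natDegree_lt hi, map_zero, ZeroMemClass.coe_zero]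
  have hdvd : g ∣ G := by
    refine hfg.symm.dvd_of_dvd_mul_right ?_
    rw [← hFG]
    exact Dvd.intro_left F rfl
  have hGg : G = g := eq_of_monic_of_dvd_of_natDegree_le hg hGm hdvd hGd
  have hFf : F = f := by
    rw [hGg, mul_comm g f] at hFG
    exact mul_right_cancel₀ hg.ne_zero hFG
  constructor
  · intro i
    have h := hF i
    rw [hFf] at h
    rw [h]
    exact (l (f.coeff i)).2
  · intro i
    have h := hG i
    rw [hGg] at h
    rw [h]
    exact (l (g.coeff i)).2

/-- A polynomial with values in `K` at infinitely many points of `K`. -/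
private lemma rf_poly {k : Type*} [Field k] (K : Subfield k) (S : Set k) (hS : S.Infinite)
    (hSK : ∀ x ∈ S, x ∈ K) (f : k[X]) (hv : ∀ x ∈ S, f.eval x ∈ K) (i : ℕ) : f.coeff i ∈ K := by
  refine (rf_aux K S hS hSK f 1 monic_one isCoprime_one_right (fun x hx _ => ?_)).1 i
  rw [eval_one, div_one]
  exact hv x hx

/-- `f`, `g` coprime, `g` monic, with values `f x / g x` in the subfield `K` at all `x ∈ K` with
`g x ≠ 0`, `K` infinite, the function not constant or not: the coefficients are in `K`.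
Proof: `K`-linear `l : k → K` with `l 1 = 1`; `l(g) f = l(f) g` (equal at infinitely many `x`), `g`
divides `l(g)`, so `l(g) = g`, `l(f) = f`. -/
lemma coeff_mem_of_values {k : Type*} [Field k] (K : Subfield k) (hK : (K : Set k).Infinite)
    (f g : k[X]) (hg : g.Monic) (hfg : IsCoprime f g)
    (hv : ∀ x ∈ K, g.eval x ≠ 0 → f.eval x / g.eval x ∈ K) :
    (∀ i, f.coeff i ∈ K) ∧ ∀ i, g.coeff i ∈ K := by
  exact rf_aux K K hK (fun x hx => hx) f g hg hfg hv

/-- LEMMA RF. -/
theorem rf {k : Type*} [Field k] [Infinite k] {p s : ℕ} [Fact p.Prime] [CharP k p] (hs : s ≠ 0)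
    (K : Subfield k) (hK : ∀ x : k, x ^ p ^ s ∈ K → x ∈ K) (f g : k[X]) (hg : g ≠ 0)
    (hfg : ∀ a : k, f ≠ C a * g)
    (hv : ∀ x : k, g.eval x ≠ 0 → f.eval x / g.eval x ∈ K) : K = ⊤ := by
  classical
  -- reduction to the coprime case
  obtain ⟨d, f1, g1, hd, hf1, hg1, hcop, hmon⟩ : ∃ d f1 g1 : k[X], d ≠ 0 ∧ f = d * f1 ∧
      g = d * g1 ∧ IsCoprime f1 g1 ∧ g1.Monic := by
    have hgcd : gcd f g ≠ 0 := fun h => hg ((gcd_eq_zero_iff _ _).1 h).2
    obtain ⟨f0, hf0⟩ := gcd_dvd_left f g
    obtain ⟨g0, hg0⟩ := gcd_dvd_right f g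
    have hcop0 : IsCoprime f0 g0 := by
      obtain ⟨a, b, hab⟩ := exists_gcd_eq_mul_add_mul f g
      refine ⟨a, b, ?_⟩
      have h1 : gcd f g * (a * f0 + b * g0) = gcd f g * 1 := by
        rw [mul_one]
        calc gcd f g * (a * f0 + b * g0) = (gcd f g * f0) * a + (gcd f g * g0) * b := by ring
          _ = f * a + g * b := by rw [← hf0, ← hg0]
          _ = gcd f g := hab.symm
      exact mul_left_cancel₀ hgcd h1
    have hg00 : g0 ≠ 0 := by
      rintro rfl
      exact hg (by rw [hg0, mul_zero])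
    have hc : g0.leadingCoeff ≠ 0 := leadingCoeff_ne_zero.2 hg00
    have hu : IsUnit (C (g0.leadingCoeff⁻¹)) := isUnit_C.2 (isUnit_iff_ne_zero.2 (inv_ne_zero hc))
    have hCC : C g0.leadingCoeff * C (g0.leadingCoeff⁻¹) = (1 : k[X]) := by
      rw [← C_mul, mul_inv_cancel₀ hc, C_1]
    refine ⟨gcd f g * C g0.leadingCoeff, C (g0.leadingCoeff⁻¹) * f0, C (g0.leadingCoeff⁻¹) * g0,
      mul_ne_zero hgcd (C_ne_zero.2 hc), ?_, ?_, ?_, ?_⟩
    · calc f = gcd f g * f0 := hf0
        _ = gcd f g * (C g0.leadingCoeff * C (g0.leadingCoeff⁻¹)) * f0 := by rw [hCC, mul_one]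
        _ = _ := by ring
    · calc g = gcd f g * g0 := hg0
        _ = gcd f g * (C g0.leadingCoeff * C (g0.leadingCoeff⁻¹)) * g0 := by rw [hCC, mul_one]
        _ = _ := by ring
    · exact (isCoprime_mul_unit_left hu f0 g0).2 hcop0
    · rw [mul_comm]
      exact monic_mul_leadingCoeff_inv hg00
  have hnc : ∀ a : k, f1 ≠ C a * g1 := by
    intro a h
    apply hfg a
    rw [hf1, hg1, h]
    ring
  have hv1 : ∀ x : k, g.eval x ≠ 0 → f1.eval x / g1.eval x ∈ K := by
    intro x hx
    have h := hv x hx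
    rw [hf1, hg1, eval_mul, eval_mul] at h
    rw [hg1, eval_mul] at hx
    rwa [mul_div_mul_left _ _ (left_ne_zero_of_mul hx)] at h
  have hg1x : ∀ x : k, g.eval x ≠ 0 → g1.eval x ≠ 0 := by
    intro x hx
    rw [hg1, eval_mul] at hx
    exact right_ne_zero_of_mul hx
  have hfin : ∀ h : k[X], h ≠ 0 → ({x : k | h.eval x = 0} : Set k).Finite := by
    intro h hh
    refine h.roots.toFinset.finite_toSet.subset fun x hx => ?_
    rw [Finset.mem_coe, Multiset.mem_toFinset, mem_roots hh]
    exact hx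
  have hgood : ({x : k | g.eval x ≠ 0} : Set k).Infinite := by
    have h := (Set.infinite_univ (α := k)).sdiff (hfin g hg)
    refine h.mono fun x hx => ?_
    exact hx.2
  -- K is infinite
  have hKinf : (K : Set k).Infinite := by
    intro hKf
    apply hgood
    have hU : (⋃ v ∈ (K : Set k), {x : k | (f1 - C v * g1).eval x = 0}).Finite :=
      hKf.biUnion fun v _ => hfin _ (sub_ne_zero.2 (hnc v))
    refine hU.subset fun x hx => ?_
    rw [Set.mem_iUnion₂]
    refine ⟨f1.eval x / g1.eval x, hv1 x hx, ?_⟩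
    change (f1 - C (f1.eval x / g1.eval x) * g1).eval x = 0
    rw [eval_sub, eval_mul, eval_C, div_mul_cancel₀ _ (hg1x x hx), sub_self]
  -- the values of `f1` and `g1`
  have htr : ∀ c : k, f1.eval c ∈ K ∧ g1.eval c ∈ K := by
    intro c
    have hgc : g.comp (X + C c) ≠ 0 := by
      intro h
      apply hg
      have h2 : (g.comp (X + C c)).comp (X - C c) = 0 := by rw [h, zero_comp]
      rw [comp_assoc, add_comp, X_comp, C_comp, sub_add_cancel, comp_X] at h2
      exact h2
    have hSinf : ({x : k | x ∈ K ∧ (g.comp (X + C c)).eval x ≠ 0} : Set k).Infinite :=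
      (hKinf.sdiff (hfin _ hgc)).mono fun x hx => ⟨hx.1, hx.2⟩
    have hev : ∀ (h : k[X]) (x : k), (h.comp (X + C c)).eval x = h.eval (x + c) := by
      intro h x
      rw [eval_comp, eval_add, eval_X, eval_C]
    have h := rf_aux K {x : k | x ∈ K ∧ (g.comp (X + C c)).eval x ≠ 0} hSinf (fun x hx => hx.1)
      (f1.comp (X + C c)) (g1.comp (X + C c)) (hmon.comp_X_add_C c)
      (hcop.map (compRingHom (X + C c))) (fun x hx _ => by
        have h1 := hx.2
        rw [hev] at h1
        rw [hev, hev]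
        exact hv1 _ h1)
    have h0 : ∀ h : k[X], (h.comp (X + C c)).coeff 0 = h.eval c := by
      intro h
      rw [coeff_zero_eq_eval_zero, hev, zero_add]
    exact ⟨h0 f1 ▸ h.1 0, h0 g1 ▸ h.2 0⟩
  -- a polynomial which is not constant
  obtain ⟨P, hPv, hPd⟩ : ∃ P : k[X], (∀ x, P.eval x ∈ K) ∧ P.natDegree ≠ 0 := by
    by_cases h1 : f1.natDegree = 0
    · by_cases h2 : g1.natDegree = 0
      · exfalso
        have h3 : g1 = 1 := hmon.natDegree_eq_zero.1 h2
        apply hnc (f1.coeff 0)
        rw [h3, mul_one]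
        exact eq_C_of_natDegree_eq_zero h1
      · exact ⟨g1, fun x => (htr x).2, h2⟩
    · exact ⟨f1, fun x => (htr x).1, h1⟩
  obtain ⟨j, hj⟩ : ∃ j, j = P.natDegree := ⟨_, rfl⟩
  have hcj : ∀ c : k, c ^ j ∈ K := by
    have hmul : ∀ c : k, P.coeff j * c ^ j ∈ K := by
      intro c
      have h := rf_poly K K hKinf (fun x hx => hx) (P.comp (C c * X)) (fun x _ => by
        rw [eval_comp]
        exact hPv _) j
      rwa [comp_C_mul_X_coeff] at h
    have h1 : P.coeff j ∈ K := by
      have h := hmul 1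
      rwa [one_pow, mul_one] at h
    have h2 : P.coeff j ≠ 0 := by
      rw [hj, coeff_natDegree]
      intro h
      apply hPd
      rw [leadingCoeff_eq_zero.1 h, natDegree_zero]
    intro c
    have h := K.div_mem (hmul c) h1
    rwa [mul_div_cancel_left₀ _ h2] at h
  obtain ⟨a, j', hj', hjj⟩ := Nat.exists_eq_pow_mul_and_not_dvd (hj ▸ hPd) p
    (Fact.out : p.Prime).ne_one
  have hinj : Function.Injective fun x : k => x ^ p ^ a := by
    intro x y hxy
    have h : (x - y) ^ p ^ a = 0 := by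
      rw [sub_pow_char_pow]
      exact sub_eq_zero.2 hxy
    exact sub_eq_zero.1 (eq_zero_of_pow_eq_zero h)
  have hpa : ∀ c : k, c ^ p ^ a ∈ K := by
    intro c
    have hj0 : j' ≠ 0 := by
      rintro rfl
      exact hj' (dvd_zero p)
    have hSinf : ((fun x : k => x ^ p ^ a) '' (K : Set k)).Infinite :=
      hKinf.image hinj.injOn
    have h := rf_poly K _ hSinf (by
      rintro _ ⟨x, hx, rfl⟩
      exact K.pow_mem hx _) ((X + C (c ^ p ^ a)) ^ j') (by
      rintro _ ⟨x, hx, rfl⟩
      rw [eval_pow, eval_add, eval_X, eval_C]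
      change (x ^ p ^ a + c ^ p ^ a) ^ j' ∈ K
      rw [← add_pow_char_pow, ← pow_mul, ← hjj]
      exact hcj _) (j' - 1)
    rw [coeff_X_add_C_pow] at h
    have h1 : j' - (j' - 1) = 1 := by omega
    have h2 : j'.choose (j' - 1) = j' := by
      rw [← Nat.choose_symm (show j' - 1 ≤ j' by omega), h1, Nat.choose_one_right]
    rw [h1, h2, pow_one] at h
    have h3 : (j' : k) ≠ 0 := by
      intro h4
      exact hj' ((CharP.cast_eq_zero_iff k p j').1 h4)
    have h5 := K.div_mem h (natCast_mem K j')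
    rwa [mul_div_cancel_right₀ _ h3] at h5
  have hroot : ∀ (n : ℕ) (c : k), c ^ p ^ (s * n) ∈ K → c ∈ K := by
    intro n
    induction n with
    | zero =>
      intro c hc
      rwa [mul_zero, pow_zero, pow_one] at hc
    | succ n ih =>
      intro c hc
      apply ih
      apply hK
      rwa [← pow_mul, ← pow_add, ← Nat.mul_succ]
  rw [eq_top_iff]
  intro c _
  apply hroot a
  have h1 : s * a = a + (s * a - a) := by
    have h2 : 1 * a ≤ s * a := Nat.mul_le_mul_right a (Nat.one_le_iff_ne_zero.2 hs)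
    omega
  rw [h1, pow_add, pow_mul]
  exact K.pow_mem (hpa c) _

end Pool.Agent.LibHG80
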