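import Mathlib

/-!
Norm form rings: `R` a subring of `F` containing the coefficients of `q` (monic of degree `n ≥ 1`, without
roots) and all `r ^ k / q(r)`, `k ≤ n`; `F` has all `m`-th roots.  Then `R` is closed under roots, every pair has a
Bezout gcd, and `R` has stable range one.
-/

namespace HGR

open Polynomial Finset

variable {F : Type*} [Field F]

/-- The hypotheses on `R`. -/
structure NR (R : Subring F) (q : F[X]) (n : ℕ) : Prop where
  npos : 1 ≤ n
  monic : q.Monic
  deg : q.natDegree = n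
  ne : ∀ r : F, q.eval r ≠ 0
  coef : ∀ k, q.coeff k ∈ R
  pow : ∀ r : F, ∀ k ≤ n, r ^ k / q.eval r ∈ R

variable {R : Subring F} {q : F[X]} {n : ℕ}

/-- Evaluation as a sum with the top term split off. -/
theorem NR.eval_eq (h : NR R q n) (r : F) :
    q.eval r = ∑ k ∈ range n, q.coeff k * r ^ k + r ^ n := by
  rw [eval_eq_sum_range, h.deg, sum_range_succ]
  have h1 : q.coeff n = 1 := by
    have := h.monic.coeff_natDegree
    rwa [h.deg] at this
  rw [h1, one_mul]

/-- Pruefer elements: `Y + r X = 1` with `X, r X, Y, r Y` in `R`. -/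
theorem NR.pruefer (h : NR R q n) (r : F) :
    ∃ X Y : F, X ∈ R ∧ r * X ∈ R ∧ Y ∈ R ∧ r * Y ∈ R ∧ Y + r * X = 1 := by
  have hq := h.ne r
  have hn := h.npos
  refine ⟨r ^ (n - 1) / q.eval r, (∑ k ∈ range n, q.coeff k * r ^ k) / q.eval r, h.pow r _ (by omega), ?_, ?_, ?_, ?_⟩
  · have : r * (r ^ (n - 1) / q.eval r) = r ^ n / q.eval r := by
      rw [← mul_div_assoc, ← pow_succ', Nat.sub_add_cancel hn]
    rw [this]; exact h.pow r n le_rfl
  · rw [Finset.sum_div]
    refine R.sum_mem fun k hk => ?_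
    rw [mul_div_assoc]
    exact R.mul_mem (h.coef k) (h.pow r k (by have := mem_range.1 hk; omega))
  · rw [Finset.sum_div, Finset.mul_sum]
    refine R.sum_mem fun k hk => ?_
    have : r * (q.coeff k * r ^ k / q.eval r) = q.coeff k * (r ^ (k + 1) / q.eval r) := by
      rw [pow_succ]; ring
    rw [this]
    exact R.mul_mem (h.coef k) (h.pow r (k + 1) (by have := mem_range.1 hk; omega))
  · have h1 : r * (r ^ (n - 1) / q.eval r) = r ^ n / q.eval r := by
      rw [← mul_div_assoc, ← pow_succ', Nat.sub_add_cancel hn]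
    rw [h1, ← add_div, ← h.eval_eq r, div_self hq]

/-- `R` is closed under roots. -/
theorem NR.root (h : NR R q n) {x : F} {m : ℕ} (hm : 1 ≤ m) (hx : x ^ m ∈ R) : x ∈ R := by
  obtain ⟨X, Y, hX, hxX, hY, hxY, h1⟩ := h.pruefer x
  have key : x = ∑ i ∈ range (m - 1 + 1), x * ((Y ^ i * (x * X) ^ (m - 1 - i)) * ((m - 1).choose i : F)) := by
    rw [← Finset.mul_sum, ← add_pow, h1, one_pow, mul_one]
  rw [key]
  refine R.sum_mem fun i hi => ?_
  have hi' : i < m - 1 + 1 := mem_range.1 hi
  rcases Nat.eq_zero_or_pos i with h0 | h0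
  · subst h0
    have : x * ((Y ^ 0 * (x * X) ^ (m - 1 - 0)) * ((m - 1).choose 0 : F)) = x ^ m * X ^ (m - 1) := by
      rw [pow_zero, Nat.sub_zero, Nat.choose_zero_right, Nat.cast_one, one_mul, mul_one, mul_pow, ← mul_assoc,
        ← pow_succ', Nat.sub_add_cancel hm]
    rw [this]
    exact R.mul_mem hx (R.pow_mem hX _)
  · have : x * ((Y ^ i * (x * X) ^ (m - 1 - i)) * ((m - 1).choose i : F))
        = (x * Y) * (Y ^ (i - 1) * (x * X) ^ (m - 1 - i) * ((m - 1).choose i : F)) := by
      have h2 : Y ^ i = Y * Y ^ (i - 1) := by rw [← pow_succ', Nat.sub_add_cancel h0]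
      rw [h2]; ring
    rw [this]
    exact R.mul_mem hxY (R.mul_mem (R.mul_mem (R.pow_mem hY _) (R.pow_mem hxX _)) (natCast_mem R _))

variable (hdiv : ∀ x : F, ∀ m : ℕ, 1 ≤ m → ∃ y : F, y ^ m = x)

include hdiv in
/-- Bezout gcd of a pair. -/
theorem NR.gcd (h : NR R q n) {x y : F} (hxy : x ≠ 0 ∨ y ≠ 0) :
    ∃ g : F, g ≠ 0 ∧ x / g ∈ R ∧ y / g ∈ R ∧ ∃ u ∈ R, ∃ v ∈ R, u * (x / g) + v * (y / g) = 1 := by
  by_cases hy : y = 0
  · have hx : x ≠ 0 := by
      rcases hxy with h | h
      · exact h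
      · exact absurd hy h
    refine ⟨x, hx, ?_, ?_, 1, R.one_mem, 0, R.zero_mem, ?_⟩
    · rw [div_self hx]; exact R.one_mem
    · rw [hy, zero_div]; exact R.zero_mem
    · rw [div_self hx]; ring
  · obtain ⟨w, hw⟩ := hdiv (q.eval (x / y)) n h.npos
    have hw0 : w ≠ 0 := by
      intro h0
      rw [h0, zero_pow (by have := h.npos; omega)] at hw
      exact h.ne _ hw.symm
    have hn := h.npos
    set r := x / y with hr
    have hx : x = r * y := by rw [hr, div_mul_cancel₀ _ hy]
    have e1 : y / (y * w) = 1 / w := by field_simp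
    have e2 : x / (y * w) = r / w := by rw [hx]; field_simp
    have m1 : 1 / w ∈ R := by
      refine h.root hn ?_
      rw [div_pow, one_pow, hw]
      have := h.pow r 0 (by omega)
      rwa [pow_zero] at this
    have m2 : r / w ∈ R := by
      refine h.root hn ?_
      rw [div_pow, hw]
      exact h.pow r n le_rfl
    refine ⟨y * w, mul_ne_zero hy hw0, ?_, ?_, ∑ k ∈ range n, q.coeff (k + 1) * (r / w) ^ k * (1 / w) ^ (n - (k + 1)), ?_,
      q.coeff 0 * (1 / w) ^ (n - 1), ?_, ?_⟩
    · rw [e2]; exact m2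
    · rw [e1]; exact m1
    · exact R.sum_mem fun k _ => R.mul_mem (R.mul_mem (h.coef _) (R.pow_mem m2 _)) (R.pow_mem m1 _)
    · exact R.mul_mem (h.coef 0) (R.pow_mem m1 _)
    · rw [e1, e2, Finset.sum_mul]
      have t1 : ∑ k ∈ range n, q.coeff (k + 1) * (r / w) ^ k * (1 / w) ^ (n - (k + 1)) * (r / w)
          = ∑ k ∈ range n, q.coeff (k + 1) * r ^ (k + 1) / w ^ n := by
        refine Finset.sum_congr rfl fun k hk => ?_
        have hk' : k < n := mem_range.1 hk
        have : w ^ n = w ^ (k + 1) * w ^ (n - (k + 1)) := by rw [← pow_add]; congr 1; omega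
        rw [this]
        rw [div_pow, one_div, inv_pow]
        field_simp
        ring
      have t2 : q.coeff 0 * (1 / w) ^ (n - 1) * (1 / w) = q.coeff 0 * r ^ 0 / w ^ n := by
        rw [mul_assoc, ← pow_succ, Nat.sub_add_cancel hn, one_div, inv_pow, pow_zero, mul_one, div_eq_mul_inv]
      rw [t1, t2, ← Finset.sum_range_succ' (fun k => q.coeff k * r ^ k / w ^ n) n, ← Finset.sum_div, hw]
      have : ∑ k ∈ range (n + 1), q.coeff k * r ^ k = q.eval r := by
        rw [eval_eq_sum_range, h.deg]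
      rw [this, div_self (h.ne r)]

include hdiv in
/-- Stable range one. -/
theorem NR.sr (h : NR R q n) {x y u v : F} (hx : x ∈ R) (hy : y ∈ R) (hu : u ∈ R) (hv : v ∈ R)
    (huv : u * x + v * y = 1) : ∃ t ∈ R, x + t * y ≠ 0 ∧ (x + t * y)⁻¹ ∈ R := by
  have hn := h.npos
  by_cases hy0 : y = 0
  · subst hy0
    refine ⟨0, R.zero_mem, ?_, ?_⟩
    · intro h0
      rw [mul_zero, add_zero] at h0
      rw [h0] at huv
      simp at huv
    · rw [mul_zero, add_zero]
      have h1 : u * x = 1 := by rw [mul_zero, add_zero] at huv; exact huv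
      have : x⁻¹ = u := (eq_inv_of_mul_eq_one_left h1).symm
      rw [this]; exact hu
  · obtain ⟨z, hz⟩ := hdiv x n hn
    have hzR : z ∈ R := h.root hn (by rw [hz]; exact hx)
    set t := ∑ k ∈ range n, q.coeff k * z ^ k * y ^ (n - 1 - k) with ht
    have htR : t ∈ R := R.sum_mem fun k _ => R.mul_mem (R.mul_mem (h.coef _) (R.pow_mem hzR _)) (R.pow_mem hy _)
    have hN : x + t * y = y ^ n * q.eval (z / y) := by
      rw [h.eval_eq, mul_add, ht, Finset.sum_mul, Finset.mul_sum, add_comm]
      congr 1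
      · refine Finset.sum_congr rfl fun k hk => ?_
        have hk' : k < n := mem_range.1 hk
        have e : y ^ n = y ^ k * y ^ (n - 1 - k) * y := by
          rw [← pow_add, ← pow_succ]; congr 1; omega
        rw [div_pow, e]
        field_simp
      · rw [div_pow, hz]
        field_simp
    have hN0 : x + t * y ≠ 0 := by
      rw [hN]
      exact mul_ne_zero (pow_ne_zero _ hy0) (h.ne _)
    refine ⟨t, htR, hN0, ?_⟩
    have hu' : u * z ^ (n - 1) * z + v * y = 1 := by
      rw [mul_assoc, ← pow_succ, Nat.sub_add_cancel hn, hz]; exact huv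
    have key : (x + t * y)⁻¹ = ∑ k ∈ range (n + 1),
        (u * z ^ (n - 1)) ^ k * v ^ (n - k) * (n.choose k : F) * ((z / y) ^ k / q.eval (z / y)) := by
      have e1 : (1 : F) = ∑ k ∈ range (n + 1), (u * z ^ (n - 1) * z) ^ k * (v * y) ^ (n - k) * (n.choose k : F) := by
        rw [← add_pow, hu', one_pow]
      have e2 : (x + t * y)⁻¹ = (1 : F) * (y ^ n * q.eval (z / y))⁻¹ := by rw [hN, one_mul]
      rw [e2, e1, Finset.sum_mul]
      refine Finset.sum_congr rfl fun k hk => ?_
      have hk' : k < n + 1 := mem_range.1 hk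
      have e : y ^ n = y ^ k * y ^ (n - k) := by
        rw [← pow_add]; congr 1; omega
      have hq := h.ne (z / y)
      rw [e, mul_pow, mul_pow, div_pow]
      field_simp
      ring
    rw [key]
    exact R.sum_mem fun k hk => R.mul_mem (R.mul_mem (R.mul_mem (R.pow_mem (R.mul_mem hu (R.pow_mem hzR _)) _)
      (R.pow_mem hv _)) (natCast_mem R _)) (h.pow _ k (by have := mem_range.1 hk; omega))

end HGR
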