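import Pool.Agent.LibHG80.RowPrf

set_option autoImplicit false

namespace Pool.Agent.LibHG80

open Module Polynomial

namespace Dat

variable {F κ A : Type*} [Field F] [Field κ] [Algebra F κ] [AddCommGroup A] {p s : ℕ}
  [hp : Fact p.Prime] [hc : CharP F p] (d : Dat F κ A p s)

/-! ### Row Bez
g ^ n = sum_k a_k x ^ k y ^ (n-k) (g exists by hdiv; if y = 0 take g = x). (x/g) ^ n = r ^ n / P(r),
(y/g) ^ n = 1 / P(r), r = x / y: so x/g, y/g in R by root_closed and
sum a_k (x/g) ^ k (y/g) ^ (n-k) = 1 (a_0 y' ^ n + x' * (...)). content: induction on the finset. -/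
theorem bezout (x y : F) (h : x ≠ 0 ∨ y ≠ 0) : ∃ g x' y' u v : F, g ≠ 0 ∧ x = g * x' ∧
    y = g * y' ∧ x' ∈ d.R ∧ y' ∈ d.R ∧ u ∈ d.R ∧ v ∈ d.R ∧ u * x' + v * y' = 1 := by
  by_cases hy : y = 0
  · have hx : x ≠ 0 := by
      rcases h with h | h
      · exact h
      · exact absurd hy h
    refine ⟨x, 1, 0, 1, 0, hx, by ring, by rw [hy]; ring, d.R.one_mem, d.R.zero_mem, d.R.one_mem,
      d.R.zero_mem, by ring⟩
  · have hn : 0 < d.n := Nat.lt_of_lt_of_le (by norm_num) d.hdim
    have hPn : d.P.natDegree = d.n := d.B.natDegree_minpoly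
    obtain ⟨g, hg⟩ := d.hdiv d.n hn (y ^ d.n * d.P.eval (x / y))
    have hP := d.P_eval_ne (x / y)
    have hN : y ^ d.n * d.P.eval (x / y) ≠ 0 := mul_ne_zero (pow_ne_zero _ hy) hP
    have hg0 : g ≠ 0 := by
      rintro rfl
      rw [zero_pow hn.ne'] at hg
      exact hN hg.symm
    have hx'n : (x / g) ^ d.n = (x / y) ^ d.n / d.P.eval (x / y) := by
      rw [div_pow, hg, div_pow, div_div]
    have hy'n : (y / g) ^ d.n = (x / y) ^ 0 / d.P.eval (x / y) := by
      rw [div_pow, hg, pow_zero, div_mul_eq_div_div, div_self (pow_ne_zero _ hy)]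
    have hx' : x / g ∈ d.R := d.root_closed hn (by rw [hx'n]; exact d.pow_div_mem_R _ le_rfl)
    have hy' : y / g ∈ d.R := d.root_closed hn (by rw [hy'n]; exact d.pow_div_mem_R _ (Nat.zero_le _))
    have hy'0 : y / g ≠ 0 := div_ne_zero hy hg0
    have hr : x / y = (x / g) / (y / g) := by
      field_simp
    have hxg : x = g * (x / g) := by field_simp
    have hyg : y = g * (y / g) := by field_simp
    generalize x / g = x' at *
    generalize y / g = y' at *
    have h1 : y' ^ d.n * d.P.eval (x' / y') = 1 := by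
      rw [← hr, hy'n, pow_zero, one_div, inv_mul_cancel₀ hP]
    refine ⟨g, x', y', ∑ k ∈ Finset.range d.n, d.P.coeff (k + 1) * x' ^ k * y' ^ (d.n - 1 - k),
      d.P.coeff 0 * y' ^ (d.n - 1), hg0, hxg, hyg, hx', hy', ?_, ?_, ?_⟩
    · exact d.R.sum_mem fun k _ => d.R.mul_mem (d.R.mul_mem (d.coeff_mem_R _) (d.R.pow_mem hx' _))
        (d.R.pow_mem hy' _)
    · exact d.R.mul_mem (d.coeff_mem_R _) (d.R.pow_mem hy' _)
    · rw [← h1, eval_eq_sum_range, hPn, Finset.sum_range_succ', mul_add, Finset.mul_sum,
        Finset.sum_mul]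
      congr 1
      · refine Finset.sum_congr rfl fun k hk => ?_
        have hk' : k < d.n := Finset.mem_range.1 hk
        have e : y' ^ d.n = y' ^ (k + 1) * y' ^ (d.n - 1 - k) := by
          rw [← pow_add]
          congr 1
          omega
        rw [e, div_pow]
        field_simp
        ring
      · have e : y' ^ d.n = y' ^ (d.n - 1) * y' := by
          rw [← pow_succ]
          congr 1
          omega
        rw [e, pow_zero]
        ring

theorem content {ι : Type*} (S : Finset ι) (x : ι → F) (hx : ∃ i ∈ S, x i ≠ 0) :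
    ∃ (g : F) (x' u : ι → F), g ≠ 0 ∧ (∀ i ∈ S, x i = g * x' i ∧ x' i ∈ d.R ∧ u i ∈ d.R) ∧
      ∑ i ∈ S, u i * x' i = 1 := by
  classical
  induction S using Finset.induction_on with
  | empty =>
    obtain ⟨i, hi, _⟩ := hx
    exact absurd hi (Finset.notMem_empty i)
  | insert a S ha ih =>
    by_cases hS : ∃ i ∈ S, x i ≠ 0
    · obtain ⟨g₀, x₀, u₀, hg₀, hi, hs⟩ := ih hS
      obtain ⟨g, s', t', u, v, hg, h1, h2, hs', ht', hu, hv, huv⟩ :=
        d.bezout g₀ (x a) (Or.inl hg₀)
      refine ⟨g, fun i => if i = a then t' else s' * x₀ i, fun i => if i = a then v else u * u₀ i,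
        hg, ?_, ?_⟩
      · intro i his
        rcases Finset.mem_insert.1 his with rfl | his
        · simp only [if_true]
          exact ⟨h2, ht', hv⟩
        · have hia : i ≠ a := fun h => ha (h ▸ his)
          simp only [if_neg hia]
          obtain ⟨e1, e2, e3⟩ := hi i his
          refine ⟨?_, d.R.mul_mem hs' e2, d.R.mul_mem hu e3⟩
          rw [e1, h1]
          ring
      · rw [Finset.sum_insert ha]
        have : ∑ i ∈ S, (if i = a then v else u * u₀ i) * (if i = a then t' else s' * x₀ i) =
            u * s' * ∑ i ∈ S, u₀ i * x₀ i := by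
          rw [Finset.mul_sum]
          refine Finset.sum_congr rfl fun i his => ?_
          have hia : i ≠ a := fun h => ha (h ▸ his)
          rw [if_neg hia, if_neg hia]
          ring
        rw [this, hs]
        simp only [if_true]
        linear_combination huv
    · have hxa : x a ≠ 0 := by
        obtain ⟨i, hi, hi0⟩ := hx
        rcases Finset.mem_insert.1 hi with rfl | hi
        · exact hi0
        · exact absurd ⟨i, hi, hi0⟩ hS
      refine ⟨x a, fun i => if i = a then 1 else 0, fun i => if i = a then 1 else 0, hxa, ?_, ?_⟩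
      · intro i his
        rcases Finset.mem_insert.1 his with rfl | his
        · simp only [if_true]
          exact ⟨by ring, d.R.one_mem, d.R.one_mem⟩
        · have hia : i ≠ a := fun h => ha (h ▸ his)
          have hi0 : x i = 0 := by
            by_contra h
            exact hS ⟨i, his, h⟩
          simp only [if_neg hia]
          exact ⟨by rw [hi0]; ring, d.R.zero_mem, d.R.zero_mem⟩
      · rw [Finset.sum_insert ha]
        have : ∑ i ∈ S, (if i = a then (1 : F) else 0) * (if i = a then 1 else 0) = 0 := by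
          refine Finset.sum_eq_zero fun i his => ?_
          have hia : i ≠ a := fun h => ha (h ▸ his)
          rw [if_neg hia]
          ring
        rw [this]
        simp

end Dat

end Pool.Agent.LibHG80
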