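import Pool.Agent.LibHG80.RowBez
import Pool.Agent.LibHG80.RowSr
import Pool.Agent.LibHG80.RowRad

set_option autoImplicit false

namespace Pool.Agent.LibHG80

open Module Polynomial

namespace Dat

variable {F κ A : Type*} [Field F] [Field κ] [Algebra F κ] [AddCommGroup A] {p s : ℕ}
  [hp : Fact p.Prime] [hc : CharP F p] (d : Dat F κ A p s)

/-! ### Row C0
x_i in UU for i /= first. If all x_i = 0 (i /= first): x = algebraMap (co first x): c_alg. Otherwise
content: x_i = g x_i', g = sum u_i x_i in UU; e ^ 2 = g, e in R (root_closed), e in UU (UU_radical).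
co first x and e ^ 3 are coprime (from sum u_i co i x = 1: (co first x, g) = R), stable_range:
u := co first x + e ^ 3 t is a unit; e ^ 3 t = e t g = sum_{i /= first} (e t u_i) x_i, with
e t u_i in UU: the functional phi = sum_{i /= first} (e t u_i) . co i has Tv c (b first) phi
(mem_UU', Tv.add, Finset induction), so c x = c (x + phi(x) b_first) =: c x1, co first x1 = u.
Then Tv c (-(sum_{i /= first} (x_i / u) . b i)) (co first) (Tv.smul_iff, Tv.add_left) maps x1 to
u . b first = algebraMap u: c_alg. -/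

omit hp hc in
private lemma c0_co_b (i j : Fin d.n) : d.co i (d.b j) = if i = j then 1 else 0 := by
  have h : d.b j = d.B.basis j := (d.B.basis_eq_pow j).symm
  rw [co, h, Basis.coord_apply, Basis.repr_self, Finsupp.single_apply]
  by_cases hij : i = j
  · rw [if_pos hij, if_pos hij.symm]
  · rw [if_neg hij, if_neg (fun h => hij h.symm)]

omit hp hc in
private lemma c0_sum (x : κ) : ∑ j, d.co j x • d.b j = x := by
  have h := d.B.basis.sum_repr x
  conv_rhs => rw [← h]
  refine Finset.sum_congr rfl fun j _ => ?_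
  rw [d.B.basis_eq_pow j]
  rfl

omit hp hc in
private lemma c0_tv_smul {w : κ} {φ : κ →ₗ[F] F} (a : F) (h : Tv d.c w (a • φ)) (h0 : φ w = 0) :
    Tv d.c (a • w) φ := by
  refine ⟨by rw [map_smul, h0, smul_zero], fun x hx => ?_⟩
  rw [← h.2 x hx, LinearMap.smul_apply, smul_eq_mul, smul_smul, mul_comm]

omit hp hc in
private lemma c0_b_first : d.b d.first = 1 := pow_zero _

omit hp hc in
private lemma c0_const {x : κ} (hx : x ≠ 0) (h : ∀ i, i ≠ d.first → d.co i x = 0) : d.c x = 0 := by
  classical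
  have h1 : x = algebraMap F κ (d.co d.first x) := by
    conv_lhs => rw [← d.c0_sum x]
    rw [Finset.sum_eq_single d.first, c0_b_first, Algebra.algebraMap_eq_smul_one]
    · intro i _ hi
      rw [h i hi, zero_smul]
    · intro hn
      exact absurd (Finset.mem_univ _) hn
  rw [h1]
  refine d.c_alg _ fun h0 => hx ?_
  rw [h1, h0, map_zero]

omit hp hc in
private lemma c0_tv_left (S : Finset (Fin d.n)) (hS : d.first ∉ S) (a : Fin d.n → F)
    (ha : ∀ i ∈ S, a i ∈ d.UU) : Tv d.c (∑ i ∈ S, a i • d.b i) (d.co d.first) := by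
  classical
  induction S using Finset.induction_on with
  | empty =>
    rw [Finset.sum_empty]
    exact ⟨map_zero _, fun x _ => by rw [smul_zero, add_zero]⟩
  | insert j S hj ih =>
    rw [Finset.sum_insert hj]
    have hj0 : d.first ≠ j := fun h0 => hS (h0 ▸ Finset.mem_insert_self j S)
    refine Tv.add_left ?_ (ih (fun h0 => hS (Finset.mem_insert_of_mem h0))
      fun i hi => ha i (Finset.mem_insert_of_mem hi))
    refine d.c0_tv_smul (a j) ((d.mem_UU'.1 (ha j (Finset.mem_insert_self j S))) j d.first hj0.symm)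
      ?_
    rw [d.c0_co_b, if_neg hj0]

omit hp hc in
private lemma c0_tv_right (S : Finset (Fin d.n)) (hS : d.first ∉ S) (a : Fin d.n → F)
    (ha : ∀ i ∈ S, a i ∈ d.UU) : Tv d.c (d.b d.first) (∑ i ∈ S, a i • d.co i) := by
  classical
  induction S using Finset.induction_on with
  | empty =>
    rw [Finset.sum_empty]
    exact Tv.zero _
  | insert j S hj ih =>
    rw [Finset.sum_insert hj]
    have hj0 : d.first ≠ j := fun h0 => hS (h0 ▸ Finset.mem_insert_self j S)
    exact Tv.add ((d.mem_UU'.1 (ha j (Finset.mem_insert_self j S))) d.first j hj0)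
      (ih (fun h0 => hS (Finset.mem_insert_of_mem h0)) fun i hi =>
        ha i (Finset.mem_insert_of_mem hi))

theorem c_prim_eq_zero {x : κ} (hx : d.Prim x) (h : ∀ i, i ≠ d.first → d.co i x ∈ d.UU) :
    d.c x = 0 := by
  classical
  obtain ⟨hO, v, hv, hv1⟩ := hx
  have hx0 : x ≠ 0 := by
    rintro rfl
    simp at hv1
  set S : Finset (Fin d.n) := Finset.univ.erase d.first with hSdef
  have hS : d.first ∉ S := Finset.notMem_erase _ _
  have hmem : ∀ i ∈ S, i ≠ d.first := fun i hi => (Finset.mem_erase.1 hi).1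
  by_cases hall : ∀ i ∈ S, d.co i x = 0
  · exact d.c0_const hx0 fun i hi => hall i (Finset.mem_erase.2 ⟨hi, Finset.mem_univ i⟩)
  push Not at hall
  obtain ⟨g, x', u, hg, hxu, hu1⟩ := d.content S (fun i => d.co i x) hall
  have hgs : g = ∑ i ∈ S, u i * d.co i x := by
    have h1 : ∑ i ∈ S, u i * d.co i x = g * ∑ i ∈ S, u i * x' i := by
      rw [Finset.mul_sum]
      exact Finset.sum_congr rfl fun i hi => by rw [(hxu i hi).1]; ring
    rw [h1, hu1, mul_one]
  have hgU : g ∈ d.UU := by
    rw [hgs]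
    exact d.UU.sum_mem fun i hi => (hxu i hi).2.2 _ (h i (hmem i hi))
  obtain ⟨e, he⟩ := d.hdiv 2 (by norm_num) g
  have heR : e ∈ d.R := d.root_closed (m := 2) (by norm_num) (by rw [he]; exact d.UU_le_R hgU)
  have heU : e ∈ d.UU := d.UU_radical heR (m := 2) (by rw [he]; exact hgU)
  -- the first coordinate is prime to `e ^ 3`
  set m : F := ∑ i ∈ S, v i * x' i with hm
  have hmR : m ∈ d.R := d.R.sum_mem fun i hi => d.R.mul_mem (hv i) (hxu i hi).2.1
  have h1 : v d.first * d.co d.first x + m * e ^ 2 = 1 := by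
    rw [← hv1, ← Finset.add_sum_erase _ _ (Finset.mem_univ d.first), he, hm, Finset.sum_mul]
    congr 1
    exact Finset.sum_congr rfl fun i hi => by rw [(hxu i hi).1]; ring
  have h2 : (v d.first ^ 2 * d.co d.first x + 2 * v d.first * m * e ^ 2) * d.co d.first x +
      (m ^ 2 * e) * e ^ 3 = 1 := by
    have : (v d.first * d.co d.first x + m * e ^ 2) ^ 2 = 1 := by rw [h1, one_pow]
    rw [← this]
    ring
  have h2R : (2 : F) ∈ d.R := by
    rw [← one_add_one_eq_two]
    exact d.R.add_mem d.R.one_mem d.R.one_mem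
  obtain ⟨t, ht, hU⟩ := d.stable_range (hO d.first) (d.R.pow_mem heR 3)
    (d.R.add_mem (d.R.mul_mem (d.R.pow_mem (hv _) 2) (hO _))
      (d.R.mul_mem (d.R.mul_mem (d.R.mul_mem h2R (hv _)) hmR) (d.R.pow_mem heR 2)))
    (d.R.mul_mem (d.R.pow_mem hmR 2) heR) h2
  set y : F := d.co d.first x + e ^ 3 * t with hy
  -- the first transvection
  set φ : κ →ₗ[F] F := ∑ i ∈ S, (t * u i * e) • d.co i with hφ
  have hTφ : Tv d.c (d.b d.first) φ := d.c0_tv_right S hS _ fun i hi =>
    (d.R.mul_mem ht (hxu i hi).2.2) e heU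
  have hφx : φ x = e ^ 3 * t := by
    rw [hφ, LinearMap.sum_apply]
    have h3 : ∑ i ∈ S, ((t * u i * e) • d.co i) x = t * e * ∑ i ∈ S, u i * d.co i x := by
      rw [Finset.mul_sum]
      exact Finset.sum_congr rfl fun i _ => by rw [LinearMap.smul_apply, smul_eq_mul]; ring
    rw [h3, ← hgs, ← he]
    ring
  set x1 : κ := x + φ x • d.b d.first with hx1
  have hx10 : x1 ≠ 0 := ne_zero_of_inv hTφ.pr.1 hx0
  have hc1 : d.c x1 = d.c x := hTφ.2 x hx0
  have hco1 : d.co d.first x1 = y := by
    rw [hx1, map_add, map_smul, d.c0_co_b, if_pos rfl, hφx, smul_eq_mul, mul_one]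
  have hco2 : ∀ i, i ≠ d.first → d.co i x1 = d.co i x := by
    intro i hi
    rw [hx1, map_add, map_smul, d.c0_co_b, if_neg hi, smul_zero, add_zero]
  -- the second one
  set W : κ := ∑ i ∈ S, (-y⁻¹ * d.co i x) • d.b i with hW
  have hTW : Tv d.c W (d.co d.first) := d.c0_tv_left S hS _ fun i hi =>
    (d.R.neg_mem hU.2.2) _ (h i (hmem i hi))
  have hc2 : d.c (x1 + d.co d.first x1 • W) = d.c x1 := hTW.2 x1 hx10
  rw [← hc1, ← hc2]
  refine d.c0_const (ne_zero_of_inv hTW.pr.1 hx10) fun i hi => ?_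
  have hiS : i ∈ S := Finset.mem_erase.2 ⟨hi, Finset.mem_univ i⟩
  have h4 : d.co i W = -y⁻¹ * d.co i x := by
    rw [hW, map_sum, Finset.sum_eq_single i]
    · rw [map_smul, d.c0_co_b, if_pos rfl, smul_eq_mul, mul_one]
    · intro j _ hj
      rw [map_smul, d.c0_co_b, if_neg hj.symm, smul_zero]
    · intro hn
      exact absurd hiS hn
  rw [map_add, map_smul, h4, hco1, hco2 i hi, smul_eq_mul]
  have hy0 : y ≠ 0 := hU.1
  field_simp
  ring

end Dat

end Pool.Agent.LibHG80
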