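import Pool.Agent.LibHG80.RowInv
import Pool.Agent.LibHG80.RowC0

set_option autoImplicit false

namespace Pool.Agent.LibHG80

open Module Polynomial

namespace Dat

variable {F κ A : Type*} [Field F] [Field κ] [Algebra F κ] [AddCommGroup A] {p s : ℕ}
  [hp : Fact p.Prime] [hc : CharP F p] (d : Dat F κ A p s)

omit hp hc in
private lemma cong_co_one {i : Fin d.n} (hi : i ≠ d.first) : d.co i (1 : κ) = 0 := by
  have h1 : (1 : κ) = d.B.basis d.first := by
    rw [d.B.basis_eq_pow]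
    exact (pow_zero d.B.gen).symm
  unfold co
  rw [h1, Basis.coord_apply, Basis.repr_self, Finsupp.single_apply, if_neg (Ne.symm hi)]

/-! ### Row Cong : z = x y⁻¹ = 1 + (x - y) y⁻¹; In_mul_OO for UI; prim_of_unit; c_prim_eq_zero. -/
theorem c_eq_of_sub {x y : κ} (hx : d.Prim x) (hy : d.Prim y) (h : ∀ i, d.co i (x - y) ∈ d.UU) :
    d.c x = d.c y := by
  have hx0 := Prim.ne_zero d hx
  have hy0 := Prim.ne_zero d hy
  have hxi := Prim.inv d hx
  have hyi := Prim.inv d hy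
  have hz : d.Prim (x * y⁻¹) := by
    refine d.prim_of_unit (d.OO_mul hx.1 hyi) (d.OO_mul hy.1 hxi) ?_
    field_simp
  have hsplit : x * y⁻¹ = 1 + (x - y) * y⁻¹ := by
    field_simp
    ring
  have hUU : ∀ i, d.co i ((x - y) * y⁻¹) ∈ d.UU := by
    intro i
    have h1 : ∀ i, d.In d.UI (d.co i (x - y)) := fun i => ⟨d.UU_le_R (h i), h i⟩
    obtain ⟨h2, h3⟩ := d.In_mul_OO h1 hyi i
    exact h3
  have hc0 : d.c (x * y⁻¹) = 0 := by
    refine d.c_prim_eq_zero hz fun i hi => ?_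
    rw [hsplit, map_add, d.cong_co_one hi, zero_add]
    exact hUU i
  have h4 := d.c_mul (x * y⁻¹) y (mul_ne_zero hx0 (inv_ne_zero hy0)) hy0
  rw [hc0, zero_add, inv_mul_cancel_right₀ hy0] at h4
  exact h4

end Dat

end Pool.Agent.LibHG80
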