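import Pool.Agent.LibHG80.Defs57

set_option autoImplicit false

namespace Pool.Agent.LibHG80

open Module Polynomial

namespace Dat

variable {F κ A : Type*} [Field F] [Field κ] [Algebra F κ] [AddCommGroup A] {p s : ℕ}
  [hp : Fact p.Prime] [hc : CharP F p] (d : Dat F κ A p s)

/-! ### Row Cont -/

omit hp hc in
lemma Cont_zero : d.OO 0 := fun i => by
  rw [map_zero]
  exact d.R.zero_mem

omit hp hc in
lemma Cont_add {x y : κ} (hx : d.OO x) (hy : d.OO y) : d.OO (x + y) := fun i => by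
  rw [map_add]
  exact d.R.add_mem (hx i) (hy i)

omit hp hc in
lemma Cont_smul {a : F} {x : κ} (ha : a ∈ d.R) (hx : d.OO x) : d.OO (a • x) := fun i => by
  rw [map_smul, smul_eq_mul]
  exact d.R.mul_mem ha (hx i)

omit hp hc in
lemma Cont_sum {ι : Type*} (S : Finset ι) {f : ι → κ} (h : ∀ i ∈ S, d.OO (f i)) :
    d.OO (∑ i ∈ S, f i) := fun j => by
  rw [map_sum]
  exact d.R.sum_mem fun i hi => h i hi j

omit hp hc in
lemma Cont_expand (x : κ) : x = ∑ j, d.co j x • d.ρ ^ (j : ℕ) := by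
  have h := d.B.basis.sum_repr x
  calc x = ∑ j, d.B.basis.repr x j • d.B.basis j := h.symm
    _ = ∑ j, d.co j x • d.ρ ^ (j : ℕ) := by
      refine Finset.sum_congr rfl fun j _ => ?_
      rw [PowerBasis.basis_eq_pow, co, Basis.coord_apply]

omit hp hc in
lemma Cont_pow_lt {k : ℕ} (hk : k < d.n) : d.OO (d.ρ ^ k) := fun i => by
  have h : d.ρ ^ k = d.B.basis ⟨k, hk⟩ := by rw [PowerBasis.basis_eq_pow]
  rw [h, co, Basis.coord_apply, Basis.repr_self]
  by_cases hi : (⟨k, hk⟩ : Fin d.n) = i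
  · rw [hi, Finsupp.single_eq_same]
    exact d.R.one_mem
  · rw [Finsupp.single_eq_of_ne' hi]
    exact d.R.zero_mem

lemma Cont_pow_n : d.OO (d.ρ ^ d.n) := by
  have hint : IsIntegral F d.ρ := d.B.isIntegral_gen
  have h1 : aeval d.ρ d.P = 0 := minpoly.aeval F d.ρ
  have hd : d.P.natDegree = d.n := d.B.natDegree_minpoly
  have hm : d.P.Monic := minpoly.monic hint
  rw [aeval_eq_sum_range, hd, Finset.sum_range_succ] at h1
  have hl : d.P.coeff d.n = 1 := by
    rw [← hd]
    exact hm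
  rw [hl, one_smul] at h1
  have h2 : d.ρ ^ d.n = (-1 : F) • ∑ k ∈ Finset.range d.n, d.P.coeff k • d.ρ ^ k := by
    rw [neg_one_smul]
    exact eq_neg_of_add_eq_zero_right h1
  rw [h2]
  refine d.Cont_smul (d.R.neg_mem d.R.one_mem) (d.Cont_sum _ fun k hk => ?_)
  exact d.Cont_smul (d.coeff_mem_R k) (d.Cont_pow_lt (Finset.mem_range.1 hk))

lemma Cont_rho_mul {x : κ} (hx : d.OO x) : d.OO (d.ρ * x) := by
  rw [d.Cont_expand x, Finset.mul_sum]
  refine d.Cont_sum _ fun j _ => ?_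
  rw [mul_smul_comm, ← pow_succ']
  refine d.Cont_smul (hx j) ?_
  rcases Nat.lt_or_ge ((j : ℕ) + 1) d.n with h | h
  · exact d.Cont_pow_lt h
  · have e : (j : ℕ) + 1 = d.n := le_antisymm j.2 h
    rw [e]
    exact d.Cont_pow_n

lemma Cont_pow_mul {x : κ} (hx : d.OO x) (k : ℕ) : d.OO (d.ρ ^ k * x) := by
  induction k with
  | zero => simpa using hx
  | succ k ih =>
    rw [pow_succ', mul_assoc]
    exact d.Cont_rho_mul ih

theorem OO_mul {x y : κ} (hx : d.OO x) (hy : d.OO y) : d.OO (x * y) := by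
  rw [d.Cont_expand x, Finset.sum_mul]
  refine d.Cont_sum _ fun j _ => ?_
  rw [smul_mul_assoc]
  exact d.Cont_smul (hx j) (d.Cont_pow_mul hy j)

theorem OO_one : d.OO 1 := by
  have h := d.Cont_pow_lt (k := 0) (Nat.lt_of_lt_of_le (by norm_num) d.hdim)
  rwa [pow_zero] at h

theorem OO_rho : d.OO d.ρ := by
  have h := d.Cont_pow_lt (k := 1) (Nat.lt_of_lt_of_le (by norm_num) d.hdim)
  rwa [pow_one] at h

theorem OO_z (k : Fin d.n) : d.OO (d.z k) := by
  rw [z]
  exact d.Cont_sum _ fun i _ => d.Cont_smul (d.coeff_mem_R _) (d.Cont_pow_lt i.2)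

theorem theta_OO {x : κ} (hx : d.OO x) : d.θ x ∈ d.R := hx d.last

/-- `aeval ρ g` for a polynomial with coefficients in `R` -/
theorem OO_aeval {g : F[X]} (hg : ∀ k, g.coeff k ∈ d.R) : d.OO (aeval d.ρ g) := by
  rw [aeval_eq_sum_range]
  refine d.Cont_sum _ fun k _ => d.Cont_smul (hg k) ?_
  have h := d.Cont_pow_mul d.OO_one k
  rwa [mul_one] at h

omit hp hc in
/-- the coordinates of a product -/
lemma Cont_co_mul (x y : κ) (i : Fin d.n) :
    d.co i (x * y) = ∑ j, d.co j x * d.co i (d.ρ ^ (j : ℕ) * y) := by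
  have h : x * y = ∑ j, d.co j x • (d.ρ ^ (j : ℕ) * y) := by
    calc x * y = (∑ j, d.co j x • d.ρ ^ (j : ℕ)) * y := by rw [← d.Cont_expand x]
      _ = ∑ j, d.co j x • (d.ρ ^ (j : ℕ) * y) := by
        rw [Finset.sum_mul]
        exact Finset.sum_congr rfl fun j _ => smul_mul_assoc _ _ _
  rw [h, map_sum]
  exact Finset.sum_congr rfl fun j _ => by rw [map_smul, smul_eq_mul]

/-- coordinates in an ideal: `q OO` is stable under `OO` -/
theorem In_mul_OO {q : Ideal d.R} {x y : κ} (hx : ∀ i, d.In q (d.co i x)) (hy : d.OO y) (i : Fin d.n) :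
    d.In q (d.co i (x * y)) := by
  rw [d.Cont_co_mul]
  exact In.sum fun j _ => (hx j).mul_right (d.Cont_pow_mul hy j i)

/-- a unit is primitive: `1 = co first (x * y)` is a combination of the coordinates of `x` -/
theorem prim_of_unit {x y : κ} (hx : d.OO x) (hy : d.OO y) (h : x * y = 1) : d.Prim x := by
  refine ⟨hx, fun j => d.co d.first (d.ρ ^ (j : ℕ) * y), fun j => d.Cont_pow_mul hy j d.first, ?_⟩
  have h1 : d.co d.first (x * y) = 1 := by
    rw [h]
    have e : (1 : κ) = d.B.basis d.first := by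
      rw [PowerBasis.basis_eq_pow, first]
      exact (pow_zero _).symm
    rw [e, co, Basis.coord_apply, Basis.repr_self, Finsupp.single_eq_same]
  rw [← h1, d.Cont_co_mul]
  exact Finset.sum_congr rfl fun j _ => mul_comm _ _

end Dat

end Pool.Agent.LibHG80
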