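import Pool.Agent.LibHG80.RowBez

set_option autoImplicit false

namespace Pool.Agent.LibHG80

open Module Polynomial

namespace Dat

variable {F κ A : Type*} [Field F] [Field κ] [Algebra F κ] [AddCommGroup A] {p s : ℕ}
  [hp : Fact p.Prime] [hc : CharP F p] (d : Dat F κ A p s)

/-! ### Row Ext
See (X) of the note. i /= e: choose a /= i with a third index b /= i, a /= b. If phi (b a) = 0 or
phi (b b) = 0: X0. Otherwise bezout: phi_a = g f_a, phi_b = g f_b, u f_a + v f_b = 1,
V = f_b . b a - f_a . b b. Tv c V (s . co i) for s in UU; comm_rel with (w, t phi): Tv c V (s t w_i phi)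
(up to sign), comm_rel with (b e, s' . co i): Tv c V (s t s' w_i phi_e . co i), comm_rel with
(b b, s'' . co a): (b b, ... f_b w_i phi_e . co i), and with (b a, s'' . co b): (b a, ... f_a ...);
key_K with m = 4. Then w_i phi_e = u f_a (..) + v f_b (..).
i = e: w_i phi_i = - sum_{j /= i} w_j phi_j (phi w = 0) and (w_i phi_i)^2 = - sum_{j /= i}
(w_i phi_j) (w_j phi_i) in R; root_closed. -/

omit hp hc in
private lemma ext_co_b (i j : Fin d.n) : d.co i (d.b j) = if i = j then 1 else 0 := by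
  have h : d.b j = d.B.basis j := (d.B.basis_eq_pow j).symm
  rw [co, h, Basis.coord_apply, Basis.repr_self, Finsupp.single_apply]
  by_cases hij : i = j
  · rw [if_pos hij, if_pos hij.symm]
  · rw [if_neg hij, if_neg (fun h => hij h.symm)]

omit hp hc in
private lemma ext_co_b_ne {i j : Fin d.n} (h : i ≠ j) : d.co i (d.b j) = 0 := by
  rw [ext_co_b, if_neg h]

omit hp hc in
private lemma ext_co_b_self (i : Fin d.n) : d.co i (d.b i) = 1 := by
  rw [ext_co_b, if_pos rfl]

omit hp hc in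
private lemma ext_sum (x : κ) : ∑ j, d.co j x • d.b j = x := by
  have h := d.B.basis.sum_repr x
  conv_rhs => rw [← h]
  refine Finset.sum_congr rfl fun j _ => ?_
  rw [d.B.basis_eq_pow j]
  rfl

omit hp hc in
private lemma ext_tv_smul {w : κ} {φ : κ →ₗ[F] F} (a : F) (h : Tv d.c w (a • φ)) (h0 : φ w = 0) :
    Tv d.c (a • w) φ := by
  refine ⟨by rw [map_smul, h0, smul_zero], fun x hx => ?_⟩
  rw [← h.2 x hx, LinearMap.smul_apply, smul_eq_mul, smul_smul, mul_comm]

/-- the case of two different indices -/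
private lemma ext_key {w V : κ} {φ : κ →ₗ[F] F} (h : ∀ t ∈ d.UU, Tv d.c w (t • φ)) (hφ : φ w = 0)
    {i e : Fin d.n} (hie : i ≠ e) (hV : φ V = 0) (hiV : d.co i V = 0)
    (hTV : ∀ s ∈ d.UU, Tv d.c V (s • d.co i)) {a b : Fin d.n} (hbi : b ≠ i)
    (hab : a ≠ b) : d.co a V * (d.co i w * φ (d.b e)) ∈ d.R := by
  refine d.key_K hbi 4 _ fun t ht => ?_
  rw [d.mem_U hbi]
  have h1 : Tv d.c V ((-(t 0 * d.co i w)) • (t 1 • φ)) := by
    have := comm_rel (h (t 1) (ht 1)).pr (hTV (t 0) (ht 0)).pr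
      (by rw [LinearMap.smul_apply, hV, smul_zero])
    rw [LinearMap.smul_apply, hφ, smul_zero, add_zero, inv_one, one_mul] at this
    exact this
  have h2 : Tv d.c V ((t 0 * d.co i w * t 1 * φ (d.b e)) • (t 2 • d.co i)) := by
    have h3 : Tv d.c (d.b e) (t 2 • d.co i) := (d.mem_UU'.1 (ht 2)) e i hie.symm
    have := comm_rel h3.pr h1.pr (by rw [LinearMap.smul_apply, hiV, smul_zero])
    rw [LinearMap.smul_apply, d.ext_co_b_ne hie, smul_zero, add_zero, inv_one, one_mul] at this
    refine cast ?_ this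
    congr 2
    simp only [LinearMap.smul_apply, smul_eq_mul]
    ring
  have h4 : Tv d.c (d.b b) (t 3 • d.co a) := (d.mem_UU'.1 (ht 3)) b a hab.symm
  have h5 := comm_rel h2.pr h4.pr
    (by rw [LinearMap.smul_apply, LinearMap.smul_apply, d.ext_co_b_ne hbi.symm, smul_zero,
      smul_zero])
  rw [LinearMap.smul_apply, LinearMap.smul_apply, hiV, smul_zero, smul_zero, add_zero, inv_one,
    one_mul] at h5
  have h6 := h5.neg
  refine cast ?_ h6
  congr 1
  ext x
  simp only [Fin.prod_univ_four, LinearMap.smul_apply, LinearMap.neg_apply, smul_eq_mul]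
  ring

private lemma ext_ne {w : κ} {φ : κ →ₗ[F] F} (h : ∀ t ∈ d.UU, Tv d.c w (t • φ)) (hφ : φ w = 0)
    {i e : Fin d.n} (hie : i ≠ e) : d.co i w * φ (d.b e) ∈ d.R := by
  classical
  have hcard : 1 < (Finset.univ.erase i).card := by
    rw [Finset.card_erase_of_mem (Finset.mem_univ i), Finset.card_univ, Fintype.card_fin]
    have := d.hdim
    show 1 < d.B.dim - 1
    omega
  obtain ⟨a, ha, b, hb, hab⟩ := Finset.one_lt_card.1 hcard
  have hai : a ≠ i := (Finset.mem_erase.1 ha).1
  have hbi : b ≠ i := (Finset.mem_erase.1 hb).1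
  by_cases ha0 : φ (d.b a) = 0
  · exact d.X0 h ha0 hai.symm e
  by_cases hb0 : φ (d.b b) = 0
  · exact d.X0 h hb0 hbi.symm e
  obtain ⟨g, fa, fb, u, v, hg, hfa, hfb, hfaR, hfbR, hu, hv, huv⟩ :=
    d.bezout (φ (d.b a)) (φ (d.b b)) (Or.inl ha0)
  set V : κ := fb • d.b a + (-fa) • d.b b with hVdef
  have hV : φ V = 0 := by
    rw [hVdef, map_add, map_smul, map_smul, hfa, hfb, smul_eq_mul, smul_eq_mul]
    ring
  have hiV : d.co i V = 0 := by
    rw [hVdef, map_add, map_smul, map_smul, d.ext_co_b_ne hai.symm, d.ext_co_b_ne hbi.symm,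
      smul_zero, smul_zero, add_zero]
  have haV : d.co a V = fb := by
    rw [hVdef, map_add, map_smul, map_smul, d.ext_co_b_self, d.ext_co_b_ne hab, smul_zero,
      add_zero, smul_eq_mul, mul_one]
  have hbV : d.co b V = -fa := by
    rw [hVdef, map_add, map_smul, map_smul, d.ext_co_b_self, d.ext_co_b_ne hab.symm, smul_zero,
      zero_add, smul_eq_mul, mul_one]
  have hTV : ∀ s ∈ d.UU, Tv d.c V (s • d.co i) := by
    intro s hs
    refine Tv.add_left ?_ ?_
    · refine d.ext_tv_smul fb ?_ ?_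
      · rw [smul_smul]
        exact (d.mem_UU'.1 (hfbR s hs)) a i hai
      · rw [LinearMap.smul_apply, d.ext_co_b_ne hai.symm, smul_zero]
    · refine d.ext_tv_smul (-fa) ?_ ?_
      · rw [smul_smul]
        exact (d.mem_UU'.1 ((d.R.neg_mem hfaR) s hs)) b i hbi
      · rw [LinearMap.smul_apply, d.ext_co_b_ne hbi.symm, smul_zero]
  have h1 := d.ext_key h hφ hie hV hiV hTV hbi hab
  have h2 := d.ext_key h hφ hie hV hiV hTV hai hab.symm
  rw [haV] at h1
  rw [hbV] at h2
  have h3 : d.co i w * φ (d.b e) = -u * (-fa * (d.co i w * φ (d.b e))) +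
      v * (fb * (d.co i w * φ (d.b e))) := by
    linear_combination (-(d.co i w * φ (d.b e))) * huv
  rw [h3]
  exact d.R.add_mem (d.R.mul_mem (d.R.neg_mem hu) h2) (d.R.mul_mem hv h1)

theorem extract {w : κ} {φ : κ →ₗ[F] F} (h : ∀ t ∈ d.UU, Tv d.c w (t • φ)) (hφ : φ w = 0)
    (i e : Fin d.n) : d.co i w * φ (d.b e) ∈ d.R := by
  classical
  by_cases hie : i = e
  · subst hie
    refine d.root_closed (m := 2) (by norm_num) ?_
    have h1 : ∑ j, d.co j w * φ (d.b j) = 0 := by
      rw [← hφ]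
      conv_rhs => rw [← d.ext_sum w]
      rw [map_sum]
      exact Finset.sum_congr rfl fun j _ => by rw [map_smul, smul_eq_mul]
    rw [← Finset.add_sum_erase _ _ (Finset.mem_univ i)] at h1
    have h2 : (d.co i w * φ (d.b i)) ^ 2 = -∑ j ∈ Finset.univ.erase i,
        (d.co i w * φ (d.b j)) * (d.co j w * φ (d.b i)) := by
      have h3 : ∑ j ∈ Finset.univ.erase i, (d.co i w * φ (d.b j)) * (d.co j w * φ (d.b i)) =
          (d.co i w * φ (d.b i)) * ∑ j ∈ Finset.univ.erase i, d.co j w * φ (d.b j) := by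
        rw [Finset.mul_sum]
        exact Finset.sum_congr rfl fun j _ => by ring
      rw [h3]
      linear_combination (d.co i w * φ (d.b i)) * h1
    rw [h2]
    refine d.R.neg_mem (d.R.sum_mem fun j hj => ?_)
    have hji : j ≠ i := (Finset.mem_erase.1 hj).1
    exact d.R.mul_mem (d.ext_ne h hφ hji.symm) (d.ext_ne h hφ hji)
  · exact d.ext_ne h hφ hie

end Dat

end Pool.Agent.LibHG80
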