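import Pool.Agent.LibHG80.RowExt
import Pool.Agent.LibHG80.RowCont

set_option autoImplicit false

namespace Pool.Agent.LibHG80

open Module Polynomial

namespace Dat

variable {F κ A : Type*} [Field F] [Field κ] [Algebra F κ] [AddCommGroup A] {p s : ℕ}
  [hp : Fact p.Prime] [hc : CharP F p] (d : Dat F κ A p s)

/-! ### Row Inv
content_inv: for t in UU: Tv c (b first) (t . co last) (mem_UU'), conjugate by multiplication by z⁻¹
(Tv.conj, c_mul): Tv c (z⁻¹) (t . (tw θ z)). extract with w = z⁻¹, phi = tw θ z: phi w = θ 1 = 0: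
co i z⁻¹ * θ (z ρ^e) in R. co k z = θ (z_k z) = sum_e coeff(e+k+1) θ(ρ^e z). -/

omit hp hc in
private lemma first_ne_last57 : d.first ≠ d.last := by
  intro h
  have h1 := congrArg Fin.val h
  have h2 := d.hdim
  change 0 = d.B.dim - 1 at h1
  omega

omit hp hc in
private lemma b_first57 : d.b d.first = 1 := by
  change d.ρ ^ 0 = 1
  exact pow_zero _

omit hp hc in
private lemma theta_one57 : d.θ 1 = 0 := by
  have h1 : (1 : κ) = d.B.basis d.first := by
    rw [PowerBasis.coe_basis]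
    change (1 : κ) = d.B.gen ^ 0
    rw [pow_zero]
  change d.B.basis.coord d.last 1 = 0
  rw [h1, Basis.coord_apply, Basis.repr_self_apply, if_neg d.first_ne_last57]

theorem content_inv {z : κ} (hz : z ≠ 0) (i k : Fin d.n) : d.co i z⁻¹ * d.co k z ∈ d.R := by
  have hTv : ∀ t ∈ d.UU, Tv d.c z⁻¹ (t • tw d.θ z) := by
    intro t ht
    have h1 : Tv d.c (d.b d.first) (t • d.co d.last) :=
      d.mem_UU'.1 ht d.first d.last d.first_ne_last57
    have hz' : z⁻¹ ≠ 0 := inv_ne_zero hz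
    let e : κ ≃ₗ[F] κ := LinearEquiv.ofLinearMap (LinearMap.mulLeft F z⁻¹) (LinearMap.mulLeft F z)
      (by ext x; simp [← mul_assoc, inv_mul_cancel₀ hz])
      (by ext x; simp [← mul_assoc, mul_inv_cancel₀ hz])
    have h2 := h1.conj e (d.c z⁻¹) (fun x hx => by
      change d.c (z⁻¹ * x) = d.c x + d.c z⁻¹
      rw [d.c_mul _ _ hz' hx, add_comm])
    have h3 : e (d.b d.first) = z⁻¹ := by
      rw [d.b_first57]
      change z⁻¹ * 1 = z⁻¹
      rw [mul_one]
    rw [h3] at h2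
    exact h2
  have key : ∀ e : Fin d.n, d.co i z⁻¹ * d.θ (z * d.b e) ∈ d.R := by
    intro e
    have h := d.extract hTv (by
      rw [tw_apply, mul_inv_cancel₀ hz]
      exact d.theta_one57) i e
    rwa [tw_apply] at h
  have h1 : d.co k z = ∑ e : Fin d.n, d.P.coeff ((e : ℕ) + (k : ℕ) + 1) * d.θ (z * d.b e) := by
    rw [d.co_eq]
    unfold Dat.z
    rw [Finset.sum_mul, map_sum]
    refine Finset.sum_congr rfl fun e _ => ?_
    rw [smul_mul_assoc, map_smul, smul_eq_mul, mul_comm (d.b e)]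
  rw [h1, Finset.mul_sum]
  refine sum_mem fun e _ => ?_
  have h2 := mul_mem (d.coeff_mem_R ((e : ℕ) + (k : ℕ) + 1)) (key e)
  have h3 : d.co i z⁻¹ * (d.P.coeff ((e : ℕ) + (k : ℕ) + 1) * d.θ (z * d.b e)) =
      d.P.coeff ((e : ℕ) + (k : ℕ) + 1) * (d.co i z⁻¹ * d.θ (z * d.b e)) := by ring
  rw [h3]
  exact h2

theorem Prim.ne_zero {z : κ} (hz : d.Prim z) : z ≠ 0 := by
  rintro rfl
  obtain ⟨_, u, _, hu⟩ := hz
  simp only [map_zero, mul_zero, Finset.sum_const_zero] at hu
  exact zero_ne_one hu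

theorem Prim.inv {z : κ} (hz : d.Prim z) : d.OO z⁻¹ := by
  have hz0 := Prim.ne_zero d hz
  obtain ⟨_, u, hu, hu1⟩ := hz
  intro i
  have h1 : d.co i z⁻¹ = ∑ k, u k * (d.co i z⁻¹ * d.co k z) := by
    calc d.co i z⁻¹ = d.co i z⁻¹ * ∑ k, u k * d.co k z := by rw [hu1, mul_one]
      _ = _ := by
        rw [Finset.mul_sum]
        exact Finset.sum_congr rfl fun k _ => by ring
  rw [h1]
  exact sum_mem fun k _ => mul_mem (hu k) (d.content_inv hz0 i k)

theorem Prim.mul {x y : κ} (hx : d.Prim x) (hy : d.Prim y) : d.Prim (x * y) := by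
  have hx0 := Prim.ne_zero d hx
  have hy0 := Prim.ne_zero d hy
  refine d.prim_of_unit (d.OO_mul hx.1 hy.1) (d.OO_mul (Prim.inv d hx) (Prim.inv d hy)) ?_
  field_simp

/-- every nonzero element is a scalar times a primitive element -/
theorem exists_prim {x : κ} (hx : x ≠ 0) : ∃ (g : F) (y : κ), g ≠ 0 ∧ d.Prim y ∧ x = g • y := by
  have hex : ∃ i ∈ (Finset.univ : Finset (Fin d.n)), d.co i x ≠ 0 := by
    by_contra hcon
    push Not at hcon
    apply hx
    apply d.B.basis.ext_elem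
    intro i
    have h := hcon i (Finset.mem_univ i)
    change d.B.basis.coord i x = 0 at h
    rw [Basis.coord_apply] at h
    rw [h, map_zero, Finsupp.zero_apply]
  obtain ⟨g, x', u, hg, h1, h2⟩ := d.content Finset.univ (fun i => d.co i x) hex
  have hco : ∀ i, d.co i (g⁻¹ • x) = x' i := by
    intro i
    rw [map_smul, (h1 i (Finset.mem_univ i)).1, smul_eq_mul, inv_mul_cancel_left₀ hg]
  refine ⟨g, g⁻¹ • x, hg, ⟨fun i => ?_, u, fun i => (h1 i (Finset.mem_univ i)).2.2, ?_⟩, ?_⟩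
  · rw [hco]
    exact (h1 i (Finset.mem_univ i)).2.1
  · rw [← h2]
    exact Finset.sum_congr rfl fun i _ => by rw [hco]
  · rw [smul_smul, mul_inv_cancel₀ hg, one_smul]

end Dat

end Pool.Agent.LibHG80
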