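import Pool.Agent.LibHG80.Defs57
import Pool.Agent.LibHG80.RingP

/-!
The ring `R` is closed under roots.
-/

set_option autoImplicit false

namespace Pool.Agent.LibHG80

open Module Polynomial

namespace Dat

variable {F κ A : Type*} [Field F] [Field κ] [Algebra F κ] [AddCommGroup A] {p s : ℕ}
  [hp : Fact p.Prime] [hc : CharP F p] (d : Dat F κ A p s)

theorem nr : HGR.NR d.R d.P d.n where
  npos := le_trans (by norm_num) d.hdim
  monic := d.P_monic
  deg := d.P_natDegree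
  ne := d.P_eval_ne
  coef := d.coeff_mem_R
  pow := fun r k hk => d.pow_div_mem_R' r k hk

include d in
omit hp hc in
theorem hdiv' : ∀ x : F, ∀ m : ℕ, 1 ≤ m → ∃ y : F, y ^ m = x := fun x m hm => d.hdiv m hm x

theorem prufer (x : F) : ∃ X Y : F, X ∈ d.R ∧ Y ∈ d.R ∧ x * X ∈ d.R ∧ x * Y ∈ d.R ∧
    x * X + Y = 1 := by
  obtain ⟨X, Y, h1, h2, h3, h4, h5⟩ := d.nr.pruefer x
  exact ⟨X, Y, h1, h3, h2, h4, by rw [add_comm]; exact h5⟩

theorem root_closed {x : F} {m : ℕ} (hm : 0 < m) (h : x ^ m ∈ d.R) : x ∈ d.R :=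
  d.nr.root hm h

end Dat

end Pool.Agent.LibHG80
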