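import Mathlib

set_option autoImplicit false

namespace Pool.Agent.LibHG80

open Module Polynomial

/-! ### Row RF (pure field theory)
Proof. K' is infinite (f - c g is not zero for every c, so each value is taken finitely often).
Let lam : k -> K' be K'-linear with lam 1 = 1. (A) If h monic, h' are coprime polynomials over k and
h'(x) / h(x) in K' for infinitely many x in K', then h, h' have coefficients in K': apply lam to
h'(x) = c h(x): h'^lam h = h' h^lam as polynomials, h | h^lam, both monic of the same degree, so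
h = h^lam. Apply (A) to h = g(X + C), h' = f(X + C), C in k: g(C) in K' for all C in k. (B) a
polynomial over k with values in K' at infinitely many points of K' has coefficients in K' (same
lam argument): g(C X) has coefficients in K', so C ^ n in K' (leading coefficient), n = natDegree g.
(X + C) ^ n takes values in K' on K'. With n = p ^ a * j, p not dividing j: the polynomial
(X + C ^ (p ^ a)) ^ j takes values in K' at the points x ^ (p ^ a), x in K', so j C ^ (p ^ a) in K',
C ^ (p ^ a) in K', so C ^ ((p ^ s) ^ m) in K' for large m, so C in K'. -/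

section RF

variable {k : Type*} [Field k]

/-- A linear retraction on a subfield, as a map. -/
theorem rf_exists_retract (K' : Subfield k) :
    ∃ L : k →+ k, (∀ c ∈ K', ∀ x, L (c * x) = c * L x) ∧ L 1 = 1 ∧ ∀ x, L x ∈ K' := by
  obtain ⟨lam, hlam⟩ := LinearMap.exists_leftInverse_of_injective (Algebra.linearMap K' k)
    (LinearMap.ker_eq_bot.2 (by
      rw [Algebra.coe_linearMap]
      exact FaithfulSMul.algebraMap_injective K' k))
  refine ⟨K'.subtype.toAddMonoidHom.comp lam.toAddMonoidHom, ?_, ?_, fun x => (lam x).2⟩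
  · intro c hc x
    show ((lam (c * x) : K') : k) = c * ((lam x : K') : k)
    have : c * x = (⟨c, hc⟩ : K') • x := rfl
    rw [this, map_smul]
    rfl
  · show ((lam 1 : K') : k) = 1
    have h1 := LinearMap.congr_fun hlam 1
    simp only [LinearMap.comp_apply, Algebra.linearMap_apply, map_one, LinearMap.id_apply] at h1
    rw [h1]
    rfl

/-- The polynomial whose coefficients are the images of the coefficients of `h`. -/
noncomputable def rfLp (L : k →+ k) (h : k[X]) : k[X] :=
  ∑ i ∈ Finset.range (h.natDegree + 1), monomial i (L (h.coeff i))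

theorem rfLp_coeff (L : k →+ k) (h : k[X]) (i : ℕ) : (rfLp L h).coeff i = L (h.coeff i) := by
  unfold rfLp
  rw [finsetSum_coeff]
  simp only [coeff_monomial]
  rw [Finset.sum_ite_eq']
  split_ifs with hi
  · rfl
  · rw [Finset.mem_range, not_lt] at hi
    rw [coeff_eq_zero_of_natDegree_lt (by omega), map_zero]

theorem rfLp_eval {K' : Subfield k} {L : k →+ k} (hL : ∀ c ∈ K', ∀ x, L (c * x) = c * L x)
    (h : k[X]) {x : k} (hx : x ∈ K') : (rfLp L h).eval x = L (h.eval x) := by
  unfold rfLp
  rw [eval_finsetSum, eval_eq_sum_range, map_sum]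
  refine Finset.sum_congr rfl fun i _ => ?_
  rw [eval_monomial, mul_comm (h.coeff i), hL _ (pow_mem hx i), mul_comm]

theorem rf_A (K' : Subfield k) {h h' : k[X]} (hm : h.Monic) (hc : IsCoprime h h') {S : Set k}
    (hS : S.Infinite) (hSK : ∀ x ∈ S, x ∈ K')
    (hv : ∀ x ∈ S, ∃ c ∈ K', h'.eval x = c * h.eval x) (i : ℕ) : h.coeff i ∈ K' := by
  obtain ⟨L, hL, hL1, hLK⟩ := rf_exists_retract K'
  have e : rfLp L h' * h = rfLp L h * h' := by
    refine Polynomial.eq_of_infinite_eval_eq _ _ (hS.mono ?_)
    intro x hx
    obtain ⟨c, hcK, hcv⟩ := hv x hx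
    show eval x (rfLp L h' * h) = eval x (rfLp L h * h')
    rw [eval_mul, eval_mul, rfLp_eval hL _ (hSK x hx), rfLp_eval hL _ (hSK x hx), hcv, hL c hcK]
    ring
  have hd : h ∣ rfLp L h := by
    have : h ∣ rfLp L h * h' := ⟨rfLp L h', by rw [← e, mul_comm]⟩
    exact hc.dvd_of_dvd_mul_right this
  have hdeg : (rfLp L h).natDegree ≤ h.natDegree := by
    rw [natDegree_le_iff_coeff_eq_zero]
    intro N hN
    rw [rfLp_coeff, coeff_eq_zero_of_natDegree_lt hN, map_zero]
  have hmon : (rfLp L h).Monic := by
    refine monic_of_natDegree_le_of_coeff_eq_one h.natDegree hdeg ?_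
    rw [rfLp_coeff, hm.coeff_natDegree, hL1]
  have := eq_of_monic_of_dvd_of_natDegree_le hm hmon hd hdeg
  rw [← this, rfLp_coeff]
  exact hLK _

theorem rf_B (K' : Subfield k) {q : k[X]} {S : Set k} (hS : S.Infinite) (hSK : ∀ x ∈ S, x ∈ K')
    (hv : ∀ x ∈ S, q.eval x ∈ K') (i : ℕ) : q.coeff i ∈ K' := by
  obtain ⟨L, hL, hL1, hLK⟩ := rf_exists_retract K'
  have e : rfLp L q = q := by
    refine Polynomial.eq_of_infinite_eval_eq _ _ (hS.mono ?_)
    intro x hx
    show eval x (rfLp L q) = eval x q
    rw [rfLp_eval hL _ (hSK x hx)]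
    have := hL _ (hv x hx) 1
    rwa [mul_one, hL1, mul_one] at this
  rw [← e, rfLp_coeff]
  exact hLK _

end RF

theorem RF {k : Type*} [Field k] {p s : ℕ} [Fact p.Prime] [CharP k p] (hs : s ≠ 0)
    [Infinite k] (K' : Subfield k) (hK : ∀ x : k, x ^ p ^ s ∈ K' → x ∈ K') {f g : k[X]}
    (hf : f.Monic) (hg : g.Monic) (hdeg : f.natDegree = g.natDegree) (h1 : 1 ≤ g.natDegree)
    (hcop : IsCoprime f g) (hroot : ∀ x, g.eval x ≠ 0) (H : ∀ x, f.eval x / g.eval x ∈ K') :
    K' = ⊤ := by
  have hpp : p.Prime := Fact.out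
  -- the subfield is infinite
  have hinf : (K' : Set k).Infinite := by
    intro hfin
    have hne : ∀ c : k, f - C c * g ≠ 0 := by
      intro c h0
      have e : f = C c * g := sub_eq_zero.1 h0
      have hc : c = 1 := by
        have := congrArg (fun q : k[X] => q.coeff g.natDegree) e
        simp only [coeff_C_mul, hg.coeff_natDegree, mul_one] at this
        rw [← hdeg, hf.coeff_natDegree] at this
        exact this.symm
      rw [hc, map_one, one_mul] at e
      rw [e] at hcop
      have hu : IsUnit g := by
        obtain ⟨a, b, hab⟩ := hcop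
        exact IsUnit.of_mul_eq_one (a + b) (by rw [mul_comm, add_mul]; exact hab)
      have := natDegree_eq_zero_of_isUnit hu
      omega
    have hun : (Set.univ : Set k) ⊆ ⋃ c ∈ (K' : Set k), {x | (f - C c * g).IsRoot x} := by
      intro x _
      rw [Set.mem_iUnion₂]
      refine ⟨f.eval x / g.eval x, H x, ?_⟩
      show eval x (f - C (f.eval x / g.eval x) * g) = 0
      rw [eval_sub, eval_mul, eval_C, div_mul_cancel₀ _ (hroot x), sub_self]
    have hf2 : (⋃ c ∈ (K' : Set k), {x | (f - C c * g).IsRoot x}).Finite :=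
      hfin.biUnion fun c _ => Polynomial.finite_setOfPred_isRoot (hne c)
    exact Set.infinite_univ (hf2.subset hun)
  -- the values of g
  have hgK : ∀ c : k, g.eval c ∈ K' := by
    intro c
    have hmon : (g.comp (X + C c)).Monic := hg.comp_X_add_C c
    have hco : IsCoprime (g.comp (X + C c)) (f.comp (X + C c)) := by
      have := hcop.symm.map (compRingHom (X + C c))
      simpa using this
    have key := rf_A K' hmon hco hinf (fun x hx => hx) (by
      intro x _
      refine ⟨f.eval (x + c) / g.eval (x + c), H _, ?_⟩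
      simp only [eval_comp, eval_add, eval_X, eval_C]
      rw [div_mul_cancel₀ _ (hroot _)]) 0
    rw [coeff_zero_eq_eval_zero, eval_comp] at key
    simpa using key
  -- the powers
  have hpow : ∀ c : k, c ^ g.natDegree ∈ K' := by
    intro c
    have key := rf_B K' (q := g.comp (C c * X)) hinf (fun x hx => hx) (by
      intro x _
      rw [eval_comp]
      exact hgK _) g.natDegree
    rw [comp_C_mul_X_coeff, hg.coeff_natDegree, one_mul] at key
    exact key
  obtain ⟨a, j, hj, hn⟩ := Nat.exists_eq_pow_mul_and_not_dvd (n := g.natDegree) (by omega) p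
    hpp.ne_one
  have hpa : ∀ c : k, c ^ p ^ a ∈ K' := by
    intro c
    have hj0 : j ≠ 0 := by
      rintro rfl
      exact hj (dvd_zero p)
    have hS : ((fun x : k => x ^ p ^ a) '' (K' : Set k)).Infinite := by
      refine hinf.image ?_
      intro x _ y _ hxy
      exact (iterateFrobenius_inj k p a) (by simpa [iterateFrobenius_def] using hxy)
    have key := rf_B K' (q := (X + C (c ^ p ^ a)) ^ j) hS (by
      rintro _ ⟨x, hx, rfl⟩
      exact pow_mem hx _) (by
      rintro _ ⟨x, hx, rfl⟩
      simp only [eval_pow, eval_add, eval_X, eval_C]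
      rw [← add_pow_char_pow, ← pow_mul, ← hn]
      exact hpow _) (j - 1)
    rw [coeff_X_add_C_pow] at key
    have e1 : j - (j - 1) = 1 := by omega
    have e2 : j.choose (j - 1) = j := by
      rw [Nat.choose_symm_of_eq_add (show j = (j - 1) + 1 by omega), Nat.choose_one_right]
    rw [e1, e2, pow_one] at key
    have hjk : (j : k) ≠ 0 := by
      intro h0
      exact hj ((CharP.cast_eq_zero_iff k p j).1 h0)
    have : c ^ p ^ a = c ^ p ^ a * j / j := by field_simp
    rw [this]
    exact div_mem key (natCast_mem K' j)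
  have hroots : ∀ m : ℕ, ∀ x : k, x ^ (p ^ s) ^ m ∈ K' → x ∈ K' := by
    intro m
    induction m with
    | zero => intro x hx; simpa using hx
    | succ m ih =>
      intro x hx
      rw [pow_succ', pow_mul] at hx
      exact hK x (ih _ hx)
  rw [eq_top_iff]
  intro x _
  apply hroots a
  have e : (p ^ s) ^ a = p ^ a * p ^ ((s - 1) * a) := by
    rw [← pow_mul, ← pow_add]
    congr 1
    obtain ⟨t, rfl⟩ := Nat.exists_eq_succ_of_ne_zero hs
    simp only [Nat.succ_eq_add_one, Nat.add_sub_cancel]
    ring
  rw [e, pow_mul]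
  exact pow_mem (hpa x) _

end Pool.Agent.LibHG80
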