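import Pool.Agent.LibHG80.RowInv
import Pool.Agent.LibHG80.RowInf
import Pool.Agent.LibHG80.RowSr

set_option autoImplicit false

namespace Pool.Agent.LibHG80

open Module Polynomial

namespace Dat

variable {F κ A : Type*} [Field F] [Field κ] [Algebra F κ] [AddCommGroup A] {p s : ℕ}
  [hp : Fact p.Prime] [hc : CharP F p] (d : Dat F κ A p s)

/-! ### Row S3a
Ω = -(aeval ρ P') has coordinates a_k - a_k^Q, not all in q. b j, z k are units of R[ρ] (z k is
primitive: its coordinate with index n-1-k is coeff n = 1). G = Ω ^ 2 / (z k * b j), OO G, not all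
coordinates in q (Ω = γ Ω1, Ω1 primitive, γ not in q; Ω1^2 / (z k b j) is primitive).
g = sum co i G X ^ i. u = θ(w r w 0 / (z k b j)) = -(1/r) (g(r)/P(r) - g(0)/P(0)) for r /= 0.
H = g(X) P(0) - g(0) P(X), H(0) = 0, some coefficient is not in q: r in R with H(r) not in q, so
r /= 0, H(r) = r H1(r), H1(r) in R, u = - H1(r) / (P(r) P(0)), P(r), P(0) units. -/
omit hp hc in
private lemma s3a_co_b (i j : Fin d.n) : d.co i (d.b j) = if i = j then 1 else 0 := by
  show d.B.basis.coord i (d.B.gen ^ (j : ℕ)) = _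
  rw [← d.B.basis_eq_pow, Basis.coord_apply, Basis.repr_self, Finsupp.single_apply]
  exact if_congr eq_comm rfl rfl

omit hp hc in
private lemma s3a_co_sum (f : Fin d.n → F) (i : Fin d.n) : d.co i (∑ j, f j • d.b j) = f i := by
  rw [map_sum, Finset.sum_eq_single i]
  · rw [map_smul, s3a_co_b, if_pos rfl, smul_eq_mul, mul_one]
  · intro j _ hj
    rw [map_smul, s3a_co_b, if_neg hj.symm, smul_zero]
  · intro h
    exact absurd (Finset.mem_univ i) h

omit hp hc in
private lemma s3a_co_aeval {h : F[X]} (hn : h.natDegree < d.n) (i : Fin d.n) :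
    d.co i (aeval d.ρ h) = h.coeff i := by
  rw [aeval_eq_sum_range' hn, Finset.sum_range]
  exact d.s3a_co_sum (fun j => h.coeff j) i

omit hp hc in
private lemma s3a_natDegree : d.P.natDegree = d.n := d.B.natDegree_minpoly

omit hp hc in
private lemma s3a_monic : d.P.Monic := minpoly.monic d.B.isIntegral_gen

include hp hc in
/-- A vector with coordinates in `R`, not all in `q`, times a primitive one. -/
private lemma s3a_content {q : Ideal d.R} (hq : q.IsPrime) {x y : κ} (hx : d.OO x)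
    (hxq : ∃ i, ¬ d.In q (d.co i x)) (hy : d.Prim y) :
    d.OO (x ^ 2 / y) ∧ ∃ i, ¬ d.In q (d.co i (x ^ 2 / y)) := by
  obtain ⟨i₀, hi₀⟩ := hxq
  have hx0 : x ≠ 0 := by
    rintro rfl
    apply hi₀
    rw [map_zero]
    exact in_zero
  obtain ⟨γ, x1, hγ, hx1, hxγ⟩ := d.exists_prim hx0
  -- `γ` is in `R`
  have hγR : γ ∈ d.R := by
    obtain ⟨_, u, hu, hu1⟩ := hx1
    have h1 : γ = ∑ i, u i * d.co i x := by
      calc γ = γ * ∑ i, u i * d.co i x1 := by rw [hu1, mul_one]
        _ = ∑ i, u i * d.co i x := by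
          rw [Finset.mul_sum]
          refine Finset.sum_congr rfl fun i _ => ?_
          rw [hxγ, map_smul, smul_eq_mul]
          ring
    rw [h1]
    exact d.R.sum_mem fun i _ => d.R.mul_mem (hu i) (hx i)
  have hγq : ¬ d.In q γ := by
    intro h
    apply hi₀
    rw [hxγ, map_smul, smul_eq_mul]
    exact h.mul_right (hx1.1 i₀)
  have hy0 : y ≠ 0 := Prim.ne_zero d hy
  have hyi : d.Prim y⁻¹ := d.prim_of_unit (Prim.inv d hy) hy.1 (inv_mul_cancel₀ hy0)
  have hG1 : d.Prim (x1 * x1 * y⁻¹) := Prim.mul d (Prim.mul d hx1 hx1) hyi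
  have e : x ^ 2 / y = (γ * γ) • (x1 * x1 * y⁻¹) := by
    rw [hxγ, div_eq_mul_inv, sq, smul_mul_smul_comm, smul_mul_assoc]
  have hco : ∀ i, d.co i (x ^ 2 / y) = γ * γ * d.co i (x1 * x1 * y⁻¹) := by
    intro i
    rw [e, map_smul, smul_eq_mul]
  refine ⟨fun i => ?_, ?_⟩
  · rw [hco]
    exact d.R.mul_mem (d.R.mul_mem hγR hγR) (hG1.1 i)
  · by_contra hcon
    push_neg at hcon
    obtain ⟨hO, u, hu, hu1⟩ := hG1
    apply not_in_one hq
    rw [← hu1]
    refine In.sum fun i _ => In.mul_left (hu i) ?_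
    have h1 := hcon i
    rw [hco] at h1
    rcases in_prime hq (d.R.mul_mem hγR hγR) (hO i) h1 with h2 | h2
    · exact absurd h2 (in_prime_not hq hγR hγR hγq hγq)
    · exact h2

include hp hc in
private lemma s3a_prim_of_co {x : κ} (hx : d.OO x) {j : Fin d.n} (hj : d.co j x = 1) :
    d.Prim x := by
  classical
  refine ⟨hx, fun i => if i = j then 1 else 0, fun i => ?_, ?_⟩
  · show (if i = j then (1 : F) else 0) ∈ d.R
    split_ifs
    · exact d.R.one_mem
    · exact d.R.zero_mem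
  · show ∑ i, (if i = j then (1 : F) else 0) * d.co i x = 1
    rw [Finset.sum_eq_single j]
    · rw [hj, if_pos rfl, mul_one]
    · intro i _ hi
      rw [if_neg hi, zero_mul]
    · intro h
      exact absurd (Finset.mem_univ j) h

include hp hc in
private lemma s3a_prim_b (j : Fin d.n) : d.Prim (d.b j) := by
  refine d.s3a_prim_of_co (fun i => ?_) (j := j) ?_
  · rw [s3a_co_b]
    split_ifs
    · exact d.R.one_mem
    · exact d.R.zero_mem
  · rw [s3a_co_b, if_pos rfl]

include hp hc in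
private lemma s3a_prim_z (k : Fin d.n) : d.Prim (d.z k) := by
  have hk := k.2
  have hz : ∀ i, d.co i (d.z k) = d.P.coeff ((i : ℕ) + (k : ℕ) + 1) := fun i =>
    d.s3a_co_sum (fun i => d.P.coeff ((i : ℕ) + (k : ℕ) + 1)) i
  refine d.s3a_prim_of_co (d.OO_z k) (j := ⟨d.n - 1 - k, by omega⟩) ?_
  rw [hz]
  have e : (d.n - 1 - (k : ℕ) + (k : ℕ) + 1) = d.P.natDegree := by
    rw [s3a_natDegree]
    omega
  show d.P.coeff (d.n - 1 - (k : ℕ) + (k : ℕ) + 1) = 1
  rw [e]
  exact d.s3a_monic.coeff_natDegree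

private lemma s3a_coeff (k : ℕ) : (d.P - d.P').coeff k = -(d.P.coeff k ^ p ^ s - d.P.coeff k) := by
  rw [coeff_sub, P', coeff_map, iterateFrobenius_def]
  ring

private lemma s3a_coeff_ge {k : ℕ} (hk : d.n ≤ k) : d.P.coeff k ^ p ^ s - d.P.coeff k = 0 := by
  rcases hk.lt_or_eq with h | h
  · rw [coeff_eq_zero_of_natDegree_lt (by rw [s3a_natDegree]; exact h),
      zero_pow (pow_ne_zero _ hp.out.ne_zero), sub_zero]
  · rw [← h, ← s3a_natDegree, d.s3a_monic.coeff_natDegree, one_pow, sub_self]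

private lemma s3a_deg : (d.P - d.P').natDegree < d.n := by
  have hn : 0 < d.n := Nat.lt_of_lt_of_le (by norm_num) d.hdim
  rcases eq_or_ne (d.P - d.P') 0 with h0 | h0
  · rw [h0, natDegree_zero]
    exact hn
  · rw [natDegree_lt_iff_degree_lt h0, degree_lt_iff_coeff_zero]
    intro k hk
    rw [s3a_coeff, d.s3a_coeff_ge (by exact_mod_cast hk), neg_zero]

private lemma s3a_Om : -(aeval d.ρ d.P') = aeval d.ρ (d.P - d.P') := by
  have h : aeval d.ρ d.P = 0 := minpoly.aeval F d.ρ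
  rw [map_sub, h, zero_sub]

include hp hc in
private lemma s3a_ne (r : F) : d.ρ - algebraMap F κ r ≠ 0 := by
  intro h
  have h1 : aeval d.ρ d.P = 0 := minpoly.aeval F d.ρ
  rw [sub_eq_zero.1 h, aeval_algebraMap_apply, map_eq_zero] at h1
  apply d.P_eval_ne r
  rwa [coe_aeval_eq_eval] at h1

include hp hc in
private lemma s3a_eval_mem {h : F[X]} (hR : ∀ i, h.coeff i ∈ d.R) {r : F} (hr : r ∈ d.R) :
    h.eval r ∈ d.R := by
  rw [eval_eq_sum]
  exact d.R.sum_mem fun i _ => d.R.mul_mem (hR i) (d.R.pow_mem hr i)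

theorem exists_u {q : Ideal d.R} (hq : q.IsPrime)
    (hk : ∃ k, ¬ d.In q (d.P.coeff k ^ p ^ s - d.P.coeff k)) {j k' : Fin d.n} (hjk : j ≠ k') :
    ∃ u ∈ d.U j k', ¬ d.In q u := by
  have hPR := d.coeff_mem_R
  have hOm : ∀ i : Fin d.n, d.co i (-(aeval d.ρ d.P')) =
      -(d.P.coeff i ^ p ^ s - d.P.coeff i) := fun i => by
    rw [s3a_Om, d.s3a_co_aeval d.s3a_deg, s3a_coeff]
  have hOO : d.OO (-(aeval d.ρ d.P')) := fun i => by
    rw [hOm]
    exact d.R.neg_mem (d.R.sub_mem (d.R.pow_mem (hPR _) _) (hPR _))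
  have hOq : ∃ i, ¬ d.In q (d.co i (-(aeval d.ρ d.P'))) := by
    obtain ⟨k, hk⟩ := hk
    have hkn : k < d.n := by
      by_contra h
      apply hk
      rw [d.s3a_coeff_ge (not_lt.1 h)]
      exact in_zero
    refine ⟨⟨k, hkn⟩, fun h => hk ?_⟩
    rw [hOm] at h
    have := h.neg
    rwa [neg_neg] at this
  have hy : d.Prim (d.z k' * d.b j) := Prim.mul d (d.s3a_prim_z k') (d.s3a_prim_b j)
  obtain ⟨hG, i₀, hGq⟩ := d.s3a_content hq hOO hOq hy
  set Om : κ := -(aeval d.ρ d.P') with hOmdef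
  set y : κ := d.z k' * d.b j with hydef
  obtain ⟨g, hgn, hg⟩ := d.B.exists_eq_aeval (Om ^ 2 / y)
  have hgc : ∀ i : Fin d.n, d.co i (Om ^ 2 / y) = g.coeff i := fun i => by
    rw [hg]
    exact d.s3a_co_aeval hgn i
  have hgR : ∀ i, g.coeff i ∈ d.R := by
    intro i
    by_cases hi : i < d.n
    · have := hG ⟨i, hi⟩
      rwa [hgc] at this
    · rw [coeff_eq_zero_of_natDegree_lt (hgn.trans_le (not_lt.1 hi))]
      exact d.R.zero_mem
  have hg0 : g.eval 0 ∈ d.R := d.s3a_eval_mem hgR d.R.zero_mem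
  have hP0 := d.P_eval_unit d.R.zero_mem
  have hP0q : ¬ d.In q (d.P.eval 0) := by
    intro h
    apply not_in_one hq
    rw [← mul_inv_cancel₀ hP0.1]
    exact h.mul_right hP0.2.2
  set H : F[X] := C (d.P.eval 0) * g - C (g.eval 0) * d.P with hH
  have hHc : ∀ i, H.coeff i = d.P.eval 0 * g.coeff i - g.eval 0 * d.P.coeff i := fun i => by
    rw [hH, coeff_sub, coeff_C_mul, coeff_C_mul]
  have hHR : ∀ i, H.coeff i ∈ d.R := fun i => by
    rw [hHc]
    exact d.R.sub_mem (d.R.mul_mem hP0.2.1 (hgR i)) (d.R.mul_mem hg0 (hPR i))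
  have hHq : ∃ i, ¬ d.In q (H.coeff i) := by
    by_cases h0 : d.In q (g.eval 0)
    · refine ⟨i₀, fun h => ?_⟩
      rw [hHc] at h
      have h1 : d.In q (d.P.eval 0 * g.coeff i₀) := by
        have := h.add (h0.mul_right (hPR i₀))
        rwa [sub_add_cancel] at this
      rcases in_prime hq hP0.2.1 (hgR i₀) h1 with h2 | h2
      · exact hP0q h2
      · apply hGq
        rw [hgc]
        exact h2
    · refine ⟨d.n, fun h => h0 ?_⟩
      rw [hHc, coeff_eq_zero_of_natDegree_lt hgn] at h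
      have e : d.P.coeff d.n = 1 := by
        have := d.s3a_monic.coeff_natDegree
        rwa [s3a_natDegree] at this
      rw [e, mul_zero, zero_sub, mul_one] at h
      have := h.neg
      rwa [neg_neg] at this
  obtain ⟨r, hr, hrq⟩ := d.exists_eval_not_in hq hk hHR hHq
  have hH0 : H.coeff 0 = 0 := by
    rw [hHc, coeff_zero_eq_eval_zero, coeff_zero_eq_eval_zero]
    ring
  have hr0 : r ≠ 0 := by
    rintro rfl
    apply hrq
    rw [← coeff_zero_eq_eval_zero, hH0]
    exact in_zero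
  have hH1 : H.eval r = H.divX.eval r * r := by
    conv_lhs => rw [← divX_mul_X_add H]
    rw [hH0, eval_add, eval_mul, eval_X, C_0, eval_zero, add_zero]
  refine ⟨d.θ (d.w r * d.w 0 / (d.z k' * d.b j)), d.u_mem_U hjk hr0, fun hu => hrq ?_⟩
  have hne := d.s3a_ne r
  have hne0 := d.s3a_ne 0
  have hy0 : y ≠ 0 := Prim.ne_zero d hy
  have hrk : algebraMap F κ r ≠ 0 := by
    rwa [Ne, map_eq_zero]
  have e1 : d.w r * d.w 0 / (d.z k' * d.b j) = r⁻¹ •
      (aeval d.ρ g / (d.ρ - algebraMap F κ r) - aeval d.ρ g / (d.ρ - algebraMap F κ 0)) := by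
    have hg' : aeval d.ρ g = Om ^ 2 / y := hg.symm
    rw [hg', w, w, ← hOmdef, ← hydef, Algebra.smul_def, map_inv₀]
    rw [map_zero, sub_zero] at hne0 ⊢
    field_simp
    ring
  have e2 : d.θ (d.w r * d.w 0 / (d.z k' * d.b j)) * (d.P.eval r * d.P.eval 0) =
      -(H.divX.eval r) := by
    have hP0' := d.P_eval_ne 0
    have hPr := d.P_eval_ne r
    rw [e1, map_smul, map_sub, d.theta_div hgn, d.theta_div hgn, smul_eq_mul]
    have e3 : H.divX.eval r = H.eval r / r := by
      rw [hH1]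
      field_simp
    rw [e3, hH, eval_sub, eval_mul, eval_mul, eval_C, eval_C]
    field_simp
    ring
  have hu2 : d.In q (-(H.divX.eval r)) := by
    rw [← e2]
    exact hu.mul_right (d.R.mul_mem (d.P_eval_unit hr).2.1 hP0.2.1)
  rw [hH1]
  have := hu2.neg
  rw [neg_neg] at this
  exact this.mul_right hr

end Dat

end Pool.Agent.LibHG80
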