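import Pool.Agent.LibHG80.RowInv
import Pool.Agent.LibHG80.RowMin
import Pool.Agent.LibHG80.RowCong

/-!
The valuation rings over `R`, the Gauss norm in coordinates, the final form of the statement.
-/

set_option autoImplicit false

namespace Pool.Agent.LibHG80

open Module Polynomial

namespace Dat

variable {F κ A : Type*} [Field F] [Field κ] [Algebra F κ] [AddCommGroup A] {p s : ℕ}
  [hp : Fact p.Prime] [hc : CharP F p] (d : Dat F κ A p s)

/-- The valuation ring of a prime of `R`. -/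
theorem exists_val {q : Ideal d.R} (hq : q.IsPrime) : ∃ O : ValuationSubring F,
    (∀ x ∈ d.R, x ∈ O) ∧ ∀ x ∈ d.R, (O.valuation x < 1 ↔ d.In q x) := by
  classical
  have h1 : ¬ d.In q 1 := not_in_one hq
  have hne : ∀ {b : F}, ¬ d.In q b → b ≠ 0 := by
    rintro b hb rfl
    exact hb in_zero
  let O : ValuationSubring F :=
    { carrier := {x | ∃ a ∈ d.R, ∃ b ∈ d.R, ¬ d.In q b ∧ x * b = a}
      mul_mem' := by
        rintro x y ⟨a, ha, b, hb, hbq, h⟩ ⟨a', ha', b', hb', hbq', h'⟩
        exact ⟨a * a', mul_mem ha ha', b * b', mul_mem hb hb', in_prime_not hq hb hb' hbq hbq',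
          by rw [← h, ← h']; ring⟩
      one_mem' := ⟨1, one_mem _, 1, one_mem _, h1, one_mul _⟩
      add_mem' := by
        rintro x y ⟨a, ha, b, hb, hbq, h⟩ ⟨a', ha', b', hb', hbq', h'⟩
        exact ⟨a * b' + a' * b, add_mem (mul_mem ha hb') (mul_mem ha' hb), b * b', mul_mem hb hb',
          in_prime_not hq hb hb' hbq hbq', by rw [← h, ← h']; ring⟩
      zero_mem' := ⟨0, zero_mem _, 1, one_mem _, h1, zero_mul _⟩
      neg_mem' := by
        rintro x ⟨a, ha, b, hb, hbq, h⟩
        exact ⟨-a, neg_mem ha, b, hb, hbq, by rw [← h]; ring⟩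
      mem_or_inv_mem' := by
        intro x
        by_cases hx : x = 0
        · left
          rw [hx]
          exact ⟨0, zero_mem _, 1, one_mem _, h1, zero_mul _⟩
        obtain ⟨g, x', y', u, v, hg, hx', hy', hxR, hyR, hu, hv, huv⟩ :=
          d.bezout x 1 (Or.inl hx)
        by_cases hyq : d.In q y'
        · right
          have hxq : ¬ d.In q x' := by
            intro h
            exact h1 (huv ▸ (h.mul_left hu).add (hyq.mul_left hv))
          refine ⟨y', hyR, x', hxR, hxq, ?_⟩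
          have hx0 : x' ≠ 0 := hne hxq
          have : x * y' = x' := by
            have h2 : g * y' = 1 := hy'.symm
            calc x * y' = x' * (g * y') := by rw [hx']; ring
              _ = x' := by rw [h2, mul_one]
          rw [← this]
          field_simp
        · left
          refine ⟨x', hxR, y', hyR, hyq, ?_⟩
          have h2 : g * y' = 1 := hy'.symm
          calc x * y' = x' * (g * y') := by rw [hx']; ring
            _ = x' := by rw [h2, mul_one] }
  have hO : ∀ x : F, x ∈ O ↔ ∃ a ∈ d.R, ∃ b ∈ d.R, ¬ d.In q b ∧ x * b = a := fun x => Iff.rfl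
  have hRO : ∀ x ∈ d.R, x ∈ O := fun x hx => ⟨x, hx, 1, one_mem _, h1, mul_one _⟩
  refine ⟨O, hRO, fun x hx => ?_⟩
  constructor
  · intro h
    by_contra hxq
    have hx0 : x ≠ 0 := hne hxq
    have h2 : x⁻¹ ∈ O := ⟨1, one_mem _, x, hx, hxq, inv_mul_cancel₀ hx0⟩
    have h3 : O.valuation x⁻¹ ≤ 1 := (O.valuation_le_one_iff _).2 h2
    rw [map_inv₀] at h3
    have h4 : O.valuation x ≠ 0 := (Valuation.ne_zero_iff _).2 hx0
    exact absurd h (not_lt.2 ((inv_le_one₀ (zero_lt_iff.2 h4)).1 h3))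
  · intro h
    have h2 : O.valuation x ≤ 1 := (O.valuation_le_one_iff _).2 (hRO x hx)
    refine lt_of_le_of_ne h2 fun h3 => ?_
    by_cases hx0 : x = 0
    · rw [hx0, map_zero] at h3
      exact zero_ne_one h3
    have h4 : O.valuation x⁻¹ ≤ 1 := by rw [map_inv₀, h3, inv_one]
    obtain ⟨a, ha, b, hb, hbq, hab⟩ := (hO _).1 ((O.valuation_le_one_iff _).1 h4)
    refine hbq ?_
    have : b = a * x := by
      rw [← hab]
      field_simp
    rw [this]
    exact h.mul_left ha

lemma co_rho_pow_mem (m : ℕ) (k : Fin d.n) : d.co k (d.ρ ^ m) ∈ d.R := by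
  induction m generalizing k with
  | zero =>
    rw [pow_zero]
    exact d.OO_one k
  | succ m ih =>
    rw [pow_succ]
    exact d.OO_mul (fun i => ih i) d.OO_rho k

/-- The Gauss norm in coordinates. -/
noncomputable def nm (O : ValuationSubring F) (x : κ) : O.ValueGroup :=
  Finset.univ.sup fun k => O.valuation (d.co k x)

section nm

variable (O : ValuationSubring F)

omit hp hc in
lemma nm_le_iff {x : κ} {a : O.ValueGroup} : d.nm O x ≤ a ↔ ∀ k, O.valuation (d.co k x) ≤ a := by
  unfold nm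
  rw [Finset.sup_le_iff]
  simp

omit hp hc in
lemma le_nm (x : κ) (k : Fin d.n) : O.valuation (d.co k x) ≤ d.nm O x := (d.nm_le_iff O).1 le_rfl k

omit hp hc in
lemma exists_nm_eq (x : κ) : ∃ k, O.valuation (d.co k x) = d.nm O x := by
  obtain ⟨k, _, hk⟩ := Finset.exists_mem_eq_sup (Finset.univ : Finset (Fin d.n))
    ⟨d.first, Finset.mem_univ _⟩ (fun k => O.valuation (d.co k x))
  exact ⟨k, hk.symm⟩

omit hp hc in
lemma nm_lt_iff {x : κ} {a : O.ValueGroup} : d.nm O x < a ↔ ∀ k, O.valuation (d.co k x) < a := by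
  constructor
  · intro h k
    exact (d.le_nm O x k).trans_lt h
  · intro h
    obtain ⟨k, hk⟩ := d.exists_nm_eq O x
    rw [← hk]; exact h k

omit hp hc in
lemma nm_ne_zero {x : κ} (hx : x ≠ 0) : d.nm O x ≠ 0 := by
  intro h
  refine hx (d.ext_co fun k => ?_)
  rw [map_zero]
  have := d.le_nm O x k
  rw [h] at this
  exact (Valuation.zero_iff _).1 (le_antisymm this zero_le)

omit hp hc in
lemma nm_zero : d.nm O (0 : κ) = 0 := by
  refine le_antisymm ?_ zero_le
  rw [nm_le_iff]
  intro k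
  rw [map_zero, map_zero]

variable (hO : ∀ x ∈ d.R, x ∈ O)

include hO

lemma nm_mul_le (x y : κ) : d.nm O (x * y) ≤ d.nm O x * d.nm O y := by
  rw [nm_le_iff]
  intro k
  have h : d.co k (x * y) = ∑ i, ∑ j, d.co i x * d.co j y * d.co k (d.ρ ^ ((i : ℕ) + (j : ℕ))) := by
    conv_lhs => rw [← d.sum_co x, ← d.sum_co y, Finset.sum_mul_sum, map_sum]
    refine Finset.sum_congr rfl fun i _ => ?_
    rw [map_sum]
    refine Finset.sum_congr rfl fun j _ => ?_
    rw [smul_mul_smul_comm, ← pow_add, map_smul, smul_eq_mul]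
  rw [h]
  refine Valuation.map_sum_le _ fun i _ => Valuation.map_sum_le _ fun j _ => ?_
  rw [map_mul, map_mul]
  have h1 : O.valuation (d.co k (d.ρ ^ ((i : ℕ) + (j : ℕ)))) ≤ 1 :=
    (O.valuation_le_one_iff _).2 (hO _ (d.co_rho_pow_mem _ _))
  calc _ ≤ O.valuation (d.co i x) * O.valuation (d.co j y) * 1 := by gcongr
    _ = O.valuation (d.co i x) * O.valuation (d.co j y) := mul_one _
    _ ≤ d.nm O x * d.nm O y := by gcongr <;> [exact d.le_nm O x i; exact d.le_nm O y j]

lemma nm_inv_le {x : κ} (hx : x ≠ 0) : d.nm O x⁻¹ * d.nm O x ≤ 1 := by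
  obtain ⟨i, hi⟩ := d.exists_nm_eq O x⁻¹
  obtain ⟨j, hj⟩ := d.exists_nm_eq O x
  rw [← hi, ← hj, ← map_mul]
  exact (O.valuation_le_one_iff _).2 (hO _ (d.content_inv hx i j))

lemma nm_mul (x y : κ) : d.nm O (x * y) = d.nm O x * d.nm O y := by
  refine le_antisymm (d.nm_mul_le O hO x y) ?_
  by_cases hy : y = 0
  · rw [hy, mul_zero, nm_zero, mul_zero]
  have h1 : d.nm O x ≤ d.nm O (x * y) * d.nm O y⁻¹ := by
    have h := d.nm_mul_le O hO (x * y) y⁻¹
    rwa [mul_assoc, mul_inv_cancel₀ hy, mul_one] at h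
  calc d.nm O x * d.nm O y ≤ d.nm O (x * y) * d.nm O y⁻¹ * d.nm O y := by gcongr
    _ = d.nm O (x * y) * (d.nm O y⁻¹ * d.nm O y) := mul_assoc _ _ _
    _ ≤ d.nm O (x * y) * 1 := by gcongr; exact d.nm_inv_le O hO hy
    _ = d.nm O (x * y) := mul_one _

end nm

/-- The final form: `c` depends only on the directions at the valuation rings over `R` and `UU`. -/
theorem hgR {g g' : κ} (hg : g ≠ 0) (hg' : g' ≠ 0)
    (h : ∀ O : ValuationSubring F, (∀ x ∈ d.R, x ∈ O) → (∀ t ∈ d.UU, O.valuation t < 1) →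
      ∃ lam : F, d.nm O (g' - lam • g) < d.nm O g') : d.c g = d.c g' := by
  obtain ⟨w, y, hw, hy, hgy⟩ := d.exists_prim (div_ne_zero hg' hg)
  have hy0 : y ≠ 0 := hy.ne_zero
  have e : g' = algebraMap F κ w * y * g := by
    rw [← Algebra.smul_def, ← hgy, div_mul_cancel₀ _ hg]
  have hw' : algebraMap F κ w ≠ 0 := by
    rw [Ne, map_eq_zero]
    exact hw
  have key : ∀ i, i ≠ d.first → d.co i y ∈ d.UU := by
    intro i hi
    by_contra hcon
    obtain ⟨q, hq, hUq, hyq, _⟩ := d.exists_minimal (hy.1 i) hcon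
    obtain ⟨O, hO1, hO2⟩ := d.exists_val hq
    obtain ⟨lam, hlam⟩ := h O hO1 fun t ht => (hO2 t (d.UU_le_R ht)).2 (hUq t ht)
    refine hyq ((hO2 _ (hy.1 i)).1 ?_)
    -- norm of `y` is one
    have hny : d.nm O y ≤ 1 := (d.nm_le_iff O).2 fun k =>
      (O.valuation_le_one_iff _).2 (hO1 _ (hy.1 k))
    have e2 : g' - lam • g = (w • y - lam • (1 : κ)) * g := by
      rw [e, sub_mul, Algebra.smul_def, Algebra.smul_def, Algebra.smul_def, mul_one]
    have e3 : g' = (w • y) * g := by rw [e, Algebra.smul_def]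
    rw [e2, e3, d.nm_mul O hO1, d.nm_mul O hO1] at hlam
    have h4 : d.nm O (w • y - lam • (1 : κ)) < d.nm O (w • y) := lt_of_mul_lt_mul_right' hlam
    have h5 := (d.nm_lt_iff O).1 h4 i
    have h6 : d.co i (w • y - lam • (1 : κ)) = w * d.co i y := by
      rw [map_sub, map_smul, map_smul, smul_eq_mul, smul_eq_mul]
      have h7 : (1 : κ) = d.b d.first := by
        change (1 : κ) = d.ρ ^ 0
        rw [pow_zero]
      rw [h7, d.co_b, if_neg hi, mul_zero, sub_zero]
    rw [h6, map_mul] at h5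
    have h8 : d.nm O (w • y) ≤ O.valuation w := by
      rw [nm_le_iff]
      intro k
      rw [map_smul, smul_eq_mul, map_mul]
      calc O.valuation w * O.valuation (d.co k y) ≤ O.valuation w * 1 := by
            gcongr
            exact (d.nm_le_iff O).1 hny k
        _ = O.valuation w := mul_one _
    have h9 := h5.trans_le h8
    have hw0 : 0 < O.valuation w := zero_lt_iff.2 ((Valuation.ne_zero_iff _).2 hw)
    by_contra h10
    rw [not_lt] at h10
    refine absurd h9 (not_lt.2 ?_)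
    calc O.valuation w = O.valuation w * 1 := (mul_one _).symm
      _ ≤ O.valuation w * O.valuation (d.co i y) := by gcongr
  have h1 := d.c_prim_eq_zero hy key
  have h2 : d.c g' = d.c g := by
    rw [e, d.c_mul _ _ (mul_ne_zero hw' hy0) hg, d.c_mul _ _ hw' hy0, d.c_alg w hw, h1]
    simp
  exact h2.symm

end Dat

end Pool.Agent.LibHG80
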