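import Pool.Agent.LibHG80.Basic

/-!
The setting: a homomorphism `c` on the multiplicative group of a simple extension `κ = F(ρ)` of
degree at least three, trivial on `F` and invariant under the operation which raises all coordinates
with respect to the powers of `ρ` to the power `q = p ^ s`.
-/

set_option autoImplicit false

namespace Pool.Agent.LibHG80

open Module Polynomial

/-- All coordinates to the power `q`. -/
noncomputable def fr {F κ : Type*} [Field F] [Field κ] [Algebra F κ] (B : PowerBasis F κ) (q : ℕ)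
    (x : κ) : κ :=
  ∑ i, (B.basis.coord i x) ^ q • B.gen ^ (i : ℕ)

/-- The data: `F` has a divisible multiplicative group, `c` is a homomorphism on `κˣ`, trivial on
`Fˣ`, such that raising the coordinates to the power `q = p ^ s` corresponds to an injective map on
the values (the identity, or the multiplication by `q`); the minimal polynomial is not constant. -/
structure Dat (F κ A : Type*) [Field F] [Field κ] [Algebra F κ] [AddCommGroup A] (p s : ℕ) where
  B : PowerBasis F κ
  hs : s ≠ 0
  hdim : 3 ≤ B.dim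
  hdiv : ∀ m : ℕ, 0 < m → ∀ a : F, ∃ b : F, b ^ m = a
  c : κ → A
  c_mul : ∀ x y, x ≠ 0 → y ≠ 0 → c (x * y) = c x + c y
  c_alg : ∀ f : F, f ≠ 0 → c (algebraMap F κ f) = 0
  u : A →+ A
  hu : Function.Injective u
  c_fr : ∀ x, x ≠ 0 → c (fr B (p ^ s) x) = u (c x)
  hnc : ∃ k, (minpoly F B.gen).coeff k ^ p ^ s ≠ (minpoly F B.gen).coeff k

namespace Dat

variable {F κ A : Type*} [Field F] [Field κ] [Algebra F κ] [AddCommGroup A] {p s : ℕ}
  [hp : Fact p.Prime] [hc : CharP F p] (d : Dat F κ A p s)

/-- the degree -/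
abbrev n : ℕ := d.B.dim

/-- the generator -/
abbrev ρ : κ := d.B.gen

/-- the basis -/
noncomputable abbrev b (k : Fin d.n) : κ := d.ρ ^ (k : ℕ)

/-- all coordinates to the power `q` -/
noncomputable abbrev Fr (x : κ) : κ := fr d.B (p ^ s) x

/-- the coordinates -/
noncomputable def co (k : Fin d.n) : κ →ₗ[F] F := d.B.basis.coord k

/-- the first index -/
def first : Fin d.n := ⟨0, Nat.lt_of_lt_of_le (by norm_num) d.hdim⟩

/-- the last index -/
def last : Fin d.n := ⟨d.n - 1, Nat.sub_lt (Nat.lt_of_lt_of_le (by norm_num) d.hdim) one_pos⟩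

/-- the last coordinate -/
noncomputable def θ : κ →ₗ[F] F := d.co d.last

/-- the minimal polynomial -/
noncomputable def P : F[X] := minpoly F d.ρ

/-- its coefficients to the power `q` -/
noncomputable def P' : F[X] := d.P.map (iterateFrobenius F p s)

/-- the vector of the homology -/
noncomputable def w (r : F) : κ := -(aeval d.ρ d.P') / (d.ρ - algebraMap F κ r)

/-- its multiplier -/
noncomputable def f (r : F) : F := d.P'.eval r / d.P.eval r

/-- the dual basis -/
noncomputable def z (k : Fin d.n) : κ := ∑ i : Fin d.n, d.P.coeff ((i : ℕ) + (k : ℕ) + 1) • d.b i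

/-- the functional `φ (y x)` -/
noncomputable def tw (φ : κ →ₗ[F] F) (y : κ) : κ →ₗ[F] F := φ ∘ₗ LinearMap.mulLeft F y

omit hp hc in
@[simp] lemma tw_apply (φ : κ →ₗ[F] F) (y x : κ) : tw φ y x = φ (y * x) := rfl

/-- The functional with the values `φ (b k) ^ q`. -/
noncomputable def frf (φ : κ →ₗ[F] F) : κ →ₗ[F] F := ∑ k, (φ (d.b k)) ^ p ^ s • d.co k

/-- The ring of the multipliers of the transvections which preserve `c`. -/
def Al : Subring F where
  carrier := {a | ∀ (w : κ) (φ : κ →ₗ[F] F), Tv d.c w φ → Tv d.c w (a • φ)}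
  mul_mem' := fun {a b} ha hb w φ h => by
    rw [mul_smul]
    exact ha w _ (hb w φ h)
  one_mem' := fun w φ h => by rwa [one_smul]
  add_mem' := fun {a b} ha hb w φ h => by
    rw [add_smul]
    exact (ha w φ h).add (hb w φ h)
  zero_mem' := fun w φ h => by
    rw [zero_smul]
    exact Tv.zero w
  neg_mem' := fun {a} ha w φ h => by
    have e : (-a) • φ = -(a • φ) := neg_smul a φ
    rw [e]
    exact (ha w φ h).neg

/-- The elementary transvections with the indices `j`, `k` which preserve `c`. -/
def U (j k : Fin d.n) : AddSubgroup F where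
  carrier := {t | j = k ∨ Tv d.c (d.b j) (t • d.co k)}
  add_mem' := by
    rintro a b (h | h) h'
    · exact Or.inl h
    · rcases h' with h' | h'
      · exact Or.inl h'
      · right
        rw [add_smul]
        exact h.add h'
  zero_mem' := by
    right
    rw [zero_smul]
    exact Tv.zero _
  neg_mem' := by
    intro x h
    rcases h with h | h
    · exact Or.inl h
    · right
      have e : (-x) • d.co k = -(x • d.co k) := neg_smul x (d.co k)
      rw [e]
      exact h.neg

omit hp hc in
lemma mem_U {j k : Fin d.n} (h : j ≠ k) {t : F} : t ∈ d.U j k ↔ Tv d.c (d.b j) (t • d.co k) :=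
  ⟨fun h' => h'.resolve_left h, Or.inr⟩

/-- The intersection. -/
def UU : AddSubgroup F := ⨅ j, ⨅ k, d.U j k

omit hp hc in
lemma mem_UU {t : F} : t ∈ d.UU ↔ ∀ j k, t ∈ d.U j k := by
  simp only [UU, AddSubgroup.mem_iInf]

omit hp hc in
lemma mem_UU' {t : F} : t ∈ d.UU ↔ ∀ j k, j ≠ k → Tv d.c (d.b j) (t • d.co k) := by
  rw [mem_UU]
  exact ⟨fun h j k hjk => (d.mem_U hjk).1 (h j k), fun h j k => by
    by_cases hjk : j = k
    · exact Or.inl hjk
    · exact Or.inr (h j k hjk)⟩

/-- The multiplier ring of `UU`. -/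
def R : Subring F where
  carrier := {x | ∀ t ∈ d.UU, x * t ∈ d.UU}
  mul_mem' := fun {a b} ha hb t ht => by
    rw [mul_assoc]
    exact ha _ (hb t ht)
  one_mem' := fun t ht => by rwa [one_mul]
  add_mem' := fun {a b} ha hb t ht => by
    rw [add_mul]
    exact add_mem (ha t ht) (hb t ht)
  zero_mem' := fun t ht => by
    rw [zero_mul]
    exact zero_mem _
  neg_mem' := fun {a} ha t ht => by
    rw [neg_mul]
    exact neg_mem (ha t ht)

omit hp hc in
lemma mem_R {x : F} : x ∈ d.R ↔ ∀ t ∈ d.UU, x * t ∈ d.UU := Iff.rfl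

omit hp hc in
lemma mem_Al {a : F} : a ∈ d.Al ↔ ∀ (w : κ) (φ : κ →ₗ[F] F), Tv d.c w φ → Tv d.c w (a • φ) :=
  Iff.rfl

end Dat

end Pool.Agent.LibHG80
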