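import Pool.Agent.LibHG80.ThetaA

/-!
ROW TH. The dual basis `z k` of `b k` for the form `θ (x y)`.
-/

set_option autoImplicit false

namespace Pool.Agent.LibHG80.Dat

open Module Polynomial

variable {F κ A : Type*} [Field F] [Field κ] [Algebra F κ] [AddCommGroup A] {p s : ℕ}
  [hp : Fact p.Prime] [hc : CharP F p] (d : Dat F κ A p s)

omit hp hc in
lemma co_z (i k : Fin d.n) : d.co i (d.z k) = d.P.coeff ((i : ℕ) + (k : ℕ) + 1) :=
  d.co_sum_b (fun i => d.P.coeff ((i : ℕ) + (k : ℕ) + 1)) i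

omit hp hc in
lemma P_coeff_n : d.P.coeff d.n = 1 := by
  rw [← d.P_natDegree]
  exact d.P_monic

omit hp hc in
lemma P_coeff_gt {m : ℕ} (h : d.n < m) : d.P.coeff m = 0 :=
  coeff_eq_zero_of_natDegree_lt (by rw [P_natDegree]; exact h)

omit hp hc in
lemma z_ne (k : Fin d.n) : d.z k ≠ 0 := by
  intro h
  have hk := k.2
  have h1 := d.co_z ⟨d.n - 1 - k, by omega⟩ k
  rw [h, map_zero] at h1
  have e : d.n - 1 - (k : ℕ) + (k : ℕ) + 1 = d.n := by omega
  simp only [e] at h1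
  rw [P_coeff_n] at h1
  exact zero_ne_one h1

omit hp hc in
/-- the multiplication by `ρ` in coordinates. -/
lemma co_rho_mul (k : ℕ) (hk : k + 1 < d.n) (x : κ) :
    d.co ⟨k + 1, hk⟩ (d.ρ * x) = d.co ⟨k, Nat.lt_of_succ_lt hk⟩ x - d.P.coeff (k + 1) * d.θ x := by
  have hn' : 3 ≤ d.n := d.hdim
  let f1 : κ →ₗ[F] F := d.co ⟨k + 1, hk⟩ ∘ₗ LinearMap.mulLeft F d.ρ
  let f2 : κ →ₗ[F] F := d.co ⟨k, Nat.lt_of_succ_lt hk⟩ - d.P.coeff (k + 1) • d.θ
  have key : ∀ j : Fin d.n, f1 (d.b j) = f2 (d.b j) := by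
    intro j
    show d.co ⟨k + 1, hk⟩ (d.ρ * d.b j) = d.co ⟨k, Nat.lt_of_succ_lt hk⟩ (d.b j) -
      d.P.coeff (k + 1) * d.θ (d.b j)
    rw [θ, co_b, co_b]
    by_cases hj : d.last = j
    · subst hj
      have e1 : d.ρ * d.b d.last = d.ρ ^ d.n := by
        show d.ρ * d.ρ ^ (d.n - 1) = _
        rw [← pow_succ', Nat.sub_add_cancel (by omega)]
      rw [e1, pow_n_eq, map_neg, co_sum_b, if_pos rfl, if_neg]
      · ring
      · intro h
        have h1 := congrArg Fin.val h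
        have h2 : k = d.n - 1 := h1
        omega
    · have hj' : (j : ℕ) + 1 < d.n := by
        have h5 := j.2
        have h6 : (j : ℕ) ≠ d.n - 1 := fun h => hj (Fin.ext h.symm)
        omega
      have e1 : d.ρ * d.b j = d.b ⟨(j : ℕ) + 1, hj'⟩ := (pow_succ' d.ρ (j : ℕ)).symm
      rw [e1, co_b, if_neg hj, mul_zero, sub_zero]
      by_cases h : k = (j : ℕ)
      · subst h
        rw [if_pos rfl, if_pos rfl]
      · rw [if_neg (fun h' => h (by have := congrArg Fin.val h'; simp only at this; omega)),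
          if_neg (fun h' => h (congrArg Fin.val h'))]
  have h5 : f1 x = f2 x := by
    rw [← d.sum_co x, map_sum, map_sum]
    exact Finset.sum_congr rfl fun j _ => by rw [map_smul, map_smul, key]
  exact h5

omit hp hc in
lemma z_last : d.z d.last = 1 := by
  have hn' : 3 ≤ d.n := d.hdim
  have h1 : (1 : κ) = d.b d.first := (pow_zero d.ρ).symm
  refine d.ext_co fun i => ?_
  rw [co_z, h1, co_b]
  have e : (d.last : ℕ) = d.n - 1 := rfl
  rw [e]
  by_cases hi : i = d.first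
  · subst hi
    have e2 : (d.first : ℕ) = 0 := rfl
    rw [if_pos rfl, e2, show 0 + (d.n - 1) + 1 = d.n by omega, P_coeff_n]
  · have hi' : (i : ℕ) ≠ 0 := fun h => hi (Fin.ext h)
    rw [if_neg hi]
    exact d.P_coeff_gt (by omega)

omit hp hc in
/-- the recursion of Horner. -/
lemma rho_mul_z (k : ℕ) (hk : k + 1 < d.n) :
    d.ρ * d.z ⟨k + 1, hk⟩ = d.z ⟨k, Nat.lt_of_succ_lt hk⟩ -
      algebraMap F κ (d.P.coeff (k + 1)) := by
  have hn' : 3 ≤ d.n := d.hdim
  have e1 : d.ρ * d.z ⟨k + 1, hk⟩ =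
      ∑ i ∈ Finset.range d.n, d.P.coeff (i + 1 + (k + 1)) • d.ρ ^ (i + 1) := by
    rw [z, Finset.mul_sum, Finset.sum_range]
    refine Finset.sum_congr rfl fun i _ => ?_
    rw [mul_smul_comm, ← pow_succ', show (i : ℕ) + (k + 1) + 1 = (i : ℕ) + 1 + (k + 1) by ring]
  have e2 : d.z ⟨k, Nat.lt_of_succ_lt hk⟩ =
      ∑ i ∈ Finset.range d.n, d.P.coeff (i + (k + 1)) • d.ρ ^ i := by
    rw [z, Finset.sum_range]
    rfl
  have e3 := Finset.sum_range_succ' (fun i => d.P.coeff (i + (k + 1)) • d.ρ ^ i) d.n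
  have e4 := Finset.sum_range_succ (fun i => d.P.coeff (i + (k + 1)) • d.ρ ^ i) d.n
  rw [e4, d.P_coeff_gt (show d.n < d.n + (k + 1) by omega), zero_smul, add_zero, pow_zero,
    zero_add] at e3
  rw [e1, e2, e3, Algebra.algebraMap_eq_smul_one]
  ring

omit hp hc in
/-- The functional `co k` is `x ↦ θ (z k * x)`. -/
lemma co_eq (k : Fin d.n) (x : κ) : d.co k x = d.θ (d.z k * x) := by
  have hn' : 3 ≤ d.n := d.hdim
  have key : ∀ m : ℕ, ∀ (hm : m < d.n) (x : κ),
      d.co ⟨d.n - 1 - m, by omega⟩ x = d.θ (d.z ⟨d.n - 1 - m, by omega⟩ * x) := by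
    intro m
    induction m with
    | zero =>
      intro hm x
      have e : d.z ⟨d.n - 1 - 0, by omega⟩ = 1 := d.z_last
      rw [e, one_mul]
      rfl
    | succ m ih =>
      intro hm x
      have hk : d.n - 1 - (m + 1) + 1 < d.n := by omega
      have e0 : d.n - 1 - m = d.n - 1 - (m + 1) + 1 := by omega
      have h1 := d.co_rho_mul (d.n - 1 - (m + 1)) hk x
      have h2 := ih (by omega) (d.ρ * x)
      simp only [e0] at h2
      rw [h2, ← mul_assoc, mul_comm (d.z _) d.ρ, d.rho_mul_z _ hk, sub_mul, map_sub,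
        ← Algebra.smul_def, map_smul, smul_eq_mul] at h1
      have h3 := sub_left_injective h1
      exact h3.symm
  have h := key (d.n - 1 - k) (by omega) x
  have hk := k.2
  have e : d.n - 1 - (d.n - 1 - (k : ℕ)) = k := by omega
  simp only [e] at h
  exact h

omit hp hc in
lemma co_eq_tw (k : Fin d.n) : d.co k = tw d.θ (d.z k) :=
  LinearMap.ext fun x => d.co_eq k x

omit hp hc in
/-- `ρ * z 0 = - a_0`. -/
lemma rho_mul_z_first : d.ρ * d.z d.first = -(algebraMap F κ (d.P.coeff 0)) := by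
  have hn' : 3 ≤ d.n := d.hdim
  have e1 : d.ρ * d.z d.first =
      ∑ i ∈ Finset.range d.n, d.P.coeff (i + 1) • d.ρ ^ (i + 1) := by
    rw [z, Finset.mul_sum, Finset.sum_range]
    refine Finset.sum_congr rfl fun i _ => ?_
    rw [mul_smul_comm, ← pow_succ']
    rfl
  have e2 := d.P_aeval
  rw [aeval_eq_sum_range, P_natDegree, Finset.sum_range_succ', pow_zero] at e2
  rw [e1, Algebra.algebraMap_eq_smul_one]
  exact eq_neg_of_add_eq_zero_left e2

omit hp hc in
lemma tw_sum {ι : Type*} (t : Finset ι) (φ : κ →ₗ[F] F) (y : ι → κ) :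
    tw φ (∑ i ∈ t, y i) = ∑ i ∈ t, tw φ (y i) := by
  refine LinearMap.ext fun x => ?_
  rw [tw_apply, Finset.sum_mul, map_sum, LinearMap.sum_apply]
  rfl

omit hp hc in
/-- `θ` generates the dual space over `κ`. -/
lemma exists_tw (φ : κ →ₗ[F] F) : ∃ y : κ, φ = tw d.θ y := by
  refine ⟨∑ k, φ (d.b k) • d.z k, LinearMap.ext fun x => ?_⟩
  rw [tw_apply, Finset.sum_mul, map_sum, d.apply_eq φ x]
  refine Finset.sum_congr rfl fun k _ => ?_
  rw [smul_mul_assoc, map_smul, smul_eq_mul, co_eq]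

omit hp hc in
lemma theta_nondeg {y : κ} (h : ∀ x, d.θ (y * x) = 0) : y = 0 := by
  by_contra hy
  have h1 := h (y⁻¹ * d.b d.last)
  rw [mul_inv_cancel_left₀ hy, θ, co_b, if_pos rfl] at h1
  exact one_ne_zero h1

omit hp hc in
/-- The coordinates of `ρ⁻¹`. -/
lemma rho_inv : d.ρ⁻¹ = -(d.P.coeff 0)⁻¹ • d.z d.first := by
  have h1 := d.rho_mul_z_first
  have h3 : algebraMap F κ (d.P.coeff 0) ≠ 0 := by
    intro h
    exact d.a0_ne ((map_eq_zero_iff _ (algebraMap F κ).injective).1 h)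
  rw [Algebra.smul_def, map_neg, map_inv₀]
  refine inv_eq_of_mul_eq_one_right ?_
  calc d.ρ * (-(algebraMap F κ (d.P.coeff 0))⁻¹ * d.z d.first)
      = -(algebraMap F κ (d.P.coeff 0))⁻¹ * (d.ρ * d.z d.first) := by ring
    _ = 1 := by rw [h1, neg_mul_neg, inv_mul_cancel₀ h3]

end Pool.Agent.LibHG80.Dat
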