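import Pool.Agent.LibHG80.Fr

/-!
ROW TA. Facts on the minimal polynomial, the formula `θ (g(ρ) / (ρ - r)) = - g(r) / P(r)`.
-/

set_option autoImplicit false

namespace Pool.Agent.LibHG80.Dat

open Module Polynomial

variable {F κ A : Type*} [Field F] [Field κ] [Algebra F κ] [AddCommGroup A] {p s : ℕ}
  [hp : Fact p.Prime] [hc : CharP F p] (d : Dat F κ A p s)

omit hp hc in
lemma P_monic : d.P.Monic := minpoly.monic d.B.isIntegral_gen

omit hp hc in
lemma P_irr : Irreducible d.P := minpoly.irreducible d.B.isIntegral_gen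

omit hp hc in
lemma P_natDegree : d.P.natDegree = d.n := d.B.natDegree_minpoly

omit hp hc in
lemma P_aeval : aeval d.ρ d.P = 0 := minpoly.aeval F d.ρ

omit hp hc in
lemma P_eval_ne (r : F) : d.P.eval r ≠ 0 := by
  intro h
  have h1 : d.P.degree = 1 := degree_eq_one_of_irreducible_of_root d.P_irr h
  have h2 : d.P.natDegree = 1 := natDegree_eq_of_degree_eq_some h1
  have h3 := d.hdim
  rw [P_natDegree] at h2
  have h4 : d.B.dim = 1 := h2
  omega

omit hp hc in
lemma rho_ne (r : F) : d.ρ - algebraMap F κ r ≠ 0 := by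
  intro h
  have h1 := d.P_aeval
  rw [sub_eq_zero.1 h, aeval_algebraMap_apply_eq_algebraMap_eval] at h1
  exact d.P_eval_ne r ((map_eq_zero_iff _ (algebraMap F κ).injective).1 h1)

omit hp hc in
lemma rho_ne_zero : d.ρ ≠ 0 := by
  have h := d.rho_ne 0
  rwa [map_zero, sub_zero] at h

omit hp hc in
lemma a0_ne : d.P.coeff 0 ≠ 0 := by
  rw [coeff_zero_eq_eval_zero]
  exact d.P_eval_ne 0

lemma P'_monic : d.P'.Monic := d.P_monic.map _

lemma P'_natDegree : d.P'.natDegree = d.n := by
  rw [P', natDegree_map, P_natDegree]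

lemma P'_coeff (k : ℕ) : d.P'.coeff k = d.P.coeff k ^ p ^ s := by
  rw [P', coeff_map, iterateFrobenius_def]

lemma P'_eval_pow (r : F) : d.P'.eval (r ^ p ^ s) = d.P.eval r ^ p ^ s := by
  rw [P', ← iterateFrobenius_def p s r, eval_map, eval₂_hom, iterateFrobenius_def]

lemma P'_eval_ne (r : F) : d.P'.eval r ≠ 0 := by
  obtain ⟨r', rfl⟩ := d.exists_root r
  rw [P'_eval_pow]
  exact pow_ne_zero _ (d.P_eval_ne r')

lemma P'_ne : d.P' ≠ d.P := by
  intro h
  obtain ⟨k, hk⟩ := d.hnc
  have h1 := d.P'_coeff k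
  rw [h] at h1
  exact hk h1.symm

/-- `P' - P` is not zero and has degree `< n`. -/
lemma P'_aeval_ne : aeval d.ρ d.P' ≠ 0 := by
  intro h
  have h1 : d.P ∣ d.P' := minpoly.dvd F d.ρ h
  exact d.P'_ne (eq_of_monic_of_dvd_of_natDegree_le d.P_monic d.P'_monic h1
    (by rw [P'_natDegree, P_natDegree]))

/-- `F` is infinite: otherwise `Fˣ` is trivial, `F` has two elements and `a ^ q = a`. -/
lemma infinite (d : Dat F κ A p s) : Infinite F := by
  by_contra hinf
  have hfin : Finite F := not_infinite_iff_finite.1 hinf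
  have := Fintype.ofFinite F
  have hq : p ^ s ≠ 0 := (pow_pos hp.out.pos s).ne'
  have h1 : ∀ a : F, a ^ p ^ s = a := by
    intro a
    by_cases ha : a = 0
    · rw [ha, zero_pow hq]
    · have hcard : 0 < Fintype.card F - 1 := by
        have := Fintype.one_lt_card (α := F)
        omega
      obtain ⟨b, hb⟩ := d.hdiv (Fintype.card F - 1) hcard a
      have hb0 : b ≠ 0 := by
        rintro rfl
        rw [zero_pow hcard.ne'] at hb
        exact ha hb.symm
      rw [FiniteField.pow_card_sub_one_eq_one b hb0] at hb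
      rw [← hb, one_pow]
  obtain ⟨k, hk⟩ := d.hnc
  exact hk (h1 _)

omit hp hc in
lemma co_aeval (g : F[X]) (hg : g.natDegree < d.n) (k : Fin d.n) :
    d.co k (aeval d.ρ g) = g.coeff k := by
  have h1 : aeval d.ρ g = ∑ i : Fin d.n, g.coeff (i : ℕ) • d.b i := by
    rw [aeval_eq_sum_range' hg, Finset.sum_range]
  rw [h1, co_sum_b]

omit hp hc in
/-- Elements of `κ` and polynomials of degree `< n`. -/
lemma exists_aeval (x : κ) : ∃ g : F[X], g.natDegree < d.n ∧ aeval d.ρ g = x ∧
    ∀ k : Fin d.n, g.coeff k = d.co k x := by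
  obtain ⟨g, hg, hx⟩ := d.B.exists_eq_aeval x
  exact ⟨g, hg, hx.symm, fun k => by rw [hx, co_aeval _ _ hg]⟩

omit hp hc in
/-- FORMULA (F). -/
lemma theta_div' (g : F[X]) (hg : g.natDegree < d.n) (r : F) :
    d.θ (aeval d.ρ g / (d.ρ - algebraMap F κ r)) = -(g.eval r / d.P.eval r) := by
  have hn := d.hdim
  have hn' : 3 ≤ d.n := hn
  have hr := d.rho_ne r
  have hP := d.P_eval_ne r
  -- the quotients
  have e1 : ∀ f : F[X], aeval d.ρ f = (d.ρ - algebraMap F κ r) * aeval d.ρ (f /ₘ (X - C r)) +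
      algebraMap F κ (f.eval r) := by
    intro f
    conv_lhs => rw [← modByMonic_add_div f (X - C r), modByMonic_X_sub_C_eq_C_eval]
    rw [map_add, map_mul, aeval_C, map_sub, aeval_X, aeval_C]
    ring
  have e2 : ∀ f : F[X], f.natDegree < d.n → d.θ (aeval d.ρ (f /ₘ (X - C r))) = 0 := by
    intro f hf
    have h1 : (f /ₘ (X - C r)).natDegree = f.natDegree - 1 := by
      rw [natDegree_divByMonic f (monic_X_sub_C r), natDegree_X_sub_C]
    have h2 : (f /ₘ (X - C r)).natDegree < d.n - 1 := by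
      rw [h1]; omega
    rw [θ, co_aeval _ _ (lt_of_lt_of_le h2 (Nat.sub_le _ _))]
    exact coeff_eq_zero_of_natDegree_lt h2
  have e3 : d.θ (aeval d.ρ (d.P /ₘ (X - C r))) = 1 := by
    have h1 : (d.P /ₘ (X - C r)).natDegree = d.n - 1 := by
      rw [natDegree_divByMonic d.P (monic_X_sub_C r), natDegree_X_sub_C, P_natDegree]
    rw [θ, co_aeval _ _ (by rw [h1]; omega)]
    have h2 : (d.P /ₘ (X - C r)).leadingCoeff = 1 := by
      rw [leadingCoeff_divByMonic_of_monic (monic_X_sub_C r), d.P_monic]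
      rw [degree_X_sub_C]
      have h3 : d.P.natDegree ≠ 0 := by rw [P_natDegree]; omega
      have h4 := natDegree_pos_iff_degree_pos.1 (Nat.pos_of_ne_zero h3)
      exact Nat.WithBot.one_le_iff_zero_lt.2 h4
    rw [← h2, leadingCoeff, h1]
    rfl
  have e4 : (d.ρ - algebraMap F κ r)⁻¹ =
      (-(d.P.eval r)⁻¹) • aeval d.ρ (d.P /ₘ (X - C r)) := by
    have h1 := e1 d.P
    rw [P_aeval] at h1
    have h2 : algebraMap F κ (d.P.eval r) ≠ 0 := by
      intro h
      exact hP ((map_eq_zero_iff _ (algebraMap F κ).injective).1 h)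
    rw [Algebra.smul_def, map_neg, map_inv₀]
    field_simp
    linear_combination -h1
  have e5 : aeval d.ρ g / (d.ρ - algebraMap F κ r) = aeval d.ρ (g /ₘ (X - C r)) +
      g.eval r • (d.ρ - algebraMap F κ r)⁻¹ := by
    rw [e1 g, Algebra.smul_def]
    field_simp
  rw [e5, map_add, e2 g hg, map_smul, e4, map_smul, e3, zero_add, smul_eq_mul, smul_eq_mul,
    mul_one, div_eq_mul_inv]
  ring

end Pool.Agent.LibHG80.Dat
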