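import Pool.Agent.LibHG80.Hom

/-!
ROW UJ. The groups `U j k`.
-/

set_option autoImplicit false

namespace Pool.Agent.LibHG80.Dat

open Module Polynomial

variable {F κ A : Type*} [Field F] [Field κ] [Algebra F κ] [AddCommGroup A] {p s : ℕ}
  [hp : Fact p.Prime] [hc : CharP F p] (d : Dat F κ A p s)

omit hp hc in
lemma Al_mul_U {j k : Fin d.n} {a t : F} (ha : a ∈ d.Al) (ht : t ∈ d.U j k) :
    a * t ∈ d.U j k := by
  rcases ht with h | h
  · exact Or.inl h
  · right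
    rw [mul_smul]
    exact ha _ _ h

omit hc in
private lemma uj_Fr_b (j : Fin d.n) : d.Fr (d.b j) = d.b j := by
  refine d.ext_co fun k => ?_
  rw [d.co_Fr, d.co_b]
  have hq : p ^ s ≠ 0 := pow_ne_zero _ hp.out.ne_zero
  split_ifs with h
  · exact one_pow _
  · exact zero_pow hq

lemma pow_mem_U {j k : Fin d.n} {t : F} : t ^ p ^ s ∈ d.U j k ↔ t ∈ d.U j k := by
  by_cases hjk : j = k
  · exact ⟨fun _ => Or.inl hjk, fun _ => Or.inl hjk⟩
  · rw [d.mem_U hjk, d.mem_U hjk, d.Tv_fr (w := d.b j) (φ := t • d.co k), d.uj_Fr_b, d.frf_smul,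
      d.frf_co]

omit hp hc in
lemma U_mul_U {i j k : Fin d.n} (hij : i ≠ j) (hjk : j ≠ k) {t t' : F} (ht : t ∈ d.U i j)
    (ht' : t' ∈ d.U j k) : t * t' ∈ d.U i k := by
  by_cases hik : i = k
  · exact Or.inl hik
  · right
    have h1 := (d.mem_U hij).1 ht
    have h2 := (d.mem_U hjk).1 ht'
    have h3 : (t' • d.co k) (d.b i) = 0 := by
      rw [LinearMap.smul_apply, d.co_b, if_neg (fun h => hik h.symm), smul_zero]
    have h4 := d.comm_tv h2 h1 h3
    have h5 : (t • d.co j) (d.b j) = t := by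
      rw [LinearMap.smul_apply, d.co_b, if_pos rfl, smul_eq_mul, mul_one]
    rw [h5, smul_smul] at h4
    exact h4

/-- `(w_r / b_j)` and `(w_s / z_k)`: `comm_hom s (y := z k)` for the homology
`(b_j, tw θ (w r / b_j))`. -/
lemma u_mem_U' {j k : Fin d.n} (hjk : j ≠ k) (r r' : F) :
    d.θ (d.w r * d.w r' / (d.z k * d.b j)) ∈ d.U j k := by
  rw [d.mem_U hjk]
  have hw := d.w_ne r
  have hb : d.b j ≠ 0 := pow_ne_zero _ d.rho_ne_zero
  have hz := d.z_ne k
  have hy : d.w r / d.b j ≠ 0 := div_ne_zero hw hb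
  have h2 := d.Pr_w_mul r hy
  have e1 : (d.w r / d.b j)⁻¹ * d.w r = d.b j := by
    rw [inv_div, div_mul_cancel₀ _ hw]
  rw [e1] at h2
  have h3 : d.θ (d.z k * d.b j) = 0 := by
    rw [← d.co_eq, d.co_b, if_neg (fun h => hjk h.symm)]
  have h4 := d.comm_hom r' hz h2 h3
  rw [← d.co_eq_tw, tw_apply] at h4
  have e2 : d.w r / d.b j * ((d.z k)⁻¹ * d.w r') = d.w r * d.w r' / (d.z k * d.b j) := by
    field_simp
  rw [e2] at h4
  exact h4

/-- The value: `θ (g(ρ) / ((ρ - r)(ρ - r'))) = - (g(r)/P(r) - g(r')/P(r')) / (r - r')`. -/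
lemma theta_div_div (g : F[X]) (hg : g.natDegree < d.n) {r r' : F} (h : r ≠ r') :
    d.θ (aeval d.ρ g / ((d.ρ - algebraMap F κ r) * (d.ρ - algebraMap F κ r'))) =
      -((g.eval r / d.P.eval r - g.eval r' / d.P.eval r') / (r - r')) := by
  have h1 := d.rho_ne r
  have h2 := d.rho_ne r'
  have h3 : r - r' ≠ 0 := sub_ne_zero.2 h
  have h4 : algebraMap F κ (r - r') ≠ 0 := by
    rw [Ne, map_eq_zero_iff _ (algebraMap F κ).injective]
    exact h3
  have e1 : aeval d.ρ g / ((d.ρ - algebraMap F κ r) * (d.ρ - algebraMap F κ r')) =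
      (r - r')⁻¹ • (aeval d.ρ g / (d.ρ - algebraMap F κ r) -
        aeval d.ρ g / (d.ρ - algebraMap F κ r')) := by
    rw [Algebra.smul_def, map_inv₀]
    rw [div_sub_div _ _ h1 h2, ← div_eq_inv_mul, div_div, div_eq_div_iff (mul_ne_zero h1 h2)
      (mul_ne_zero (mul_ne_zero h1 h2) h4), map_sub]
    ring
  rw [e1, map_smul, map_sub, d.theta_div' g hg, d.theta_div' g hg, smul_eq_mul]
  field_simp
  ring

/-- Both together: `g` is the polynomial of degree `< n` with
`g(ρ) = P'(ρ) ^ 2 / (z_k b_j)`. -/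
lemma value_mem_U {j k : Fin d.n} (hjk : j ≠ k) (g : F[X]) (hg : g.natDegree < d.n)
    (hg' : aeval d.ρ g = (aeval d.ρ d.P') ^ 2 / (d.z k * d.b j)) {r r' : F} (h : r ≠ r') :
    (g.eval r / d.P.eval r - g.eval r' / d.P.eval r') / (r - r') ∈ d.U j k := by
  have h1 := d.u_mem_U' hjk r r'
  have e1 : d.w r * d.w r' / (d.z k * d.b j) =
      aeval d.ρ g / ((d.ρ - algebraMap F κ r) * (d.ρ - algebraMap F κ r')) := by
    rw [hg', w, w]
    rw [div_mul_div_comm, neg_mul_neg, ← pow_two, div_div, div_div,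
      mul_comm (d.z k * d.b j) ((d.ρ - algebraMap F κ r) * (d.ρ - algebraMap F κ r'))]
  rw [e1, d.theta_div_div g hg h] at h1
  have h2 := neg_mem h1
  rw [neg_neg] at h2
  exact h2

include d in
omit hc in
private lemma uj_infinite : Infinite F := by
  by_contra hfin
  rw [not_infinite_iff_finite] at hfin
  have hft : Fintype F := Fintype.ofFinite F
  obtain ⟨k, hk⟩ := d.hnc
  apply hk
  have hq : p ^ s ≠ 0 := pow_ne_zero _ hp.out.ne_zero
  have hcard : 0 < Fintype.card F - 1 := Nat.sub_pos_of_lt Fintype.one_lt_card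
  by_cases h0 : (minpoly F d.B.gen).coeff k = 0
  · rw [h0, zero_pow hq]
  · obtain ⟨b, hb⟩ := d.hdiv _ hcard ((minpoly F d.B.gen).coeff k)
    have hb0 : b ≠ 0 := by
      rintro rfl
      rw [zero_pow hcard.ne'] at hb
      exact h0 hb.symm
    rw [FiniteField.pow_card_sub_one_eq_one b hb0] at hb
    rw [← hb, one_pow]

/-- `g / P` is not constant. -/
lemma U_ne_bot (j k : Fin d.n) : ∃ t ∈ d.U j k, t ≠ 0 := by
  by_cases hjk : j = k
  · exact ⟨1, Or.inl hjk, one_ne_zero⟩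
  have hinf : Infinite F := d.uj_infinite
  have hb : d.b j ≠ 0 := pow_ne_zero _ d.rho_ne_zero
  have hx : (aeval d.ρ d.P') ^ 2 / (d.z k * d.b j) ≠ 0 :=
    div_ne_zero (pow_ne_zero _ d.P'_aeval_ne) (mul_ne_zero (d.z_ne k) hb)
  obtain ⟨g, hg, hgx, -⟩ := d.exists_aeval ((aeval d.ρ d.P') ^ 2 / (d.z k * d.b j))
  by_contra hcon
  push Not at hcon
  have h1 : ∀ r : F, g.eval r = (C (g.eval 0 / d.P.eval 0) * d.P).eval r := by
    intro r
    rw [eval_mul, eval_C]
    by_cases hr : r = 0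
    · rw [hr, div_mul_cancel₀ _ (d.P_eval_ne 0)]
    · have h2 := hcon _ (d.value_mem_U hjk g hg hgx hr)
      rw [div_eq_zero_iff] at h2
      rcases h2 with h2 | h2
      · rw [← sub_eq_zero.1 h2, div_mul_cancel₀ _ (d.P_eval_ne r)]
      · exact absurd (sub_eq_zero.1 h2) hr
  have h2 : g = C (g.eval 0 / d.P.eval 0) * d.P := Polynomial.funext h1
  by_cases hc0 : g.eval 0 / d.P.eval 0 = 0
  · rw [hc0, C_0, zero_mul] at h2
    rw [h2, map_zero] at hgx
    exact hx hgx.symm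
  · have h3 : g.natDegree = d.n := by
      rw [h2, natDegree_C_mul hc0, d.P_natDegree]
    exact absurd hg (by rw [h3]; exact lt_irrefl _)

omit hp hc in
/-- Conjugation by multiplications. -/
lemma conj_U {j k : Fin d.n} (hjk : j ≠ k) {t : F} (ht : t ∈ d.U j k) {y : κ} (hy : y ≠ 0) :
    Tv d.c (y⁻¹ * d.b j) (t • tw (d.co k) y) := by
  have h1 := (d.Tv_mul hy).2 ((d.mem_U hjk).1 ht)
  have e : tw (t • d.co k) y = t • tw (d.co k) y := by
    refine LinearMap.ext fun x => ?_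
    rw [tw_apply, LinearMap.smul_apply, LinearMap.smul_apply, tw_apply]
  rw [e] at h1
  exact h1

end Pool.Agent.LibHG80.Dat
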